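import Mathlib
import Pool.Agent.helper68.B2.Defs
import Pool.Agent.helper74.B2.AD
import Pool.Agent.helper98.B2.B0b

/-! # B2, module b2:T2a: the first order identities -/

set_option autoImplicit false

namespace Pool.Agent.helper68.B2

open scoped ContDiff Topology Matrix
open Matrix Set Filter

theorem T2a_sum_ee (v : V3) : v = ∑ i, v i • ee i := by
  ext j
  simp [ee, Finset.sum_apply, Pi.single_apply]

theorem T2a_fld_add (v w : V3) (x : E4) : fld (v + w) x = fld v x + fld w x := by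
  simp [fld, add_smul, Finset.sum_add_distrib]

theorem T2a_fld_smul (c : ℝ) (v : V3) (x : E4) : fld (c • v) x = c • fld v x := by
  simp [fld, mul_smul, Finset.smul_sum]

theorem T2a_fld_ee (i : Fin 3) (x : E4) : fld (ee i) x = J i x := by
  simp [fld, ee, Pi.single_apply]

theorem T2a_fld_sum (v : V3) (x : E4) : fld v x = ∑ i, v i • fld (ee i) x := by
  simp only [T2a_fld_ee]
  rfl

theorem T2a_Dv_lin {F : Type*} [NormedAddCommGroup F] [NormedSpace ℝ F] (f : E4 → F) (v : V3)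
    (x : E4) : Dv f v x = ∑ i, v i • Dv f (ee i) x := by
  unfold Dv
  rw [T2a_fld_sum, map_sum]
  simp

theorem T2a_Gam_ee (S : Geo) (i : Fin 3) (x : E4) : S.Gam (ee i) x = S.Γ i x := by
  simp [Geo.Gam, ee]

theorem T2a_odot_lin (G : M3) (v w : V3) : odot G v w = ∑ i, v i • odot G (ee i) w := by
  ext a b
  simp only [odot, Matrix.add_apply, Matrix.vecMulVec_apply, Matrix.sum_apply, Matrix.smul_apply,
    Fin.sum_univ_three, ee, Matrix.mulVec, dotProduct, smul_eq_mul]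
  fin_cases a <;> simp [Pi.single_apply] <;> ring

theorem T2a_nab_lin (S : Geo) (V : E4 → V3) (v : V3) (x : E4) :
    S.nab V v x = ∑ i, v i • S.nab V (ee i) x := by
  unfold Geo.nab
  rw [T2a_Dv_lin V v x]
  simp only [smul_add, Finset.sum_add_distrib, T2a_Gam_ee]
  congr 1
  unfold Geo.Gam
  rw [Matrix.sum_mulVec]
  simp [Matrix.smul_mulVec]

theorem T2a_nabE_lin (S : Geo) (A : E4 → M3) (v : V3) (x : E4) :
    S.nabE A v x = ∑ i, v i • S.nabE A (ee i) x := by
  unfold Geo.nabE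
  rw [T2a_Dv_lin A v x]
  simp only [smul_add, Finset.sum_add_distrib, T2a_Gam_ee, smul_sub, Finset.sum_sub_distrib]
  congr 1
  unfold Geo.Gam
  rw [Finset.sum_mul, Finset.mul_sum]
  simp

theorem T2a_main (S : Geo) {x : E4} (hx : x ≠ 0) (v : V3) : S.nabE S.L v x = S.od x v (S.lam x) := by
  rw [T2a_nabE_lin]
  unfold Geo.od
  rw [T2a_odot_lin]
  refine Finset.sum_congr rfl fun i _ => ?_
  rw [← S.main x hx i]
  unfold Geo.nabE
  rw [T2a_Gam_ee]

theorem T2a_diffL (S : Geo) {x : E4} (hx : x ≠ 0) : DifferentiableAt ℝ S.L x :=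
  ((S.smL.contDiffAt (isOpen_compl_singleton.mem_nhds hx)).differentiableAt (by simp))

theorem T2a_trace_nabE (S : Geo) (A : E4 → M3) (v : V3) (x : E4) :
    (S.nabE A v x).trace = (Dv A v x).trace := by
  unfold Geo.nabE
  rw [Matrix.trace_add, Matrix.trace_sub, Matrix.trace_mul_comm (S.Gam v x)]
  ring

theorem T2a_trace_mul_nabE (S : Geo) (B : M3) (A : E4 → M3) (v : V3) (x : E4)
    (hc : B * A x = A x * B) :
    (B * S.nabE A v x).trace = (B * Dv A v x).trace := by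
  unfold Geo.nabE
  rw [Matrix.mul_add, Matrix.trace_add, Matrix.mul_sub, Matrix.trace_sub]
  have h1 : (B * (S.Gam v x * A x)).trace = (B * (A x * S.Gam v x)).trace := by
    rw [← Matrix.mul_assoc, Matrix.trace_mul_comm, ← Matrix.mul_assoc, ← hc, Matrix.mul_assoc]
  rw [h1]; ring

theorem T2a_symm (S : Geo) {x : E4} (hx : x ≠ 0) (u w : V3) : S.g x u w = S.g x w u := by
  unfold Geo.g bil
  rw [Matrix.dotProduct_mulVec, ← Matrix.mulVec_transpose, S.symm x hx, dotProduct_comm]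

theorem T2a_trace_od (S : Geo) {x : E4} (hx : x ≠ 0) (B : M3) (hB : (S.G x * B)ᵀ = S.G x * B)
    (v w : V3) : (B * S.od x v w).trace = 2 * S.g x (B *ᵥ w) v := by
  have h1 : B * S.od x v w = vecMulVec (B *ᵥ v) (S.G x *ᵥ w) + vecMulVec (B *ᵥ w) (S.G x *ᵥ v) := by
    rw [Geo.od, odot, Matrix.mul_add, Matrix.mul_vecMulVec, Matrix.mul_vecMulVec]
  have h2 : (B *ᵥ v) ⬝ᵥ (S.G x *ᵥ w) = (B *ᵥ w) ⬝ᵥ (S.G x *ᵥ v) := by
    have h3 := T2a_symm S hx (B *ᵥ v) w
    unfold Geo.g bil at h3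
    rw [h3, Matrix.mulVec_mulVec, Matrix.dotProduct_mulVec, ← Matrix.mulVec_transpose, hB,
      ← Matrix.mulVec_mulVec, dotProduct_comm]
    have h4 := T2a_symm S hx (B *ᵥ w) v
    unfold Geo.g bil at h4
    rw [h4]
  rw [h1, Matrix.trace_add, Matrix.trace_vecMulVec, Matrix.trace_vecMulVec, h2]
  unfold Geo.g bil
  ring

theorem Lam_apply (S : Geo) (x : E4) (v : V3) : S.Lam x *ᵥ v = S.nab S.lam v x := by
  rw [T2a_nab_lin]
  ext i
  simp only [Geo.Lam, Matrix.mulVec, dotProduct, Matrix.of_apply, Finset.sum_apply, Pi.smul_apply,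
    smul_eq_mul]
  exact Finset.sum_congr rfl fun j _ => mul_comm _ _

theorem d_tr (S : Geo) {x : E4} (hx : x ≠ 0) (v : V3) :
    Dv (fun y => (S.L y).trace) v x = 2 * S.g x (S.lam x) v := by
  rw [Dv_trace (T2a_diffL S hx), ← T2a_trace_nabE S, T2a_main S hx]
  have h := T2a_trace_od S hx (1 : M3) (by rw [Matrix.mul_one]; exact S.symm x hx) v (S.lam x)
  rwa [Matrix.one_mul, Matrix.one_mulVec] at h

theorem d_tr2 (S : Geo) {x : E4} (hx : x ≠ 0) (v : V3) :
    Dv (fun y => (S.L y * S.L y).trace) v x = 4 * S.g x (S.L x *ᵥ S.lam x) v := by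
  have hd := T2a_diffL S hx
  rw [Dv_trace (B0b_H.diff (v := v) ((B0b_H_of hd).bilin B0b_bil_mul (B0b_H_of hd))), Dv_mul hd hd,
    Matrix.trace_add, Matrix.trace_mul_comm (Dv S.L v x), ← T2a_trace_mul_nabE S (S.L x) S.L v x rfl,
    T2a_main S hx, T2a_trace_od S hx (S.L x) (S.selfadj x hx)]
  ring

theorem T2a_Dv_shift (S : Geo) {x : E4} (hx : x ≠ 0) (t : ℝ) (v : V3) :
    B0b_H v x (fun y => S.L y - t • (1 : M3)) (Dv S.L v x) := by
  have h := (B0b_H_of (v := v) (T2a_diffL S hx)).sub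
    (B0b_H_of (v := v) (differentiableAt_const (x := x) (t • (1 : M3))))
  rw [Dv_const, sub_zero] at h
  exact h

theorem T2a_adj_comm (A : M3) : A.adjugate * A = A * A.adjugate := by
  rw [Matrix.adjugate_mul, Matrix.mul_adjugate]

theorem T2a_adjL_comm (S : Geo) (x : E4) (t : ℝ) :
    (S.L x - t • (1 : M3)).adjugate * S.L x = S.L x * (S.L x - t • (1 : M3)).adjugate := by
  have h := T2a_adj_comm (S.L x - t • (1 : M3))
  rw [Matrix.mul_sub, Matrix.sub_mul] at h
  simpa using h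

theorem T2a_K_sa (S : Geo) {x : E4} (hx : x ≠ 0) (t : ℝ) :
    (S.G x * (S.L x - t • (1 : M3)).adjugate)ᵀ = S.G x * (S.L x - t • (1 : M3)).adjugate := by
  have hG := S.symm x hx
  have hL := S.selfadj x hx
  rw [Matrix.transpose_mul, hG] at hL ⊢
  set A := S.L x - t • (1 : M3) with hA
  have h1 : Aᵀ * S.G x = S.G x * A := by
    rw [hA, Matrix.transpose_sub, Matrix.sub_mul, Matrix.mul_sub, hL]
    simp
  have htr : Aᵀ.trace = A.trace := Matrix.trace_transpose _
  rw [Matrix.adjugate_transpose, B0b_adjugate A, B0b_adjugate Aᵀ]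
  have h2 : Aᵀ * Aᵀ * S.G x = S.G x * (A * A) := by
    rw [Matrix.mul_assoc, h1, ← Matrix.mul_assoc, h1, Matrix.mul_assoc]
  have htr2 : (Aᵀ * Aᵀ).trace = (A * A).trace := by
    rw [← Matrix.transpose_mul, Matrix.trace_transpose]
  unfold crossM
  rw [htr, htr2]
  simp only [smul_mul_assoc, mul_smul_comm, Matrix.add_mul, Matrix.mul_add, Matrix.sub_mul,
    Matrix.mul_sub, h2, h1, Matrix.one_mul, Matrix.mul_one]

theorem d_det (S : Geo) {x : E4} (hx : x ≠ 0) (t : ℝ) (v : V3) :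
    Dv (fun y => (S.L y - t • (1 : M3)).det) v x = 2 * S.g x (S.K t x *ᵥ S.lam x) v := by
  rw [(B0b_H_det (T2a_Dv_shift S hx t v)).eq,
    ← T2a_trace_mul_nabE S _ S.L v x (T2a_adjL_comm S x t), T2a_main S hx,
    T2a_trace_od S hx _ (T2a_K_sa S hx t)]
  rfl

theorem T2a_crossM_comm_right (A B C : M3) :
    crossM A (B + C) = crossM A B + crossM A C := AD_cross_add A B C

/-- `crossM A [Γ, A] = [Γ, adj A]` -/
theorem T2a_crossM_bracket (A B : M3) :
    crossM A (B * A - A * B) = B * A.adjugate - A.adjugate * B := by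
  ext i j
  fin_cases i <;> fin_cases j <;>
    simp [crossM, Matrix.adjugate_fin_three, Matrix.mul_apply, Matrix.trace, Fin.sum_univ_three,
      Matrix.vecMul, dotProduct] <;>
    ring

theorem nabE_K (S : Geo) {x : E4} (hx : x ≠ 0) (t : ℝ) (v : V3) :
    S.nabE (S.K t) v x = crossM (S.L x - t • (1 : M3)) (S.od x v (S.lam x)) := by
  have h1 : Dv (S.K t) v x = crossM (S.L x - t • (1 : M3)) (Dv S.L v x) :=
    (B0b_H_adjugate (T2a_Dv_shift S hx t v)).eq
  rw [← T2a_main S hx v]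
  unfold Geo.nabE
  rw [h1, AD_cross_add]
  congr 1
  have h2 : S.Gam v x * S.L x - S.L x * S.Gam v x =
      S.Gam v x * (S.L x - t • (1 : M3)) - (S.L x - t • (1 : M3)) * S.Gam v x := by
    rw [Matrix.mul_sub, Matrix.sub_mul]
    simp
  rw [h2, T2a_crossM_bracket]
  rfl

theorem K_killing (S : Geo) {x : E4} (hx : x ≠ 0) (t : ℝ) (v : V3) :
    S.g x v (S.nabE (S.K t) v x *ᵥ v) = 0 := by
  rw [nabE_K S hx]
  have hA : (S.G x * (S.L x - t • (1 : M3)))ᵀ = S.G x * (S.L x - t • (1 : M3)) := by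
    rw [Matrix.mul_sub, Matrix.transpose_sub, S.selfadj x hx]
    simp [S.symm x hx]
  exact AD_killing (S.G x) _ (S.symm x hx) hA v (S.lam x)

end Pool.Agent.helper68.B2
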