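import Pool.Agent.helper68.B2.Defs2
import Pool.Agent.helper98.B2.GA
import Pool.Agent.helper30.B2.LA2
import Pool.Agent.helper31.B2.NG
import Pool.Agent.helper63.B2.A1
import Pool.Agent.helper63.B2.A2
import Pool.Agent.helper63.B2.NZ

/-! # B2, module b2:A3: Lemma A (`g (lam, z) = 0` for null eigenvectors `z`) -/

set_option autoImplicit false

namespace Pool.Agent.helper68.B2

open scoped ContDiff Topology Matrix
open Matrix Set Filter

theorem A3_Lor (S : Geo) {x : E4} (hx : x ≠ 0) : Lor (S.G x) :=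
  ⟨S.symm x hx, S.det_neg x hx, S.pos x hx⟩

/-- the function `tr L - 3 τ` -/
noncomputable def A3_F (S : Geo) (R : Roots S) (x : E4) : ℝ := (S.L x).trace - 3 * R.τ x

/-- `z` is a null eigenvector of `L` at `x` with `g (lam, z) ≠ 0` -/
structure A3_D (S : Geo) (R : Roots S) (x : E4) (z : V3) : Prop where
  hx : x ≠ 0
  hz : z ≠ 0
  zz : S.g x z z = 0
  Lz : S.L x *ᵥ z = R.τ x • z
  lz : S.g x (S.lam x) z ≠ 0

theorem A3_tau (S : Geo) (R : Roots S) {x : E4} (hx : x ≠ 0) {z : V3} (hz : z ≠ 0)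
    (hzz : S.g x z z = 0) {μ : ℝ} (hL : S.L x *ᵥ z = μ • z) : μ = R.τ x := by
  obtain ⟨w, hw, hLw, hww⟩ := R.causal x hx
  exact LA_causal_unique (A3_Lor S hx) (S.selfadj x hx) hz hw hL hLw (le_of_eq hzz) hww

theorem A3_frame_ne {G : M3} {z n e : V3} (hf : NFrame G z n e) : z ≠ 0 := by
  intro h0
  have := hf.zn
  rw [h0] at this
  simp [bil] at this

theorem A3_move (S : Geo) (R : Roots S) {x : E4} {z : V3} (h : A3_D S R x z) :
    ∃ (y : E4) (w : V3), A3_D S R y w ∧ |A3_F S R x| < |A3_F S R y| := by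
  obtain ⟨e, hee, hze⟩ := LA_exists_e (A3_Lor S h.hx) h.hz h.zz
  obtain ⟨n, hf⟩ := LA_frame (A3_Lor S h.hx) h.hz h.zz hee hze
  obtain ⟨δ, hδ, γ, zt, nt, et, hγ0, hz0, hn0, he0, H⟩ := S.null_geodesic h.hx hf h.Lz
  set l := S.g x (S.lam x) z with hl
  have key : ∀ t ∈ Ioo (-δ) δ, A3_D S R (γ t) (zt t) ∧ A3_F S R (γ t) = A3_F S R x - l * t := by
    intro t ht
    obtain ⟨h1, -, -, -, -, h2, h3, h4, h5⟩ := H t ht
    have hz : zt t ≠ 0 := A3_frame_ne h2
    have hzz : S.g (γ t) (zt t) (zt t) = 0 := h2.zz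
    have hτ := A3_tau S R h1 hz hzz h3
    refine ⟨⟨h1, hz, hzz, ?_, ?_⟩, ?_⟩
    · rw [← hτ]; exact h3
    · rw [h4]; exact h.lz
    · unfold A3_F
      rw [h5, ← hτ]; ring
  have hlz : l ≠ 0 := h.lz
  rcases lt_or_gt_of_ne hlz with hl0 | hl0
  · rcases le_or_gt 0 (A3_F S R x) with hF | hF
    · obtain ⟨h1, h2⟩ := key (δ / 2) ⟨by linarith, by linarith⟩
      refine ⟨_, _, h1, ?_⟩
      have h3 : l * (δ / 2) < 0 := mul_neg_of_neg_of_pos hl0 (by linarith)
      rw [h2, abs_of_nonneg hF, abs_of_nonneg (by linarith)]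
      linarith
    · obtain ⟨h1, h2⟩ := key (-(δ / 2)) ⟨by linarith, by linarith⟩
      refine ⟨_, _, h1, ?_⟩
      have h3 : l * (δ / 2) < 0 := mul_neg_of_neg_of_pos hl0 (by linarith)
      rw [h2, abs_of_neg hF, abs_of_neg (by linarith)]
      linarith
  · rcases le_or_gt 0 (A3_F S R x) with hF | hF
    · obtain ⟨h1, h2⟩ := key (-(δ / 2)) ⟨by linarith, by linarith⟩
      refine ⟨_, _, h1, ?_⟩
      have h3 : 0 < l * (δ / 2) := mul_pos hl0 (by linarith)
      rw [h2, abs_of_nonneg hF, abs_of_nonneg (by linarith)]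
      linarith
    · obtain ⟨h1, h2⟩ := key (δ / 2) ⟨by linarith, by linarith⟩
      refine ⟨_, _, h1, ?_⟩
      have h3 : 0 < l * (δ / 2) := mul_pos hl0 (by linarith)
      rw [h2, abs_of_neg hF, abs_of_neg (by linarith)]
      linarith

theorem A3_g_smul (S : Geo) (x : E4) {t : ℝ} (ht : 0 < t) (u v : V3) :
    S.g (t • x) u v = S.g x u v := by
  unfold Geo.g
  rw [S.homG t ht x]

theorem A3_D_smul (S : Geo) (R : Roots S) {x : E4} {z : V3} (h : A3_D S R x z) {t : ℝ} (ht : 0 < t)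
    {c : ℝ} (hc : c ≠ 0) : A3_D S R (t • x) (c • z) := by
  refine ⟨smul_ne_zero ht.ne' h.hx, smul_ne_zero hc h.hz, ?_, ?_, ?_⟩
  · rw [A3_g_smul S x ht]
    unfold Geo.g
    rw [GA_bil_smul_left, GA_bil_smul_right]
    have := h.zz
    unfold Geo.g at this
    rw [this]; ring
  · rw [S.homL t ht x, R.hτ t ht x, Matrix.mulVec_smul, h.Lz, smul_comm]
  · rw [A3_g_smul S x ht, S.homlam t ht x]
    unfold Geo.g
    rw [GA_bil_smul_right]
    exact mul_ne_zero hc h.lz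

theorem A3_F_smul (S : Geo) (R : Roots S) (x : E4) {t : ℝ} (ht : 0 < t) :
    A3_F S R (t • x) = A3_F S R x := by
  unfold A3_F
  rw [S.homL t ht x, R.hτ t ht x]

theorem A3_F_cont (S : Geo) (R : Roots S) : ContinuousOn (A3_F S R) {0}ᶜ := by
  unfold A3_F
  have h1 : ContinuousOn (fun x => (S.L x).trace) {0}ᶜ := by
    intro x hx
    exact ((contDiffAt_trace (n := ∞) (S.smL.contDiffAt hx)).continuousAt).continuousWithinAt
  exact h1.sub (continuousOn_const.mul R.cτ)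

theorem A3_limit (S : Geo) (R : Roots S) (h : ∃ x z, A3_D S R x z) :
    ∃ (y : ℕ → E4) (w : ℕ → V3) (x : E4) (z : V3), (∀ k, A3_D S R (y k) (w k)) ∧
      Tendsto y atTop (𝓝 x) ∧ Tendsto w atTop (𝓝 z) ∧ x ≠ 0 ∧ z ≠ 0 ∧
      ∀ y' w', A3_D S R y' w' → |A3_F S R y'| ≤ |A3_F S R x| := by
  classical
  have hsub : Metric.sphere (0 : E4) 1 ⊆ {0}ᶜ := by
    intro y hy h0
    rw [mem_singleton_iff] at h0
    rw [h0] at hy
    simp at hy
  obtain ⟨C, hC⟩ := (isCompact_sphere (0 : E4) 1).exists_bound_of_continuousOn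
    ((A3_F_cont S R).mono hsub)
  set V : Set ℝ := {r | ∃ y w, A3_D S R y w ∧ r = |A3_F S R y|} with hV
  have hne : V.Nonempty := by
    obtain ⟨x, z, hxz⟩ := h
    exact ⟨_, x, z, hxz, rfl⟩
  have hnorm : ∀ y : E4, y ≠ 0 → ‖y‖⁻¹ • y ∈ Metric.sphere (0 : E4) 1 := by
    intro y hy
    have h0 : 0 < ‖y‖ := norm_pos_iff.2 hy
    rw [mem_sphere_zero_iff_norm, norm_smul, norm_inv, norm_norm, inv_mul_cancel₀ h0.ne']
  have hbdd : BddAbove V := by
    refine ⟨C, ?_⟩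
    rintro r ⟨y, w, hyw, rfl⟩
    have h1 := hC _ (hnorm y hyw.hx)
    rw [A3_F_smul S R y (inv_pos.2 (norm_pos_iff.2 hyw.hx))] at h1
    exact h1
  obtain ⟨u, -, hu, huV⟩ := exists_seq_tendsto_sSup hne hbdd
  choose y w hyw huy using huV
  set y' : ℕ → E4 := fun k => ‖y k‖⁻¹ • y k with hy'
  set w' : ℕ → V3 := fun k => ‖w k‖⁻¹ • w k with hw'
  have hD : ∀ k, A3_D S R (y' k) (w' k) := fun k =>
    A3_D_smul S R (hyw k) (inv_pos.2 (norm_pos_iff.2 (hyw k).hx))
      (inv_ne_zero (norm_ne_zero_iff.2 (hyw k).hz))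
  have hmem : ∀ k, (y' k, w' k) ∈ Metric.sphere (0 : E4) 1 ×ˢ Metric.sphere (0 : V3) 1 := by
    intro k
    refine ⟨hnorm _ (hyw k).hx, ?_⟩
    have h0 : 0 < ‖w k‖ := norm_pos_iff.2 (hyw k).hz
    rw [mem_sphere_zero_iff_norm, norm_smul, norm_inv, norm_norm, inv_mul_cancel₀ h0.ne']
  obtain ⟨⟨x, z⟩, ⟨hx, hz⟩, φ, hφ, hlim⟩ :=
    ((isCompact_sphere (0 : E4) 1).prod (isCompact_sphere (0 : V3) 1)).tendsto_subseq hmem
  have hx0 : x ≠ 0 := hsub hx
  have hz0 : z ≠ 0 := by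
    intro h0
    simp only at hz
    rw [h0] at hz
    simp at hz
  have hlimy : Tendsto (fun k => y' (φ k)) atTop (𝓝 x) :=
    (continuous_fst.tendsto _).comp hlim
  have hlimw : Tendsto (fun k => w' (φ k)) atTop (𝓝 z) :=
    (continuous_snd.tendsto _).comp hlim
  refine ⟨fun k => y' (φ k), fun k => w' (φ k), x, z, fun k => hD _, hlimy, hlimw, hx0, hz0, ?_⟩
  have hFx : |A3_F S R x| = sSup V := by
    have h1 : Tendsto (fun k => |A3_F S R (y' (φ k))|) atTop (𝓝 |A3_F S R x|) := by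
      have h2 : ContinuousAt (A3_F S R) x :=
        (A3_F_cont S R).continuousAt (isOpen_compl_singleton.mem_nhds hx0)
      exact (h2.tendsto.comp hlimy).abs
    have h3 : Tendsto (fun k => u (φ k)) atTop (𝓝 (sSup V)) := hu.comp hφ.tendsto_atTop
    refine tendsto_nhds_unique h1 (h3.congr fun k => ?_)
    rw [huy, hy']
    simp only
    rw [A3_F_smul S R _ (inv_pos.2 (norm_pos_iff.2 (hyw (φ k)).hx))]
  intro y₁ w₁ h₁
  rw [hFx]
  exact le_csSup hbdd ⟨y₁, w₁, h₁, rfl⟩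

/-- the closed conditions: metric `G`, endomorphisms `L`, `H = ∇ lam`, vectors `lam`, `z`, value `τ` -/
def A3_I (p : M3 × M3 × M3 × V3 × V3 × ℝ) : Prop :=
  bil p.1 p.2.2.2.2.1 p.2.2.2.2.1 = 0 ∧
  p.2.1 *ᵥ p.2.2.2.2.1 = p.2.2.2.2.2 • p.2.2.2.2.1 ∧
  (p.2.1 - p.2.2.2.2.2 • (1 : M3)) * (p.2.1 - p.2.2.2.2.2 • (1 : M3)) =
    (p.2.1.trace - 3 * p.2.2.2.2.2) • (p.2.1 - p.2.2.2.2.2 • (1 : M3)) ∧
  bil p.1 p.2.2.2.1 p.2.2.2.2.1 •
      ((p.2.1.trace - 3 * p.2.2.2.2.2) • (1 : M3) - (p.2.1 - p.2.2.2.2.2 • (1 : M3))) =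
    odot p.1 p.2.2.2.2.1
      (((p.2.1.trace - 3 * p.2.2.2.2.2) • (1 : M3) - (p.2.1 - p.2.2.2.2.2 • (1 : M3))) *ᵥ p.2.2.2.1) ∧
  (2 * (p.2.1.trace - 3 * p.2.2.2.2.2)) •
      (p.2.2.1 * ((p.2.1.trace - 3 * p.2.2.2.2.2) • (1 : M3) - (p.2.1 - p.2.2.2.2.2 • (1 : M3)))) =
    (p.2.2.1 * ((p.2.1.trace - 3 * p.2.2.2.2.2) • (1 : M3) -
      (p.2.1 - p.2.2.2.2.2 • (1 : M3)))).trace •
      ((p.2.1.trace - 3 * p.2.2.2.2.2) • (1 : M3) - (p.2.1 - p.2.2.2.2.2 • (1 : M3))) ∧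
  (p.2.1.trace - 3 * p.2.2.2.2.2) * (p.2.2.1 * ((p.2.1.trace - 3 * p.2.2.2.2.2) • (1 : M3) -
      (p.2.1 - p.2.2.2.2.2 • (1 : M3)))).trace =
    2 * bil p.1 ((p.2.1 - p.2.2.2.2.2 • (1 : M3)) *ᵥ p.2.2.2.1) p.2.2.2.1

theorem A3_closed : IsClosed {p : M3 × M3 × M3 × V3 × V3 × ℝ | A3_I p} := by
  unfold A3_I bil odot
  simp only [Set.ofPred_and]
  refine IsClosed.inter ?_ (IsClosed.inter ?_ (IsClosed.inter ?_ (IsClosed.inter ?_
    (IsClosed.inter ?_ ?_))))
  · exact isClosed_eq (by fun_prop) (by fun_prop)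
  · exact isClosed_eq (by fun_prop) (by fun_prop)
  · exact isClosed_eq (by fun_prop) (by fun_prop)
  · exact isClosed_eq (by fun_prop) (by fun_prop)
  · exact isClosed_eq (by fun_prop) (by fun_prop)
  · exact isClosed_eq (by fun_prop) (by fun_prop)


theorem A3_bil_sub_left (G : M3) (u u' v : V3) : bil G (u - u') v = bil G u v - bil G u' v := by
  unfold bil; rw [sub_dotProduct]

theorem A3_point (S : Geo) (R : Roots S) {x : E4} {z : V3} (h : A3_D S R x z)
    (hF : A3_F S R x ≠ 0) : A3_I (S.G x, S.L x, S.Lam x, S.lam x, z, R.τ x) := by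
  have hx := h.hx
  have hreal : ∀ x, x ≠ 0 → ∃ a b c : ℝ, RR3 (S.L x) a b c := fun x hx => ⟨_, _, _, R.fac x hx⟩
  have hb : (S.L x).trace - 2 * R.τ x ≠ R.τ x := by
    intro h0
    apply hF
    unfold A3_F
    linarith
  obtain ⟨n, e, hf, hLn, hLe⟩ := S.A1 hreal hx h.hz h.zz h.Lz h.lz hb
  obtain ⟨hln, θ, hθz, hθn, hθe⟩ := S.A2 hreal hx hf h.Lz hLn hLe hb h.lz
  have hG := S.symm x hx
  have hLz := h.Lz
  have hlz := h.lz
  unfold A3_I
  simp only
  have hFdef : A3_F S R x = (S.L x).trace - 3 * R.τ x := rfl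
  set τ := R.τ x with hτ
  set F := (S.L x).trace - 3 * τ with hFF
  rw [hFdef] at hF
  set A : M3 := S.L x - τ • (1 : M3) with hA
  set N : M3 := F • (1 : M3) - A with hN
  have hAz : A *ᵥ z = 0 := by
    rw [hA, Matrix.sub_mulVec, Matrix.smul_mulVec, Matrix.one_mulVec, hLz, sub_self]
  have hAn : A *ᵥ n = 0 := by
    rw [hA, Matrix.sub_mulVec, Matrix.smul_mulVec, Matrix.one_mulVec, hLn, sub_self]
  have hAe : A *ᵥ e = F • e := by
    rw [hA, Matrix.sub_mulVec, Matrix.smul_mulVec, Matrix.one_mulVec, hLe, ← sub_smul]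
    congr 1
    rw [hFF]; ring
  have hNz : N *ᵥ z = F • z := by
    rw [hN, Matrix.sub_mulVec, Matrix.smul_mulVec, Matrix.one_mulVec, hAz, sub_zero]
  have hNn : N *ᵥ n = F • n := by
    rw [hN, Matrix.sub_mulVec, Matrix.smul_mulVec, Matrix.one_mulVec, hAn, sub_zero]
  have hNe : N *ᵥ e = 0 := by
    rw [hN, Matrix.sub_mulVec, Matrix.smul_mulVec, Matrix.one_mulVec, hAe, sub_self]
  set l := S.g x (S.lam x) z with hl
  set m := S.g x (S.lam x) e with hm
  have hlam : S.lam x = l • n + m • e := by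
    have h1 := hf.expand hG (S.lam x)
    have h2 : bil (S.G x) (S.lam x) n = 0 := hln
    rw [h2, zero_smul, zero_add] at h1
    exact h1
  have hNlam : N *ᵥ S.lam x = (l * F) • n := by
    rw [hlam, Matrix.mulVec_add, Matrix.mulVec_smul, Matrix.mulVec_smul, hNn, hNe, smul_zero,
      add_zero, smul_smul]
  have hAlam : A *ᵥ S.lam x = (m * F) • e := by
    rw [hlam, Matrix.mulVec_add, Matrix.mulVec_smul, Matrix.mulVec_smul, hAn, hAe, smul_zero,
      zero_add, smul_smul]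
  have hnz : bil (S.G x) n z = 1 := by rw [bil_symm hG]; exact hf.zn
  have hen : bil (S.G x) e n = 0 := by rw [bil_symm hG]; exact hf.ne
  have hez : bil (S.G x) e z = 0 := by rw [bil_symm hG]; exact hf.ze
  have hLamN : S.Lam x * N = θ • N := by
    refine hf.ext hG ?_ ?_ ?_
    · rw [← Matrix.mulVec_mulVec, hNz, Matrix.mulVec_smul, hθz, Matrix.smul_mulVec, hNz, smul_comm]
    · rw [← Matrix.mulVec_mulVec, hNn, Matrix.mulVec_smul, hθn, Matrix.smul_mulVec, hNn, smul_comm]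
    · rw [← Matrix.mulVec_mulVec, hNe, Matrix.mulVec_zero, Matrix.smul_mulVec, hNe, smul_zero]
  have htrN : N.trace = 2 * F := by
    rw [hN, Matrix.trace_sub, hA, Matrix.trace_sub, Matrix.trace_smul, Matrix.trace_smul,
      Matrix.trace_one]
    simp only [Fintype.card_fin, smul_eq_mul]
    rw [hFF]; push_cast; ring
  have htr : (S.Lam x * N).trace = θ * (2 * F) := by
    rw [hLamN, Matrix.trace_smul, htrN, smul_eq_mul]
  refine ⟨h.zz, h.Lz, ?_, ?_, ?_, ?_⟩
  · refine hf.ext hG ?_ ?_ ?_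
    · rw [← Matrix.mulVec_mulVec, hAz, Matrix.mulVec_zero, Matrix.smul_mulVec, hAz, smul_zero]
    · rw [← Matrix.mulVec_mulVec, hAn, Matrix.mulVec_zero, Matrix.smul_mulVec, hAn, smul_zero]
    · rw [← Matrix.mulVec_mulVec, hAe, Matrix.mulVec_smul, hAe, Matrix.smul_mulVec, hAe]
  · rw [hNlam]
    change l • N = S.od x z ((l * F) • n)
    refine hf.ext hG ?_ ?_ ?_
    · rw [S.od_apply hx, Matrix.smul_mulVec, hNz]
      unfold Geo.g
      rw [GA_bil_smul_left, hnz, hf.zz, zero_smul, add_zero, smul_smul, mul_one]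
    · rw [S.od_apply hx, Matrix.smul_mulVec, hNn]
      unfold Geo.g
      rw [GA_bil_smul_left, hf.nn, hf.zn, mul_zero, zero_smul, zero_add, one_smul, smul_smul]
    · rw [S.od_apply hx, Matrix.smul_mulVec, hNe]
      unfold Geo.g
      rw [GA_bil_smul_left, hf.ne, hf.ze, mul_zero, zero_smul, zero_smul, zero_add, smul_zero]
  · rw [htr, hLamN, smul_smul]
    congr 1
    ring
  · rw [htr, hAlam, hlam, GA_bil_smul_left, GA_bil_add_right, GA_bil_smul_right, GA_bil_smul_right,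
      hen, hf.ee]
    have h3 : θ * F = m ^ 2 := by
      rw [← hθe]
      congr 1
      rw [hFF]; ring
    linear_combination (2 * F) * h3

theorem A3_trace {A : M3} {a b c : ℝ} (h : RR3 A a b c) : A.trace = a + b + c := by
  have h0 := h 0
  have h1 := h 1
  have h2 := h (-1)
  rw [Matrix.det_fin_three] at h0 h1 h2
  simp [Matrix.trace_fin_three] at h0 h1 h2 ⊢
  linear_combination (-1 / 2 : ℝ) * h1 + (-1 / 2 : ℝ) * h2 + h0

theorem A3_root {A : M3} {τ F : ℝ}
    (h1 : (A - τ • (1 : M3)) * (A - τ • (1 : M3)) = F • (A - τ • (1 : M3))) {σ : ℝ}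
    (hσ : (σ • (1 : M3) - A).det = 0) : σ = τ ∨ σ = τ + F := by
  obtain ⟨v, hv, hv0⟩ := Matrix.exists_mulVec_eq_zero_iff.2 hσ
  have hAv : A *ᵥ v = σ • v := by
    rw [Matrix.sub_mulVec, Matrix.smul_mulVec, Matrix.one_mulVec, sub_eq_zero] at hv0
    exact hv0.symm
  have h2 : (A - τ • (1 : M3)) *ᵥ v = (σ - τ) • v := by
    rw [Matrix.sub_mulVec, Matrix.smul_mulVec, Matrix.one_mulVec, hAv, sub_smul]
  have h3 := congrArg (fun M : M3 => M *ᵥ v) h1
  rw [← Matrix.mulVec_mulVec, h2, Matrix.mulVec_smul, h2, Matrix.smul_mulVec, h2, smul_smul,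
    smul_smul, ← sub_eq_zero, ← sub_smul] at h3
  rcases smul_eq_zero.1 h3 with h4 | h4
  · have h5 : (σ - τ) * (σ - (τ + F)) = 0 := by linear_combination h4
    rcases mul_eq_zero.1 h5 with h6 | h6
    · left; linarith
    · right; linarith
  · exact absurd h4 hv

theorem A3_RR3 {A : M3} {σ₁ σ₂ τ F : ℝ} (h : RR3 A τ σ₁ σ₂) (hF : F = A.trace - 3 * τ) (hF0 : F ≠ 0)
    (h1 : (A - τ • (1 : M3)) * (A - τ • (1 : M3)) = F • (A - τ • (1 : M3))) :
    RR3 A τ τ (τ + F) := by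
  have ht := A3_trace h
  have h2 : σ₁ = τ ∨ σ₁ = τ + F := A3_root h1 (by rw [h]; ring)
  have h3 : σ₂ = τ ∨ σ₂ = τ + F := A3_root h1 (by rw [h]; ring)
  intro t
  rw [h t]
  rcases h2 with h2 | h2 <;> rcases h3 with h3 | h3
  · exfalso; apply hF0; rw [h2, h3] at ht; linarith
  · rw [h2, h3]
  · rw [h2, h3]; ring
  · exfalso; apply hF0; rw [h2, h3] at ht; linarith

theorem A3_od_zero (S : Geo) {x : E4} (hx : x ≠ 0) {z Y : V3} (hz : z ≠ 0)
    (h : S.od x z Y = 0) : Y = 0 := by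
  have hap : ∀ w, S.g x Y w • z + S.g x z w • Y = 0 := by
    intro w
    rw [← S.od_apply hx, h, Matrix.zero_mulVec]
  by_contra hY
  have h1 : ∃ w, S.g x z w ≠ 0 := by
    by_contra hc
    push Not at hc
    exact hz (S.g_nondeg hx hc)
  obtain ⟨w, hw⟩ := h1
  have h2 : Y = (-(S.g x Y w) / S.g x z w) • z := by
    have h3 := hap w
    have h4 : S.g x z w • Y = (-(S.g x Y w)) • z := by
      rw [neg_smul]
      exact eq_neg_of_add_eq_zero_right h3
    have h5 : (S.g x z w)⁻¹ • (S.g x z w • Y) = Y := by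
      rw [smul_smul, inv_mul_cancel₀ hw, one_smul]
    rw [h4, smul_smul] at h5
    refine h5.symm.trans ?_
    congr 1
    field_simp
  set c := -(S.g x Y w) / S.g x z w with hc
  have h6 := hap w
  have h7 : S.g x Y w = c * S.g x z w := by
    rw [h2]; unfold Geo.g; rw [GA_bil_smul_left]
  rw [h7] at h6
  have h8 : (2 * (c * S.g x z w)) • z = 0 := by
    have h9 : S.g x z w • Y = (c * S.g x z w) • z := by
      conv_lhs => rw [h2]
      rw [smul_smul, mul_comm]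
    rw [h9, ← two_smul ℝ, smul_smul] at h6
    exact h6
  rcases smul_eq_zero.1 h8 with h9 | h9
  · have : c = 0 := by
      rcases mul_eq_zero.1 h9 with h10 | h10
      · norm_num at h10
      · rcases mul_eq_zero.1 h10 with h11 | h11
        · exact h11
        · exact absurd h11 hw
    rw [this, zero_smul] at h2
    exact hY h2
  · exact hz h9

/-- the limit point -/
theorem A3_final (S : Geo) (hNC : S.NC) (R : Roots S) {x : E4} (hx : x ≠ 0) {z : V3} (hz : z ≠ 0)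
    (hF : A3_F S R x ≠ 0) (hl : S.g x (S.lam x) z = 0)
    (hI : A3_I (S.G x, S.L x, S.Lam x, S.lam x, z, R.τ x)) : False := by
  unfold A3_I at hI
  simp only at hI
  obtain ⟨hzz, hLz, h1, h2, h3, h4⟩ := hI
  have hG := S.symm x hx
  have hFdef : A3_F S R x = (S.L x).trace - 3 * R.τ x := rfl
  rw [hFdef] at hF
  have hR := R.fac x hx
  set τ := R.τ x with hτ
  set F := (S.L x).trace - 3 * τ with hFF
  set A : M3 := S.L x - τ • (1 : M3) with hA
  set N : M3 := F • (1 : M3) - A with hN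
  have hl' : bil (S.G x) (S.lam x) z = 0 := hl
  rw [hl', zero_smul] at h2
  have hNlam : N *ᵥ S.lam x = 0 := A3_od_zero S hx hz h2.symm
  have hRR : RR3 (S.L x) τ τ (τ + F) := A3_RR3 hR hFF hF h1
  have hbne : τ + F ≠ τ := by
    intro h0; apply hF; linarith
  obtain ⟨z', n', e', C, hf, hLz', hLn', hLe'⟩ := LA_double (A3_Lor S hx) (S.selfadj x hx) hRR hbne
    hz hLz (le_of_eq hzz)
  have hAz : A *ᵥ z' = 0 := by
    rw [hA, Matrix.sub_mulVec, Matrix.smul_mulVec, Matrix.one_mulVec, hLz', sub_self]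
  have hAn : A *ᵥ n' = C • z' := by
    rw [hA, Matrix.sub_mulVec, Matrix.smul_mulVec, Matrix.one_mulVec, hLn', add_sub_cancel_left]
  have hAe : A *ᵥ e' = F • e' := by
    rw [hA, Matrix.sub_mulVec, Matrix.smul_mulVec, Matrix.one_mulVec, hLe', ← sub_smul]
    congr 1
    ring
  have hC : C = 0 := by
    have h5 := congrArg (fun M : M3 => M *ᵥ n') h1
    rw [← Matrix.mulVec_mulVec, hAn, Matrix.mulVec_smul, hAz, smul_zero, Matrix.smul_mulVec, hAn,
      smul_smul] at h5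
    rcases smul_eq_zero.1 h5.symm with h6 | h6
    · rcases mul_eq_zero.1 h6 with h7 | h7
      · exact absurd h7 hF
      · exact h7
    · exact absurd h6 (A3_frame_ne hf)
  rw [hC, zero_smul] at hAn
  have hLn : S.L x *ᵥ n' = τ • n' := by rw [hLn', hC, zero_smul, add_zero]
  have hNz : N *ᵥ z' = F • z' := by
    rw [hN, Matrix.sub_mulVec, Matrix.smul_mulVec, Matrix.one_mulVec, hAz, sub_zero]
  have hNn : N *ᵥ n' = F • n' := by
    rw [hN, Matrix.sub_mulVec, Matrix.smul_mulVec, Matrix.one_mulVec, hAn, sub_zero]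
  have hNe : N *ᵥ e' = 0 := by
    rw [hN, Matrix.sub_mulVec, Matrix.smul_mulVec, Matrix.one_mulVec, hAe, sub_self]
  set l := bil (S.G x) (S.lam x) e' with hldef
  have hexp := hf.expand hG (S.lam x)
  set a := bil (S.G x) (S.lam x) n' with ha
  set c := bil (S.G x) (S.lam x) z' with hc
  have hnz : bil (S.G x) n' z' = 1 := by rw [bil_symm hG]; exact hf.zn
  have h5 : (F * a) • z' + (F * c) • n' = 0 := by
    rw [hexp, Matrix.mulVec_add, Matrix.mulVec_add, Matrix.mulVec_smul, Matrix.mulVec_smul,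
      Matrix.mulVec_smul, hNz, hNn, hNe, smul_zero, add_zero, smul_smul, smul_smul] at hNlam
    rw [mul_comm F a, mul_comm F c]
    exact hNlam
  have ha0 : a = 0 := by
    have h6 := congrArg (fun v => bil (S.G x) v n') h5
    rw [GA_bil_add_left, GA_bil_smul_left, GA_bil_smul_left, hf.zn, hf.nn] at h6
    have h7 : F * a = 0 := by
      have : bil (S.G x) 0 n' = 0 := by simp [bil]
      rw [this] at h6
      linarith
    rcases mul_eq_zero.1 h7 with h8 | h8
    · exact absurd h8 hF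
    · exact h8
  have hc0 : c = 0 := by
    have h6 := congrArg (fun v => bil (S.G x) v z') h5
    rw [GA_bil_add_left, GA_bil_smul_left, GA_bil_smul_left, hf.zz, hnz] at h6
    have h7 : F * c = 0 := by
      have : bil (S.G x) 0 z' = 0 := by simp [bil]
      rw [this] at h6
      linarith
    rcases mul_eq_zero.1 h7 with h8 | h8
    · exact absurd h8 hF
    · exact h8
  have hlam : S.lam x = l • e' := by
    rw [hexp, ha0, hc0, zero_smul, zero_smul, zero_add, zero_add]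
  set T := (S.Lam x * N).trace with hT
  have hθ : ∀ v : V3, N *ᵥ v = F • v → S.Lam x *ᵥ v = (T / (2 * F)) • v := by
    intro v hv
    have h6 := congrArg (fun M : M3 => M *ᵥ v) h3
    rw [Matrix.smul_mulVec, ← Matrix.mulVec_mulVec, hv, Matrix.mulVec_smul, Matrix.smul_mulVec, hv,
      smul_smul, smul_smul] at h6
    have h7 : S.Lam x *ᵥ v = (2 * F * F)⁻¹ • ((2 * F * F) • (S.Lam x *ᵥ v)) := by
      rw [smul_smul, inv_mul_cancel₀ (mul_ne_zero (mul_ne_zero two_ne_zero hF) hF), one_smul]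
    rw [h7, h6, smul_smul]
    congr 1
    field_simp
  have h6 : (T / (2 * F)) * (τ + F - τ) = l ^ 2 := by
    have h7 : A *ᵥ S.lam x = (l * F) • e' := by
      rw [hlam, Matrix.mulVec_smul, hAe, smul_smul]
    rw [h7, GA_bil_smul_left] at h4
    have h8 : bil (S.G x) e' (S.lam x) = l := by rw [bil_symm hG]
    rw [h8] at h4
    have h9 : F * (T - 2 * l ^ 2) = 0 := by linear_combination h4
    rcases mul_eq_zero.1 h9 with h10 | h10
    · exact absurd h10 hF
    · field_simp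
      linear_combination F * h10
  exact S.NZ_D hNC hx hf hbne hLz' hLn hLe' hlam (hθ z' hNz) (hθ n' hNn) h6

namespace Geo
variable (S : Geo)

theorem lemma_A (hNC : S.NC) (R : Roots S) {x : E4} (hx : x ≠ 0) {z : V3} (hz : z ≠ 0)
    (hzz : S.g x z z = 0) {μ : ℝ} (hL : S.L x *ᵥ z = μ • z) : S.g x (S.lam x) z = 0 := by
  by_contra hl
  have hμ := A3_tau S R hx hz hzz hL
  rw [hμ] at hL
  obtain ⟨y, w, p, q, hD, hy, hw, hp, hq, hmax⟩ := A3_limit S R ⟨x, z, hx, hz, hzz, hL, hl⟩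
  have hF : A3_F S R p ≠ 0 := by
    obtain ⟨y', w', h1, h2⟩ := A3_move S R (hD 0)
    have h3 := hmax y' w' h1
    have h4 : 0 < |A3_F S R p| := lt_of_le_of_lt (abs_nonneg _) (lt_of_lt_of_le h2 h3)
    exact abs_pos.1 h4
  have hmem : ({0}ᶜ : Set E4) ∈ 𝓝 p := isOpen_compl_singleton.mem_nhds hp
  have hFc : ContinuousAt (A3_F S R) p := (A3_F_cont S R).continuousAt hmem
  have hev : ∀ᶠ k in atTop, A3_I (S.G (y k), S.L (y k), S.Lam (y k), S.lam (y k), w k, R.τ (y k)) := by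
    have h1 : ∀ᶠ k in atTop, A3_F S R (y k) ≠ 0 := (hFc.tendsto.comp hy).eventually_ne hF
    exact h1.mono fun k hk => A3_point S R (hD k) hk
  have hlim : Tendsto (fun k => (S.G (y k), S.L (y k), S.Lam (y k), S.lam (y k), w k, R.τ (y k)))
      atTop (𝓝 (S.G p, S.L p, S.Lam p, S.lam p, q, R.τ p)) := by
    have hG := (S.smG.contDiffAt hp).continuousAt.tendsto.comp hy
    have hL := (S.smL.contDiffAt hp).continuousAt.tendsto.comp hy
    have hLam := (S.sm_Lam.contDiffAt hp).continuousAt.tendsto.comp hy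
    have hlam := (S.smlam.contDiffAt hp).continuousAt.tendsto.comp hy
    have hτ := (R.cτ.continuousAt hmem).tendsto.comp hy
    exact hG.prodMk_nhds (hL.prodMk_nhds (hLam.prodMk_nhds (hlam.prodMk_nhds (hw.prodMk_nhds hτ))))
  have hI : A3_I (S.G p, S.L p, S.Lam p, S.lam p, q, R.τ p) := A3_closed.mem_of_tendsto hlim hev
  have hI' := hI
  unfold A3_I at hI'
  by_cases hl0 : S.g p (S.lam p) q = 0
  · exact A3_final S hNC R hp hq hF hl0 hI
  · obtain ⟨y', w', h1, h2⟩ := A3_move S R (⟨hp, hq, hI'.1, hI'.2.1, hl0⟩ : A3_D S R p q)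
    exact absurd (hmax y' w' h1) (not_le.2 h2)

end Geo

end Pool.Agent.helper68.B2
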