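import Pool.Agent.helper68.B2.Defs3
import Pool.Agent.helper30.B2.LA2

/-! # B2, module b2:FI1: uniqueness and homogeneity of the final vector -/

set_option autoImplicit false

namespace Pool.Agent.helper68.B2

open scoped ContDiff Topology Matrix
open Matrix Set

theorem FI1_Lor (S : Geo) {x : E4} (hx : x ≠ 0) : Lor (S.G x) :=
  ⟨S.symm x hx, S.det_neg x hx, S.pos x hx⟩

theorem FI1_trace {A : M3} {a b c : ℝ} (h : RR3 A a b c) : A.trace = a + b + c := by
  have h0 := h 0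
  have h1 := h 1
  have h2 := h (-1)
  rw [Matrix.det_fin_three] at h0 h1 h2
  simp [Matrix.trace_fin_three] at h0 h1 h2 ⊢
  linear_combination (-1 / 2 : ℝ) * h1 + (-1 / 2 : ℝ) * h2 + h0

/-- the adjugate at the third root -/
theorem FI1_adj {A : M3} {a b r : ℝ} (h : RR3 A a b r) :
    (A - r • (1 : M3)).adjugate = (A - a • (1 : M3)) * (A - b • (1 : M3)) := by
  have ht := FI1_trace h
  have h0 := h 0
  have h1 := h 1
  rw [Matrix.det_fin_three] at h0 h1
  rw [Matrix.trace_fin_three] at ht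
  simp at h0 h1
  have he : A 0 0 * A 1 1 + A 0 0 * A 2 2 + A 1 1 * A 2 2 - A 0 1 * A 1 0 - A 0 2 * A 2 0
      - A 1 2 * A 2 1 = a * b + a * r + b * r := by
    linear_combination h1 - h0 + ht
  rw [Matrix.adjugate_fin_three]
  ext i j
  fin_cases i <;> fin_cases j <;>
    simp [Matrix.mul_apply, Fin.sum_univ_three, Matrix.one_apply]
  · linear_combination he - (A 0 0 + r) * ht
  · linear_combination (-(A 0 1)) * ht
  · linear_combination (-(A 0 2)) * ht
  · linear_combination (-(A 1 0)) * ht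
  · linear_combination he - (A 1 1 + r) * ht
  · linear_combination (-(A 1 2)) * ht
  · linear_combination (-(A 2 0)) * ht
  · linear_combination (-(A 2 1)) * ht
  · linear_combination he - (A 2 2 + r) * ht

theorem FI1_perm {A : M3} {a b c : ℝ} (h : RR3 A a b c) : RR3 A a c b := by
  intro t; rw [h t]; ring

theorem FI1_perm' {A : M3} {a b c : ℝ} (h : RR3 A a b c) : RR3 A b a c := by
  intro t; rw [h t]; ring

/-- the other roots are determined up to order -/
theorem FI1_roots {A : M3} {c r₁ r₂ r₁' r₂' : ℝ} (h : RR3 A c r₁ r₂) (h' : RR3 A c r₁' r₂') :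
    (r₁' = r₁ ∧ r₂' = r₂) ∨ (r₁' = r₂ ∧ r₂' = r₁) := by
  have hs : r₁' + r₂' = r₁ + r₂ := by
    have := FI1_trace h
    have := FI1_trace h'
    linarith
  have hp : r₁' * r₂' = r₁ * r₂ := by
    have e1 := h (c + 1)
    have e2 := h' (c + 1)
    rw [e1] at e2
    linear_combination -e2 + (c + 1) * hs
  have h3 : (r₁' - r₁) * (r₁' - r₂) = 0 := by
    linear_combination r₁' * hs - hp
  rcases mul_eq_zero.1 h3 with h4 | h4
  · left
    constructor
    · linarith
    · linarith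
  · right
    constructor
    · linarith
    · linarith

theorem FI1_det {A : M3} {a b c : ℝ} (h : RR3 A a b c) : (A - a • (1 : M3)).det = 0 :=
  (LA2_trace h).1

variable {S : Geo}

/-- eigenvectors from the adjugate -/
theorem FI1_eig {x : E4} {t : ℝ} (ht : (S.L x - t • (1 : M3)).det = 0) (v : V3) :
    S.L x *ᵥ (S.Ku t x *ᵥ v) = t • (S.Ku t x *ᵥ v) := by
  have h1 : (S.L x - t • (1 : M3)) * S.Ku t x = 0 := by
    unfold Geo.Ku Geo.K
    rw [← Matrix.mul_assoc, Matrix.mul_adjugate, ht, zero_smul, Matrix.zero_mul]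
  have h2 : (S.L x - t • (1 : M3)) *ᵥ (S.Ku t x *ᵥ v) = 0 := by
    rw [Matrix.mulVec_mulVec, h1, Matrix.zero_mulVec]
  rw [Matrix.sub_mulVec, Matrix.smul_mulVec, Matrix.one_mulVec, sub_eq_zero] at h2
  exact h2

namespace FinData
variable (D : FinData S)

theorem FI1_K {x : E4} (hx : x ≠ 0) :
    (S.L x - D.c x • (1 : M3)).adjugate = D.s • vecMulVec (D.Z x) (S.G x *ᵥ D.Z x) :=
  LA2_adj (FI1_Lor S hx) (D.root x hx).2

theorem FI1_LZ {x : E4} (hx : x ≠ 0) : S.L x *ᵥ D.Z x = D.c x • D.Z x := by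
  obtain ⟨r₁, r₂, hr⟩ := D.real x hx
  have h2 := LA2_zero (FI1_Lor S hx) (FI1_det hr) D.hs (D.root x hx).2
  rw [Matrix.sub_mulVec, Matrix.smul_mulVec, Matrix.one_mulVec, sub_eq_zero] at h2
  exact h2

theorem FI1_ZZ {x : E4} (hx : x ≠ 0) {r₁ r₂ : ℝ} (hr : RR3 (S.L x) (D.c x) r₁ r₂) :
    D.s * S.g x (D.Z x) (D.Z x) = (D.c x - r₁) * (D.c x - r₂) := by
  rw [← (LA2_trace hr).2, D.FI1_K hx, Matrix.trace_smul, Matrix.trace_vecMulVec, smul_eq_mul]
  rfl

theorem FI1_LT {x : E4} {t : ℝ} (ht : (S.L x - t • (1 : M3)).det = 0) :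
    S.L x *ᵥ D.T x t = t • D.T x t := by
  unfold FinData.T
  rw [Matrix.mulVec_smul, FI1_eig ht, smul_comm]

theorem FI1_TZ {x : E4} (hx : x ≠ 0) {t : ℝ} (ht : (S.L x - t • (1 : M3)).det = 0)
    (hc : t ≠ D.c x) : S.g x (D.T x t) (D.Z x) = 0 :=
  LA_orth (S.symm x hx) (S.selfadj x hx) hc (D.FI1_LT ht) (D.FI1_LZ hx)

theorem FI1_wZ {x : E4} (hx : x ≠ 0) {t : ℝ} (ht : (S.L x - t • (1 : M3)).det = 0)
    (hc : t ≠ D.c x) : S.g x (D.w x t) (D.Z x) = 0 := by
  unfold FinData.w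
  have h := D.FI1_TZ hx ht hc
  unfold Geo.g at h ⊢
  rw [LA1_smul_left, h, mul_zero]

theorem fin_pair {x : E4} (hx : x ≠ 0) {A : V3} (h : D.IsTh x A) : S.g x A (D.Z x) = 1 := by
  obtain ⟨r₁, r₂, hr, h⟩ := h
  have hd₁ : (S.L x - r₁ • (1 : M3)).det = 0 := FI1_det (FI1_perm' hr)
  have hd₂ : (S.L x - r₂ • (1 : M3)).det = 0 := FI1_det (FI1_perm' (FI1_perm hr))
  rcases h with ⟨h1, h2, h3⟩ | ⟨h1, h2, A₂, h3, h4, h5, h6⟩ | ⟨h1, h2, h3, h4⟩
  · have hzz : S.g x (D.Z x) (D.Z x) ≠ 0 := by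
      intro h0
      have h4 := D.FI1_ZZ hx hr
      rw [h0, mul_zero] at h4
      rcases mul_eq_zero.1 h4.symm with h5 | h5
      · exact h1 (by linarith)
      · exact h2 (by linarith)
    have e1 := D.FI1_wZ hx hd₁ h1
    have e2 := D.FI1_wZ hx hd₂ h2
    unfold Geo.g at e1 e2 hzz ⊢
    rw [h3]
    unfold Geo.g
    rw [LA1_add_left, LA1_add_left, LA1_smul_left, e1, e2, inv_mul_cancel₀ hzz]
    ring
  · have e2 := D.FI1_wZ hx hd₂ h2
    unfold Geo.g at e2 h5 ⊢
    rw [h3, LA1_add_left, h5, e2, add_zero]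
  · exact h4

/-- uniqueness in the double case -/
theorem FI1_double {x : E4} (hx : x ≠ 0) {r : ℝ} (hr : RR3 (S.L x) (D.c x) (D.c x) r)
    (hne : r ≠ D.c x) {A A' : V3} (h1 : (S.L x - r • (1 : M3)).adjugate *ᵥ A = 0)
    (h1' : (S.L x - r • (1 : M3)).adjugate *ᵥ A' = 0) (h2 : S.g x A (D.Z x) = 1)
    (h2' : S.g x A' (D.Z x) = 1) (h3 : S.g x A A = S.g x A' A') : A = A' := by
  have hG := S.symm x hx
  have hss : D.s * D.s = 1 := by rcases D.hs with h | h <;> rw [h] <;> norm_num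
  have hzz : S.g x (D.Z x) (D.Z x) = 0 := by
    have h4 := D.FI1_ZZ hx hr
    rw [sub_self, zero_mul] at h4
    have h5 : D.s * (D.s * S.g x (D.Z x) (D.Z x)) = 0 := by rw [h4, mul_zero]
    rw [← mul_assoc, hss, one_mul] at h5
    exact h5
  obtain ⟨z, n, e, C, hf, hLz, hLn, hLe⟩ := LA_double (FI1_Lor S hx) (S.selfadj x hx) hr hne
    (D.root x hx).1 (D.FI1_LZ hx) (le_of_eq hzz)
  have hz : z ≠ 0 := LA1_z_ne hf
  have he : e ≠ 0 := by
    rintro rfl
    have := hf.ee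
    rw [LA1_zero_left] at this
    norm_num at this
  set c := D.c x with hc
  set N : M3 := S.L x - c • (1 : M3) with hN
  have hNz : N *ᵥ z = 0 := by
    rw [hN, Matrix.sub_mulVec, Matrix.smul_mulVec, Matrix.one_mulVec, hLz, sub_self]
  have hNn : N *ᵥ n = C • z := by
    rw [hN, Matrix.sub_mulVec, Matrix.smul_mulVec, Matrix.one_mulVec, hLn, add_sub_cancel_left]
  have hNe : N *ᵥ e = (r - c) • e := by
    rw [hN, Matrix.sub_mulVec, Matrix.smul_mulVec, Matrix.one_mulVec, hLe, ← sub_smul]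
  have hrc : r - c ≠ 0 := sub_ne_zero.2 hne
  have hadj : (S.L x - r • (1 : M3)).adjugate = N * N := FI1_adj hr
  -- the `e` component vanishes
  have hcomp : ∀ B : V3, (S.L x - r • (1 : M3)).adjugate *ᵥ B = 0 → bil (S.G x) B e = 0 := by
    intro B hB
    obtain ⟨α, β, γ, rfl⟩ := LA1_coord hG hf B
    have h4 : γ = 0 := by
      rw [hadj, ← Matrix.mulVec_mulVec] at hB
      simp only [Matrix.mulVec_add, Matrix.mulVec_smul, hNz, hNn, hNe, smul_zero, zero_add] at hB
      rw [smul_smul, smul_smul] at hB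
      rcases smul_eq_zero.1 hB with h5 | h5
      · rcases mul_eq_zero.1 h5 with h6 | h6
        · rcases mul_eq_zero.1 h6 with h7 | h7
          · exact h7
          · exact absurd h7 hrc
        · exact absurd h6 hrc
      · exact absurd h5 he
    have h5 : e = (0 : ℝ) • z + (0 : ℝ) • n + (1 : ℝ) • e := by simp
    have h6 := LA1_form hG hf α β γ 0 0 1
    rw [← h5] at h6
    rw [h6, h4]; ring
  -- `Z` is a multiple of `z`
  have hC : C ≠ 0 := by
    intro h0
    have h4 : (S.L x - c • (1 : M3)).adjugate = 0 := by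
      have h5 : RR3 (S.L x) c r c := FI1_perm hr
      rw [FI1_adj h5]
      refine hf.ext hG ?_ ?_ ?_
      · rw [← Matrix.mulVec_mulVec, Matrix.zero_mulVec]
        rw [show (S.L x - r • (1 : M3)) *ᵥ z = (c - r) • z by
          rw [Matrix.sub_mulVec, Matrix.smul_mulVec, Matrix.one_mulVec, hLz, ← sub_smul]]
        rw [Matrix.mulVec_smul, ← hN, hNz, smul_zero]
      · rw [← Matrix.mulVec_mulVec, Matrix.zero_mulVec]
        rw [show (S.L x - r • (1 : M3)) *ᵥ n = (c - r) • n by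
          rw [Matrix.sub_mulVec, Matrix.smul_mulVec, Matrix.one_mulVec, hLn, h0, zero_smul, add_zero,
            ← sub_smul]]
        rw [Matrix.mulVec_smul, ← hN, hNn, h0, zero_smul, smul_zero]
      · rw [← Matrix.mulVec_mulVec, Matrix.zero_mulVec]
        rw [show (S.L x - r • (1 : M3)) *ᵥ e = 0 by
          rw [Matrix.sub_mulVec, Matrix.smul_mulVec, Matrix.one_mulVec, hLe, sub_self]]
        rw [Matrix.mulVec_zero]
    have h5 := D.FI1_K hx
    rw [← hc, h4] at h5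
    have h6 := congrArg (fun M : M3 => M *ᵥ (S.G x *ᵥ D.Z x)) h5.symm
    simp only [Matrix.zero_mulVec] at h6
    have hGZ : S.G x *ᵥ D.Z x ≠ 0 := by
      intro h7
      apply (D.root x hx).1
      apply LA1_nondeg (FI1_Lor S hx)
      intro w
      rw [bil_symm hG]
      unfold bil
      rw [h7, dotProduct_zero]
    have hpos : (S.G x *ᵥ D.Z x) ⬝ᵥ (S.G x *ᵥ D.Z x) ≠ 0 := by
      rw [Ne, dotProduct_self_eq_zero]; exact hGZ
    have h8 : (vecMulVec (D.Z x) (S.G x *ᵥ D.Z x)) *ᵥ (S.G x *ᵥ D.Z x) =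
        ((S.G x *ᵥ D.Z x) ⬝ᵥ (S.G x *ᵥ D.Z x)) • D.Z x := by
      ext i
      simp only [Matrix.mulVec, vecMulVec_apply, dotProduct, Fin.sum_univ_three, Pi.smul_apply,
        smul_eq_mul]
      ring
    rw [Matrix.smul_mulVec, h8, smul_smul] at h6
    rcases smul_eq_zero.1 h6 with h9 | h9
    · rcases mul_eq_zero.1 h9 with h10 | h10
      · rw [h10] at hss; norm_num at hss
      · exact hpos h10
    · exact (D.root x hx).1 h9
  have hNZ : N *ᵥ D.Z x = 0 := by
    rw [hN, Matrix.sub_mulVec, Matrix.smul_mulVec, Matrix.one_mulVec, D.FI1_LZ hx, sub_self]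
  obtain ⟨α, β, γ, hZ⟩ := LA1_coord hG hf (D.Z x)
  have hβγ : β = 0 ∧ γ = 0 := by
    rw [hZ] at hNZ
    simp only [Matrix.mulVec_add, Matrix.mulVec_smul, hNz, hNn, hNe, smul_zero, zero_add] at hNZ
    rw [smul_smul, smul_smul] at hNZ
    have e1 : bil (S.G x) n ((β * C) • z + (γ * (r - c)) • e) = 0 := by
      rw [hNZ, LA1_zero_right]
    have e2 : bil (S.G x) e ((β * C) • z + (γ * (r - c)) • e) = 0 := by
      rw [hNZ, LA1_zero_right]
    rw [LA1_add_right, LA1_smul_right, LA1_smul_right, bil_symm hG n z, hf.zn, hf.ne] at e1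
    rw [LA1_add_right, LA1_smul_right, LA1_smul_right, bil_symm hG e z, hf.ze, hf.ee] at e2
    constructor
    · have : β * C = 0 := by linarith
      rcases mul_eq_zero.1 this with h5 | h5
      · exact h5
      · exact absurd h5 hC
    · have : γ * (r - c) = 0 := by linarith
      rcases mul_eq_zero.1 this with h5 | h5
      · exact h5
      · exact absurd h5 hrc
  have hZ' : D.Z x = α • z := by
    rw [hZ, hβγ.1, hβγ.2, zero_smul, zero_smul, add_zero, add_zero]
  have hα : α ≠ 0 := by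
    intro h0
    apply (D.root x hx).1
    rw [hZ', h0, zero_smul]
  -- compare
  have hAe := hcomp A h1
  have hAe' := hcomp A' h1'
  have hA := hf.expand hG A
  have hA' := hf.expand hG A'
  rw [hAe, zero_smul, add_zero] at hA
  rw [hAe', zero_smul, add_zero] at hA'
  set p := bil (S.G x) A n with hp
  set q := bil (S.G x) A z with hq
  set p' := bil (S.G x) A' n with hp'
  set q' := bil (S.G x) A' z with hq'
  have hq1 : α * q = 1 := by
    have h4 := h2
    unfold Geo.g at h4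
    rw [hZ', LA1_smul_right] at h4
    exact h4
  have hq1' : α * q' = 1 := by
    have h4 := h2'
    unfold Geo.g at h4
    rw [hZ', LA1_smul_right] at h4
    exact h4
  have hqq : q = q' := by
    have : α * (q - q') = 0 := by linarith
    rcases mul_eq_zero.1 this with h5 | h5
    · exact absurd h5 hα
    · linarith
  have hq0 : q ≠ 0 := by
    intro h0
    rw [h0, mul_zero] at hq1
    norm_num at hq1
  have hnz : bil (S.G x) n z = 1 := by rw [bil_symm hG]; exact hf.zn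
  have e1 : S.g x A A = 2 * p * q := by
    unfold Geo.g
    rw [hA]
    simp only [LA1_add_left, LA1_add_right, LA1_smul_left, LA1_smul_right, hf.zz, hf.nn, hf.zn, hnz]
    ring
  have e2 : S.g x A' A' = 2 * p' * q' := by
    unfold Geo.g
    rw [hA']
    simp only [LA1_add_left, LA1_add_right, LA1_smul_left, LA1_smul_right, hf.zz, hf.nn, hf.zn, hnz]
    ring
  rw [e1, e2, ← hqq] at h3
  have hpp : p = p' := by
    have : (p - p') * q = 0 := by linarith
    rcases mul_eq_zero.1 this with h5 | h5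
    · linarith
    · exact absurd h5 hq0
  rw [hA, hA', hqq, hpp]

/-- the vector `Z` in a frame -/
theorem FI1_vecMulVec (x : E4) (v : V3) :
    (vecMulVec (D.Z x) (S.G x *ᵥ D.Z x)) *ᵥ v = S.g x v (D.Z x) • D.Z x := by
  ext i
  simp only [Geo.g, bil, Matrix.mulVec, vecMulVec_apply, dotProduct, Fin.sum_univ_three,
    Pi.smul_apply, smul_eq_mul]
  ring

/-- uniqueness in the triple case -/
theorem FI1_triple {x : E4} (hx : x ≠ 0) (hr : RR3 (S.L x) (D.c x) (D.c x) (D.c x))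
    {A A' : V3} (h1 : IsCyc S x A) (h1' : IsCyc S x A') (h2 : S.g x A (D.Z x) = 1)
    (h2' : S.g x A' (D.Z x) = 1) : A = A' := by
  have hG := S.symm x hx
  have hss : D.s * D.s = 1 := by rcases D.hs with h | h <;> rw [h] <;> norm_num
  obtain ⟨z, n, e, C, E, hf, hLz, hLe, hLn⟩ := LA_triple (FI1_Lor S hx) (S.selfadj x hx) hr
  have hz : z ≠ 0 := LA1_z_ne hf
  set c := D.c x with hc
  set N : M3 := S.L x - c • (1 : M3) with hN
  have hLN : ∀ v : V3, S.L x *ᵥ v = c • v + N *ᵥ v := by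
    intro v
    rw [hN, Matrix.sub_mulVec, Matrix.smul_mulVec, Matrix.one_mulVec]
    abel
  have hNz : N *ᵥ z = 0 := by
    rw [hN, Matrix.sub_mulVec, Matrix.smul_mulVec, Matrix.one_mulVec, hLz, sub_self]
  have hNe : N *ᵥ e = E • z := by
    rw [hN, Matrix.sub_mulVec, Matrix.smul_mulVec, Matrix.one_mulVec, hLe, add_sub_cancel_left]
  have hNn : N *ᵥ n = C • z + E • e := by
    rw [hN, Matrix.sub_mulVec, Matrix.smul_mulVec, Matrix.one_mulVec, hLn, add_assoc,
      add_sub_cancel_left]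
  have hadj : (S.L x - c • (1 : M3)).adjugate = N * N := FI1_adj hr
  have hnz : bil (S.G x) n z = 1 := by rw [bil_symm hG]; exact hf.zn
  have hen : bil (S.G x) e n = 0 := by rw [bil_symm hG]; exact hf.ne
  have hez : bil (S.G x) e z = 0 := by rw [bil_symm hG]; exact hf.ze
  -- `N N v` for a general vector
  have hNv : ∀ p q r : ℝ, N *ᵥ (p • z + q • n + r • e) = (q * C + r * E) • z + (q * E) • e := by
    intro p q r
    rw [Matrix.mulVec_add, Matrix.mulVec_add, Matrix.mulVec_smul, Matrix.mulVec_smul,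
      Matrix.mulVec_smul, hNz, hNn, hNe]
    module
  have hNNv : ∀ p q r : ℝ, N *ᵥ (N *ᵥ (p • z + q • n + r • e)) = (q * E ^ 2) • z := by
    intro p q r
    rw [hNv, Matrix.mulVec_add, Matrix.mulVec_smul, Matrix.mulVec_smul, hNz, hNe]
    module
  have hK := D.FI1_K hx
  rw [← hc, hadj] at hK
  -- `Z` is a multiple of `z`
  obtain ⟨α, hZ⟩ : ∃ α : ℝ, D.Z x = α • z := by
    have h3 : ∃ v, S.g x v (D.Z x) ≠ 0 := ⟨A, by rw [h2]; norm_num⟩
    obtain ⟨v, hv⟩ := h3
    obtain ⟨p, q, r, hpqr⟩ := LA1_coord hG hf v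
    have h4 := congrArg (fun M : M3 => M *ᵥ v) hK
    rw [← Matrix.mulVec_mulVec, Matrix.smul_mulVec, D.FI1_vecMulVec] at h4
    rw [hpqr, hNNv, ← hpqr, smul_smul] at h4
    have hsv : D.s * S.g x v (D.Z x) ≠ 0 := by
      apply mul_ne_zero _ hv
      intro h0; rw [h0] at hss; norm_num at hss
    refine ⟨(D.s * S.g x v (D.Z x))⁻¹ * (q * E ^ 2), ?_⟩
    rw [mul_smul, h4, smul_smul, inv_mul_cancel₀ hsv, one_smul]
  have hα : α ≠ 0 := by
    intro h0
    apply (D.root x hx).1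
    rw [hZ, h0, zero_smul]
  have key : ∀ B : V3, IsCyc S x B → S.g x B (D.Z x) = 1 →
      ∃ p q r : ℝ, B = p • z + q • n + r • e ∧ α * q = 1 ∧ 2 * p * q + r ^ 2 = 0 ∧
        q ^ 2 * C + 2 * q * r * E = 0 ∧ q ^ 2 * E ^ 2 = 1 := by
    intro B hB hBZ
    obtain ⟨p, q, r, hpqr⟩ := LA1_coord hG hf B
    have e1 : bil (S.G x) B B = 2 * p * q + r ^ 2 := by
      rw [hpqr]
      have := LA1_form hG hf p q r p q r
      rw [this]; ring
    have hBB : 2 * p * q + r ^ 2 = 0 := by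
      rw [← e1]; exact hB.aa
    have e2 : bil (S.G x) (N *ᵥ B) B = q ^ 2 * C + 2 * q * r * E := by
      rw [hpqr, hNv]
      have := LA1_form hG hf (q * C + r * E) 0 (q * E) p q r
      rw [zero_smul, add_zero] at this
      rw [this]; ring
    have e3 : bil (S.G x) (N *ᵥ (N *ᵥ B)) B = q ^ 2 * E ^ 2 := by
      rw [hpqr, hNNv]
      have := LA1_form hG hf (q * E ^ 2) 0 0 p q r
      rw [zero_smul, zero_smul, add_zero, add_zero] at this
      rw [this]; ring
    have h3 : q ^ 2 * C + 2 * q * r * E = 0 := by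
      have h4 : bil (S.G x) (S.L x *ᵥ B) B = 0 := hB.la
      rw [hLN, LA1_add_left, LA1_smul_left, e1, e2, hBB] at h4
      linarith
    have h5 : q ^ 2 * E ^ 2 = 1 := by
      have h4 : bil (S.G x) (S.L x *ᵥ (S.L x *ᵥ B)) B = 1 := hB.lla
      rw [hLN (S.L x *ᵥ B), hLN B, Matrix.mulVec_add, Matrix.mulVec_smul, smul_add] at h4
      simp only [LA1_add_left, LA1_smul_left] at h4
      rw [e1, e2, e3, hBB, h3] at h4
      linarith
    refine ⟨p, q, r, hpqr, ?_, hBB, h3, h5⟩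
    have h4 : bil (S.G x) B (D.Z x) = 1 := hBZ
    rw [hZ, hpqr, LA1_smul_right] at h4
    simp only [LA1_add_left, LA1_smul_left, hf.zz, hnz, hez] at h4
    linarith
  obtain ⟨p, q, r, e1, e2, e3, e4, e5⟩ := key A h1 h2
  obtain ⟨p', q', r', e1', e2', e3', e4', e5'⟩ := key A' h1' h2'
  have hq : q = q' := by
    have : α * (q - q') = 0 := by linarith
    rcases mul_eq_zero.1 this with h5 | h5
    · exact absurd h5 hα
    · linarith
  have hq0 : q ≠ 0 := by
    intro h0; rw [h0] at e5; norm_num at e5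
  have hE0 : E ≠ 0 := by
    intro h0; rw [h0] at e5; norm_num at e5
  rw [← hq] at e3' e4'
  have hrr : r = r' := by
    have : 2 * q * E * (r - r') = 0 := by linarith
    rcases mul_eq_zero.1 this with h5 | h5
    · exact absurd h5 (mul_ne_zero (mul_ne_zero two_ne_zero hq0) hE0)
    · linarith
  have hpp : p = p' := by
    rw [← hrr] at e3'
    have : 2 * q * (p - p') = 0 := by linarith
    rcases mul_eq_zero.1 this with h5 | h5
    · exact absurd h5 (mul_ne_zero two_ne_zero hq0)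
    · linarith
  rw [e1, e1', hq, hrr, hpp]

theorem fin_unique {x : E4} (hx : x ≠ 0) {A A' : V3} (h : D.IsTh x A) (h' : D.IsTh x A') :
    A = A' := by
  obtain ⟨r₁, r₂, hr, h⟩ := h
  obtain ⟨r₁', r₂', hr', h'⟩ := h'
  rcases FI1_roots hr hr' with ⟨e1, e2⟩ | ⟨e1, e2⟩
  · subst e1 e2
    rcases h with ⟨h1, h2, h3⟩ | ⟨h1, h2, A₂, h3, h4, h5, h6⟩ | ⟨h1, h2, h3, h4⟩
    · rcases h' with ⟨g1, g2, g3⟩ | ⟨g1, g2, B₂, g3, g4, g5, g6⟩ | ⟨g1, g2, g3, g4⟩
      · rw [h3, g3]
      · exact absurd g1 h1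
      · exact absurd g1 h1
    · rcases h' with ⟨g1, g2, g3⟩ | ⟨g1, g2, B₂, g3, g4, g5, g6⟩ | ⟨g1, g2, g3, g4⟩
      · exact absurd h1 g1
      · rw [h1] at hr
        rw [h3, g3, D.FI1_double hx hr h2 h4 g4 h5 g5 (by rw [h6, g6])]
      · exact absurd g2 h2
    · rcases h' with ⟨g1, g2, g3⟩ | ⟨g1, g2, B₂, g3, g4, g5, g6⟩ | ⟨g1, g2, g3, g4⟩
      · exact absurd h1 g1
      · exact absurd h2 g2
      · rw [h1, h2] at hr
        exact D.FI1_triple hx hr h3 g3 h4 g4
  · subst e1 e2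
    rcases h with ⟨h1, h2, h3⟩ | ⟨h1, h2, A₂, h3, h4, h5, h6⟩ | ⟨h1, h2, h3, h4⟩
    · rcases h' with ⟨g1, g2, g3⟩ | ⟨g1, g2, B₂, g3, g4, g5, g6⟩ | ⟨g1, g2, g3, g4⟩
      · rw [h3, g3]; abel
      · exact absurd g1 h2
      · exact absurd g1 h2
    · rcases h' with ⟨g1, g2, g3⟩ | ⟨g1, g2, B₂, g3, g4, g5, g6⟩ | ⟨g1, g2, g3, g4⟩
      · exact absurd h1 g2
      · exact absurd g1 h2
      · exact absurd g1 h2
    · rcases h' with ⟨g1, g2, g3⟩ | ⟨g1, g2, B₂, g3, g4, g5, g6⟩ | ⟨g1, g2, g3, g4⟩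
      · exact absurd h1 g2
      · exact absurd h1 g2
      · rw [h1, h2] at hr
        exact D.FI1_triple hx hr h3 g3 h4 g4

theorem FI1_T_hom (x : E4) (r : ℝ) {t : ℝ} (ht : 0 < t) : D.T (t • x) r = D.T x r := by
  unfold FinData.T Geo.Ku Geo.K
  rw [D.hZ t ht x, S.homL t ht x, S.homG t ht x]

theorem FI1_w_hom (x : E4) (r : ℝ) {t : ℝ} (ht : 0 < t) : D.w (t • x) r = D.w x r := by
  unfold FinData.w Geo.g
  rw [D.FI1_T_hom x r ht, D.hc t ht x, S.homG t ht x]

theorem fin_hom {x : E4} (hx : x ≠ 0) {A : V3} (h : D.IsTh x A) {t : ℝ} (ht : 0 < t) :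
    D.IsTh (t • x) A := by
  obtain ⟨r₁, r₂, hr, h⟩ := h
  refine ⟨r₁, r₂, ?_, ?_⟩
  · rw [S.homL t ht x, D.hc t ht x]; exact hr
  · unfold Geo.g at h ⊢
    rw [D.FI1_w_hom x r₁ ht, D.FI1_w_hom x r₂ ht, D.hc t ht x, D.hZ t ht x, S.homG t ht x,
      S.homL t ht x]
    rcases h with h | h | ⟨h1, h2, h3, h4⟩
    · exact Or.inl h
    · exact Or.inr (Or.inl h)
    · refine Or.inr (Or.inr ⟨h1, h2, ⟨?_, ?_, ?_⟩, h4⟩)
      · unfold Geo.g; rw [S.homG t ht x]; exact h3.aa
      · unfold Geo.g; rw [S.homG t ht x, S.homL t ht x]; exact h3.la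
      · unfold Geo.g; rw [S.homG t ht x, S.homL t ht x]; exact h3.lla

end FinData

end Pool.Agent.helper68.B2
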