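import Pool.Agent.helper71.B2.FIc

/-! # B2, module b2:FI2: the final form near a point where `c` is simple -/

set_option autoImplicit false

namespace Pool.Agent.helper68.B2

open scoped ContDiff Topology Matrix
open Matrix Set

variable {S : Geo}

namespace FinData
variable (D : FinData S)

/-- the part `Z / g (Z, Z)` -/
theorem FI2_Z {W : Set E4} (hR : IsRoot S W D.c D.s D.Z) {y : E4} (hy : y ∈ W) :
    ContDiffAt ℝ ∞ (fun u => (S.g u (D.Z u) (D.Z u))⁻¹ • D.Z u) y ∧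
    ContDiffAt ℝ ∞ (fun u => S.G u *ᵥ ((S.g u (D.Z u) (D.Z u))⁻¹ • D.Z u)) y ∧
    ClosedF (fun u => S.G u *ᵥ ((S.g u (D.Z u) (D.Z u))⁻¹ • D.Z u)) y := by
  have hG : ContDiffAt ℝ ∞ S.G y := S.smG.contDiffAt (FIc_ne hR.cone hy)
  have hT : ContDiffAt ℝ ∞ D.Z y := hR.smT.contDiffAt (hR.cone.isOpen.mem_nhds hy)
  have hgT : ContDiffAt ℝ ∞ (fun u => S.g u (D.Z u) (D.Z u)) y := contDiffAt_bil hG hT hT
  have hne := (T3_eig S hR hy 0).2.2.1
  obtain ⟨h1, h2⟩ := FIc_closed_root hR hy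
  have he : (fun u => (S.g u (D.Z u) (D.Z u))⁻¹ • (S.G u *ᵥ D.Z u)) =
      (fun u => S.G u *ᵥ ((S.g u (D.Z u) (D.Z u))⁻¹ • D.Z u)) := by
    funext u
    rw [Matrix.mulVec_smul]
  rw [he] at h1 h2
  exact ⟨(hgT.inv hne).smul hT, h1, h2⟩

/-- FI2: near a point where `c` is simple -/
theorem fin_simple {x : E4} (hx : x ≠ 0)
    (h : (S.L x - D.c x • (1 : M3)).adjugate.trace ≠ 0) :
    ∃ (W : Set E4) (A : E4 → V3), IsOpen W ∧ x ∈ W ∧ ContDiffOn ℝ ∞ A W ∧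
      ∀ y ∈ W, D.IsTh y (A y) ∧ ClosedF (fun u => S.G u *ᵥ A u) y := by
  obtain ⟨r₁, r₂, hr⟩ := D.real x hx
  have htr := (LA2_trace hr).2
  have hr₁ : r₁ ≠ D.c x := by
    rintro rfl
    rw [htr, sub_self, zero_mul] at h
    exact h rfl
  have hr₂ : r₂ ≠ D.c x := by
    rintro rfl
    rw [htr, sub_self, mul_zero] at h
    exact h rfl
  have h3 : (S.L x - D.c x • (1 : M3)) ^ 3 ≠ 0 := fun h0 => hr₁ (FIc_nil hr h0).1
  obtain ⟨W₀, hW₀, hxW₀, hc₀, hR₀⟩ := D.FIc_root_Z hx h h3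
  by_cases h12 : r₁ = r₂
  · -- the other root is double, far from `c`
    subst h12
    have hsep : D.ε ≤ |r₁ - D.c x| := by
      refine D.sep x hx r₁ (FI1_det (FI1_perm' hr)) ?_ hr₁
      rw [(LA2_trace (FI1_perm' hr)).2, sub_self, mul_zero]
    set d := r₁ - D.c x with hd
    -- a function measuring the distance of the other roots from `r₁`
    set f : E4 → ℝ := fun y => ((S.L y).trace - 3 * D.c x) ^ 2
      - 2 * (S.L y - D.c x • (1 : M3)).adjugate.trace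
      - 2 * d * ((S.L y).trace - 3 * D.c x) + 2 * d ^ 2 with hf
    have hfh : Hom f := by
      intro t ht y
      simp only [hf]
      rw [S.homL t ht y]
    have hfc : ContinuousOn f W₀ := by
      intro y hy
      have h1 : ContDiffAt ℝ ∞ S.L y := S.smL.contDiffAt (FIc_ne hW₀ hy)
      have h2 := (contDiffAt_trace (contDiffAt_adjugate (h1.sub
        (contDiffAt_const (c := D.c x • (1 : M3)))))).continuousAt
      have h4 := (contDiffAt_trace h1).continuousAt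
      exact ContinuousAt.continuousWithinAt ((((h4.sub continuousAt_const).pow 2).sub
        (continuousAt_const.mul h2)).sub (continuousAt_const.mul (h4.sub continuousAt_const))
        |>.add continuousAt_const)
    have hI : IsOpen (Iio ((D.ε / 2) ^ 2)) := isOpen_Iio
    have hW := FIc_cone_pre hW₀ hfh hfc hI
    set W := W₀ ∩ f ⁻¹' (Iio ((D.ε / 2) ^ 2)) with hWdef
    have hfx : f x = 0 := by
      simp only [hf]
      rw [htr, FI1_trace hr, hd]
      ring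
    have hRW : ∀ y ∈ W, ∀ q₁ q₂ : ℝ, RR3 (S.L y) (D.c y) q₁ q₂ →
        (D.ε / 2 < |q₁ - D.c y|) ∧ (D.ε / 2 < |q₂ - D.c y|) := by
      intro y hy q₁ q₂ hq
      have h5 : f y < (D.ε / 2) ^ 2 := hy.2
      have h6 : f y = (q₁ - D.c x - d) ^ 2 + (q₂ - D.c x - d) ^ 2 := by
        simp only [hf]
        have h7 := (LA2_trace hq).2
        rw [hc₀ y hy.1] at h7 hq
        rw [h7, FI1_trace hq]
        ring
      have hε := D.hε
      have key : ∀ q : ℝ, (q - D.c x - d) ^ 2 < (D.ε / 2) ^ 2 → D.ε / 2 < |q - D.c x| := by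
        intro q hq
        have h8 := abs_lt_of_sq_lt_sq hq (by linarith)
        have h9 : |d| - |q - D.c x| ≤ |d - (q - D.c x)| := abs_sub_abs_le_abs_sub _ _
        rw [abs_sub_comm d (q - D.c x)] at h9
        linarith
      rw [hc₀ y hy.1]
      exact ⟨key q₁ (by nlinarith [sq_nonneg (q₂ - D.c x - d)]),
        key q₂ (by nlinarith [sq_nonneg (q₁ - D.c x - d)])⟩
    refine ⟨W, fun u => (S.g u (D.Z u) (D.Z u))⁻¹ • D.Z u, hW.isOpen, ⟨hxW₀, ?_⟩, ?_, ?_⟩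
    · change f x < (D.ε / 2) ^ 2
      rw [hfx]
      have := D.hε
      positivity
    · intro y hy
      exact (D.FI2_Z hR₀ hy.1).1.contDiffWithinAt
    · intro y hy
      refine ⟨?_, (D.FI2_Z hR₀ hy.1).2.2⟩
      obtain ⟨q₁, q₂, hq⟩ := D.real y (FIc_ne hW hy)
      obtain ⟨e1, e2⟩ := hRW y hy q₁ q₂ hq
      have hε := D.hε
      refine ⟨q₁, q₂, hq, Or.inl ⟨?_, ?_, ?_⟩⟩
      · rintro rfl
        rw [sub_self, abs_zero] at e1
        linarith
      · rintro rfl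
        rw [sub_self, abs_zero] at e2
        linarith
      · unfold FinData.w
        rw [D.a_zero _ e1.le, D.a_zero _ e2.le, zero_div, zero_div, zero_smul, zero_smul, add_zero,
          add_zero]
  · -- three distinct roots
    have hs₁ : (S.L x - r₁ • (1 : M3)).adjugate.trace ≠ 0 := by
      rw [(LA2_trace (FI1_perm' hr)).2]
      exact mul_ne_zero (sub_ne_zero.2 hr₁) (sub_ne_zero.2 h12)
    have hs₂ : (S.L x - r₂ • (1 : M3)).adjugate.trace ≠ 0 := by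
      rw [(LA2_trace (FI1_perm' (FI1_perm hr))).2]
      exact mul_ne_zero (sub_ne_zero.2 hr₂) (sub_ne_zero.2 (Ne.symm h12))
    obtain ⟨W₁, μ₁, hW₁, hxW₁, hμ₁, hμx₁, hμs₁, hroot₁, hws₁, hwc₁⟩ :=
      D.FIc_branch hx h3 (FI1_det (FI1_perm' hr)) hs₁ hr₁
    obtain ⟨W₂, μ₂, hW₂, hxW₂, hμ₂, hμx₂, hμs₂, hroot₂, hws₂, hwc₂⟩ :=
      D.FIc_branch hx h3 (FI1_det (FI1_perm' (FI1_perm hr))) hs₂ hr₂
    have hW₃ := FIc_cone_inter hW₀ (FIc_cone_inter hW₁ hW₂)
    have hf : Hom (fun y => μ₁ y - μ₂ y) := by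
      intro t ht y
      simp only
      rw [hμ₁ t ht y, hμ₂ t ht y]
    have hfc : ContinuousOn (fun y => μ₁ y - μ₂ y) (W₀ ∩ (W₁ ∩ W₂)) :=
      (hμs₁.continuousOn.mono fun y hy => hy.2.1).sub (hμs₂.continuousOn.mono fun y hy => hy.2.2)
    have hW := FIc_cone_pre hW₃ hf hfc (isOpen_compl_singleton (x := (0 : ℝ)))
    refine ⟨_, fun u => (S.g u (D.Z u) (D.Z u))⁻¹ • D.Z u + D.w u (μ₁ u) + D.w u (μ₂ u), hW.isOpen,
      ⟨⟨hxW₀, hxW₁, hxW₂⟩, ?_⟩, ?_, ?_⟩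
    · change μ₁ x - μ₂ x ≠ 0
      rw [hμx₁, hμx₂]
      exact sub_ne_zero.2 h12
    · intro y hy
      exact (((D.FI2_Z hR₀ hy.1.1).1.add (hws₁.contDiffAt (hW₁.isOpen.mem_nhds hy.1.2.1))).add
        (hws₂.contDiffAt (hW₂.isOpen.mem_nhds hy.1.2.2))).contDiffWithinAt
    · intro y hy
      have hy0 := FIc_ne hW hy
      constructor
      · obtain ⟨q₁, q₂, hq⟩ := D.real y hy0
        have hne : μ₁ y ≠ μ₂ y := fun h0 => hy.2 (sub_eq_zero.2 h0)
        have hrr := FIc_two hq (hroot₁ y hy.1.2.1).1 (hroot₂ y hy.1.2.2).1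
          (hroot₁ y hy.1.2.1).2.2.1 (hroot₂ y hy.1.2.2).2.2.1 hne
        exact ⟨_, _, hrr, Or.inl ⟨(hroot₁ y hy.1.2.1).2.2.1, (hroot₂ y hy.1.2.2).2.2.1, rfl⟩⟩
      · have hG : ContDiffAt ℝ ∞ S.G y := S.smG.contDiffAt hy0
        have hZ := D.FI2_Z hR₀ hy.1.1
        have hw₁ : ContDiffAt ℝ ∞ (fun u => S.G u *ᵥ D.w u (μ₁ u)) y :=
          contDiffAt_mulVec hG (hws₁.contDiffAt (hW₁.isOpen.mem_nhds hy.1.2.1))
        have hw₂ : ContDiffAt ℝ ∞ (fun u => S.G u *ᵥ D.w u (μ₂ u)) y :=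
          contDiffAt_mulVec hG (hws₂.contDiffAt (hW₂.isOpen.mem_nhds hy.1.2.2))
        have hc1 := FIc_closed_add (hZ.2.1.differentiableAt (by simp)) (hw₁.differentiableAt (by simp))
          hZ.2.2 (hwc₁ y hy.1.2.1)
        have hc2 := FIc_closed_add ((hZ.2.1.add hw₁).differentiableAt (by simp))
          (hw₂.differentiableAt (by simp)) hc1 (hwc₂ y hy.1.2.2)
        have he : (fun u => S.G u *ᵥ ((S.g u (D.Z u) (D.Z u))⁻¹ • D.Z u + D.w u (μ₁ u)
            + D.w u (μ₂ u))) = fun u => S.G u *ᵥ ((S.g u (D.Z u) (D.Z u))⁻¹ • D.Z u)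
            + S.G u *ᵥ D.w u (μ₁ u) + S.G u *ᵥ D.w u (μ₂ u) := by
          funext u
          rw [Matrix.mulVec_add, Matrix.mulVec_add]
        rw [he]
        exact hc2

end FinData

end Pool.Agent.helper68.B2
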