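import Mathlib
import Pool.Agent.helper25.B2.Sol
import Pool.Agent.helper25.B2.Block

/-! # MP_b2b189_gt (S13780): modules BF and BG (the closed form near a Jordan point) -/

set_option autoImplicit false

namespace Pool.Agent.helper25.B2

open Set Filter Topology Asymptotics

namespace Block

variable {E : Type*} [NormedAddCommGroup E] [NormedSpace ℝ E]

/-- The closed form `θ₁ + θ₂` near a Jordan point, `r = l - s`, `R₀ = √(r² - ab)`, `G = √(r + R₀)`. -/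
noncomputable def β (B : Block E) (x : E) : E →L[ℝ] ℝ :=
  (B.a x / (Real.sqrt |B.a x| * (Real.sqrt 2 * Real.sqrt ((B.l x - B.s x) ^ 2 - B.a x * B.b x) *
      Real.sqrt (B.l x - B.s x + Real.sqrt ((B.l x - B.s x) ^ 2 - B.a x * B.b x))))) • B.cm x +
  (Real.sqrt (B.l x - B.s x + Real.sqrt ((B.l x - B.s x) ^ 2 - B.a x * B.b x)) /
      (Real.sqrt 2 * Real.sqrt ((B.l x - B.s x) ^ 2 - B.a x * B.b x) * Real.sqrt |B.a x|)) • B.cp x

/-- the algebraic identity behind `dβ = 0` -/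
theorem BF_alg (a b u v k r R P1 P2 M1 M2 E1 E2 O1 O2 r1 r2 R1 R2 Z1 Z2 Y1 Y2 : ℝ)
    (ha : a ≠ 0) (hR : R ≠ 0) (hrR : r + R ≠ 0) (hRR : R ^ 2 = r ^ 2 - a * b)
    (hr1 : r1 = 2 * k * E1 - (u * M1 + v * P1)) (hr2 : r2 = 2 * k * E2 - (u * M2 + v * P2))
    (hR1 : R1 = (r * r1 - a * v * M1 - b * u * P1) / R)
    (hR2 : R2 = (r * r2 - a * v * M2 - b * u * P2) / R)
    (hZ1 : Z1 = R1 / R + (r1 + R1) / (2 * (r + R)))
    (hZ2 : Z2 = R2 / R + (r2 + R2) / (2 * (r + R)))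
    (hY1 : Y1 = (r1 + R1) / (2 * (r + R)) - R1 / R)
    (hY2 : Y2 = (r2 + R2) / (2 * (r + R)) - R2 / R) :
    (-a * O1 + u * P1 - a * Z1) * M2 - (-a * O2 + u * P2 - a * Z2) * M1 +
      a * ((O1 * M2 - O2 * M1) - k / R ^ 2 * ((r * M1 + b * P1) * E2 - (r * M2 + b * P2) * E1)) +
      (r + R) * ((Y1 + O1) * P2 - (Y2 + O2) * P1) +
      (r + R) * (-(O1 * P2 - O2 * P1) -
        k / R ^ 2 * ((r * P1 + a * M1) * E2 - (r * P2 + a * M2) * E1)) = 0 := by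
  have hb : b = (r ^ 2 - R ^ 2) / a := by
    field_simp
    linarith
  subst hZ1 hZ2 hY1 hY2 hR1 hR2 hr1 hr2 hb
  field_simp
  ring


/-- positivity facts -/
theorem BF_pos (B : Block E) {x : E} (hx : x ∈ B.W) (hl : B.s x < B.l x) :
    0 < (B.l x - B.s x) ^ 2 - B.a x * B.b x ∧
    0 < Real.sqrt ((B.l x - B.s x) ^ 2 - B.a x * B.b x) ∧
    0 < B.l x - B.s x + Real.sqrt ((B.l x - B.s x) ^ 2 - B.a x * B.b x) := by
  have h1 := B.P_pos x hx
  have h2 := Real.sqrt_pos.2 h1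
  exact ⟨h1, h2, by linarith⟩

theorem BF_contDiff (B : Block E) {x : E} (hx : x ∈ B.W) (ha : B.a x ≠ 0) (hl : B.s x < B.l x) :
    ContDiffAt ℝ (⊤ : ℕ∞) B.β x := by
  obtain ⟨h1, h2, h3⟩ := BF_pos B hx hl
  have hal : ContDiffAt ℝ (⊤ : ℕ∞) (fun y => Real.sqrt |B.a y|) x :=
    ContDiffAt.sqrt ((contDiffAt_abs ha).comp x (B.smooth_a x hx)) (abs_pos.2 ha).ne'
  have hr : ContDiffAt ℝ (⊤ : ℕ∞) (fun y => B.l y - B.s y) x :=
    (B.smooth_l x hx).sub (B.smooth_s x hx)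
  have hR : ContDiffAt ℝ (⊤ : ℕ∞) (fun y => Real.sqrt ((B.l y - B.s y) ^ 2 - B.a y * B.b y)) x :=
    ContDiffAt.sqrt ((hr.pow 2).sub ((B.smooth_a x hx).mul (B.smooth_b x hx))) h1.ne'
  have hG : ContDiffAt ℝ (⊤ : ℕ∞) (fun y => Real.sqrt (B.l y - B.s y +
      Real.sqrt ((B.l y - B.s y) ^ 2 - B.a y * B.b y))) x :=
    ContDiffAt.sqrt (hr.add hR) h3.ne'
  have hal0 : Real.sqrt |B.a x| ≠ 0 := (Real.sqrt_pos.2 (abs_pos.2 ha)).ne'
  have hG0 : Real.sqrt (B.l x - B.s x + Real.sqrt ((B.l x - B.s x) ^ 2 - B.a x * B.b x)) ≠ 0 :=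
    (Real.sqrt_pos.2 h3).ne'
  have h20 : Real.sqrt 2 ≠ 0 := (Real.sqrt_pos.2 (by norm_num)).ne'
  have e1 := ContDiffAt.div (B.smooth_a x hx) (hal.mul ((contDiffAt_const (c := Real.sqrt 2)).mul hR |>.mul hG))
      (mul_ne_zero hal0 (mul_ne_zero (mul_ne_zero h20 h2.ne') hG0))
  have e2 := ContDiffAt.div hG (((contDiffAt_const (c := Real.sqrt 2)).mul hR).mul hal)
      (mul_ne_zero (mul_ne_zero h20 h2.ne') hal0)
  exact (e1.smul (B.smooth_cm x hx)).add (e2.smul (B.smooth_cp x hx))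

theorem BF_line {F : Type*} [NormedAddCommGroup F] [NormedSpace ℝ F] {f : E → F} {x : E}
    (hf : ContDiffAt ℝ (⊤ : ℕ∞) f x) (w : E) :
    HasDerivAt (fun t : ℝ => f (x + t • w)) (fderiv ℝ f x w) 0 := by
  have h1 : HasFDerivAt f (fderiv ℝ f x) (x + (0 : ℝ) • w) := by
    rw [zero_smul, add_zero]
    exact (hf.differentiableAt (by simp)).hasFDerivAt
  have h2 : HasDerivAt (fun t : ℝ => x + t • w) w 0 := by
    simpa using ((hasDerivAt_id (0 : ℝ)).smul_const w).const_add x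
  exact h1.comp_hasDerivAt 0 h2

theorem BF_line_apply {f : E → E →L[ℝ] ℝ} {x : E} (hf : ContDiffAt ℝ (⊤ : ℕ∞) f x) (w w' : E) :
    HasDerivAt (fun t : ℝ => f (x + t • w) w') (fderiv ℝ f x w w') 0 := by
  have h := BF_line hf w
  exact ((ContinuousLinearMap.apply ℝ ℝ w').hasFDerivAt.comp_hasDerivAt 0 h)

/-- one-variable computation -/
theorem BF_oneVar {A D L S M P : ℝ → ℝ} {a1 d1 l1 s1 m1 p1 : ℝ} (hA : HasDerivAt A a1 0)
    (hD : HasDerivAt D d1 0) (hL : HasDerivAt L l1 0) (hS : HasDerivAt S s1 0)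
    (hM : HasDerivAt M m1 0) (hP : HasDerivAt P p1 0) (hA0 : A 0 ≠ 0)
    (hpos : 0 < (L 0 - S 0) ^ 2 - A 0 * D 0) (hls : S 0 < L 0)
    {r R G α r1 R1 Y1 Z1 : ℝ} (hr : r = L 0 - S 0) (hR : R = Real.sqrt ((L 0 - S 0) ^ 2 - A 0 * D 0))
    (hG : G = Real.sqrt (L 0 - S 0 + Real.sqrt ((L 0 - S 0) ^ 2 - A 0 * D 0)))
    (hα : α = Real.sqrt |A 0|) (hr1 : r1 = l1 - s1)
    (hR1 : R1 = (2 * r * r1 - (A 0 * d1 + D 0 * a1)) / (2 * R))
    (hY1 : Y1 = (r1 + R1) / (2 * (r + R)) - R1 / R)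
    (hZ1 : Z1 = R1 / R + (r1 + R1) / (2 * (r + R))) :
    HasDerivAt (fun t => (A t / (Real.sqrt |A t| * (Real.sqrt 2 *
        Real.sqrt ((L t - S t) ^ 2 - A t * D t) *
        Real.sqrt (L t - S t + Real.sqrt ((L t - S t) ^ 2 - A t * D t))))) * M t +
      (Real.sqrt (L t - S t + Real.sqrt ((L t - S t) ^ 2 - A t * D t)) /
        (Real.sqrt 2 * Real.sqrt ((L t - S t) ^ 2 - A t * D t) * Real.sqrt |A t|)) * P t)
      ((1 / (Real.sqrt 2 * R * G * α)) * ((a1 / 2 - A 0 * Z1) * M 0 + A 0 * m1 +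
        ((r + R) * (Y1 - a1 / (2 * A 0))) * P 0 + (r + R) * p1)) 0 := by
  have h2 : 0 < Real.sqrt ((L 0 - S 0) ^ 2 - A 0 * D 0) := Real.sqrt_pos.2 hpos
  have h3 : 0 < L 0 - S 0 + Real.sqrt ((L 0 - S 0) ^ 2 - A 0 * D 0) := by linarith
  have h4 : 0 < Real.sqrt (L 0 - S 0 + Real.sqrt ((L 0 - S 0) ^ 2 - A 0 * D 0)) :=
    Real.sqrt_pos.2 h3
  have h5 : 0 < Real.sqrt |A 0| := Real.sqrt_pos.2 (abs_pos.2 hA0)
  have h20 : 0 < Real.sqrt 2 := Real.sqrt_pos.2 (by norm_num)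
  have dr : HasDerivAt (fun t => L t - S t) (l1 - s1) 0 := hL.sub hS
  have dα : HasDerivAt (fun t => Real.sqrt |A t|)
      (((SignType.sign (A 0) : ℝ) * a1) / (2 * Real.sqrt |A 0|)) 0 :=
    HasDerivAt.sqrt ((hasDerivAt_abs hA0).comp 0 hA) (abs_pos.2 hA0).ne'
  have dQ : HasDerivAt (fun t => (L t - S t) ^ 2 - A t * D t)
      (2 * (L 0 - S 0) * (l1 - s1) - (a1 * D 0 + A 0 * d1)) 0 := by
    have := (dr.pow 2).sub (hA.mul hD)
    refine this.congr_deriv ?_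
    ring
  have dR : HasDerivAt (fun t => Real.sqrt ((L t - S t) ^ 2 - A t * D t))
      ((2 * (L 0 - S 0) * (l1 - s1) - (a1 * D 0 + A 0 * d1)) /
        (2 * Real.sqrt ((L 0 - S 0) ^ 2 - A 0 * D 0))) 0 := HasDerivAt.sqrt dQ hpos.ne'
  have dG := HasDerivAt.sqrt (dr.add dR) h3.ne'
  have dA1 := hA.div (dα.mul ((dR.const_mul (Real.sqrt 2)).mul dG))
    (mul_pos h5 (mul_pos (mul_pos h20 h2) h4)).ne'
  have dA2 := dG.div ((dR.const_mul (Real.sqrt 2)).mul dα) (mul_pos (mul_pos h20 h2) h5).ne'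
  have key := (dA1.mul hM).add (dA2.mul hP)
  refine key.congr_deriv ?_
  have hs2 : Real.sqrt |A 0| ^ 2 = |A 0| := Real.sq_sqrt (abs_nonneg _)
  have hs3 : (SignType.sign (A 0) : ℝ) = 1 ∧ A 0 = α ^ 2 ∨
      (SignType.sign (A 0) : ℝ) = -1 ∧ A 0 = -α ^ 2 := by
    rcases lt_or_gt_of_ne hA0 with h | h
    · right
      rw [hα, hs2, abs_of_neg h, sign_neg h]; simp
    · left
      rw [hα, hs2, abs_of_pos h, sign_pos h]; simp
  have hs4 : G ^ 2 = r + R := by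
    rw [hG, hr, hR]
    exact Real.sq_sqrt h3.le
  simp only [Pi.add_apply, Pi.mul_apply, Pi.div_apply]
  rw [← hG]
  rw [← hR, ← hr, ← hα]
  rw [← hR] at h2
  rw [← hG] at h4
  rw [← hα] at h5
  have h6 : 0 < r + R := by rw [hr, hR]; exact h3
  subst hZ1 hY1 hR1 hr1
  have hrG : r = G ^ 2 - R := by linarith
  clear key dA1 dA2 dG dR dQ dα dr hs2 hG hR hr hα hpos hls hA hD hL hS hM hP
  generalize Real.sqrt 2 = q at *
  rcases hs3 with ⟨h7, h8⟩ | ⟨h7, h8⟩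
  · rw [h7, h8]
    rw [h8] at hA0
    clear h7 h8
    subst hrG
    have h9 : G ^ 2 - R + R ≠ 0 := h6.ne'
    field_simp
    ring
  · rw [h7, h8]
    rw [h8] at hA0
    clear h7 h8
    subst hrG
    have h9 : G ^ 2 - R + R ≠ 0 := h6.ne'
    field_simp
    ring

/-- the derivative of `β`, in terms of the derivatives of `r = l - s`, `R`, `a`, `cp`, `cm` -/
theorem BF_deriv (B : Block E) {x : E} (hx : x ∈ B.W) (ha : B.a x ≠ 0) (hl : B.s x < B.l x)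
    {r R G α : ℝ} (hr : r = B.l x - B.s x) (hR : R = Real.sqrt ((B.l x - B.s x) ^ 2 - B.a x * B.b x))
    (hG : G = Real.sqrt (B.l x - B.s x + Real.sqrt ((B.l x - B.s x) ^ 2 - B.a x * B.b x)))
    (hα : α = Real.sqrt |B.a x|)
    (w w' : E) {a1 b1 r1 R1 Y1 Z1 : ℝ} (ha1 : a1 = fderiv ℝ B.a x w) (hb1 : b1 = fderiv ℝ B.b x w)
    (hr1 : r1 = fderiv ℝ B.l x w - fderiv ℝ B.s x w)
    (hR1 : R1 = (2 * r * r1 - (B.a x * b1 + B.b x * a1)) / (2 * R))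
    (hY1 : Y1 = (r1 + R1) / (2 * (r + R)) - R1 / R)
    (hZ1 : Z1 = R1 / R + (r1 + R1) / (2 * (r + R))) :
    fderiv ℝ B.β x w w' =
      (1 / (Real.sqrt 2 * R * G * α)) * ((a1 / 2 - B.a x * Z1) * B.cm x w' +
        B.a x * fderiv ℝ B.cm x w w' +
        ((r + R) * (Y1 - a1 / (2 * B.a x))) * B.cp x w' + (r + R) * fderiv ℝ B.cp x w w') := by
  obtain ⟨h1, h2, h3⟩ := BF_pos B hx hl
  have ex : x + (0 : ℝ) • w = x := by rw [zero_smul, add_zero]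
  have dβ := BF_line_apply (BF_contDiff B hx ha hl) w w'
  have key := BF_oneVar (BF_line (B.smooth_a x hx) w) (BF_line (B.smooth_b x hx) w)
    (BF_line (B.smooth_l x hx) w) (BF_line (B.smooth_s x hx) w)
    (BF_line_apply (B.smooth_cm x hx) w w') (BF_line_apply (B.smooth_cp x hx) w w')
    (by rw [ex]; exact ha) (by rw [ex]; exact h1) (by rw [ex]; exact hl)
    (r := r) (R := R) (G := G) (α := α) (r1 := r1) (R1 := R1) (Y1 := Y1) (Z1 := Z1)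
    (by rw [ex]; exact hr) (by rw [ex]; exact hR) (by rw [ex]; exact hG) (by rw [ex]; exact hα)
    hr1 (by rw [ex]; rw [hR1, ha1, hb1]) hY1 hZ1
  rw [ex] at key
  have h := dβ.unique key
  rw [h, ha1]

/-- BF1: `β` is smooth and closed where `a ≠ 0`, `l > s`, and does not vanish. -/
theorem block_F (B : Block E) {x : E} (hx : x ∈ B.W) (ha : B.a x ≠ 0) (hl : B.s x < B.l x) :
    ContDiffAt ℝ (⊤ : ℕ∞) B.β x ∧ (∀ w w' : E, fderiv ℝ B.β x w w' = fderiv ℝ B.β x w' w) ∧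
      B.β x (B.Np x) ≠ 0 := by
  obtain ⟨h1, h2, h3⟩ := BF_pos B hx hl
  have h4 : 0 < Real.sqrt (B.l x - B.s x + Real.sqrt ((B.l x - B.s x) ^ 2 - B.a x * B.b x)) :=
    Real.sqrt_pos.2 h3
  have h5 : 0 < Real.sqrt |B.a x| := Real.sqrt_pos.2 (abs_pos.2 ha)
  have h20 : 0 < Real.sqrt 2 := Real.sqrt_pos.2 (by norm_num)
  refine ⟨BF_contDiff B hx ha hl, fun w w' => ?_, ?_⟩
  · have hm := B.dcm x hx w w'
    have hp := B.dcp x hx w w'
    have hRR : Real.sqrt ((B.l x - B.s x) ^ 2 - B.a x * B.b x) ^ 2 =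
      (B.l x - B.s x) ^ 2 - B.a x * B.b x := Real.sq_sqrt h1.le
    rw [← hRR] at hm hp
    obtain ⟨R, hR⟩ : ∃ R, R = Real.sqrt ((B.l x - B.s x) ^ 2 - B.a x * B.b x) := ⟨_, rfl⟩
    obtain ⟨r, hr⟩ : ∃ r, r = B.l x - B.s x := ⟨_, rfl⟩
    have e1 : ∀ y : E, fderiv ℝ B.l x y - fderiv ℝ B.s x y =
        2 * B.k x * B.ce x y - (B.u x * B.cm x y + B.v x * B.cp x y) := by
      intro y
      rw [B.dl x hx, B.ds x hx]
    have e2 : ∀ y : E, (r * (2 * B.k x * B.ce x y - (B.u x * B.cm x y + B.v x * B.cp x y)) -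
        B.a x * B.v x * B.cm x y - B.b x * B.u x * B.cp x y) / R =
        (2 * r * (2 * B.k x * B.ce x y - (B.u x * B.cm x y + B.v x * B.cp x y)) -
          (B.a x * fderiv ℝ B.b x y + B.b x * fderiv ℝ B.a x y)) / (2 * R) := by
      intro y
      rw [B.da x hx, B.db x hx]
      rw [div_eq_div_iff (by rw [hR]; exact h2.ne') (by rw [hR]; positivity)]
      ring
    rw [BF_deriv B hx ha hl hr hR rfl rfl w w' rfl rfl (e1 w).symm (e2 w) rfl rfl,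
      BF_deriv B hx ha hl hr hR rfl rfl w' w rfl rfl (e1 w').symm (e2 w') rfl rfl]
    congr 1
    rw [← hR, ← hr] at h3 hRR hm hp
    rw [← hR] at h2
    have alg := BF_alg (B.a x) (B.b x) (B.u x) (B.v x) (B.k x) r
      R (B.cp x w) (B.cp x w') (B.cm x w) (B.cm x w')
      (B.ce x w) (B.ce x w') (B.om x w) (B.om x w') _ _ _ _ _ _ _ _ ha h2.ne' h3.ne' hRR
      rfl rfl rfl rfl rfl rfl rfl rfl
    rw [B.da x hx, B.da x hx]
    have e3 : ∀ (O P Y : ℝ), (r + R) * (Y - (-2 * B.a x * O + 2 * B.u x * P) / (2 * B.a x)) =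
        (r + R) * (Y + O - B.u x * P / B.a x) := by
      intro O P Y
      congr 1
      field_simp
      ring
    rw [e3, e3]
    linear_combination alg + B.a x * hm + (r + R) * hp
  · have e : B.β x (B.Np x) = (Real.sqrt (B.l x - B.s x + Real.sqrt ((B.l x - B.s x) ^ 2 - B.a x * B.b x)) /
      (Real.sqrt 2 * Real.sqrt ((B.l x - B.s x) ^ 2 - B.a x * B.b x) * Real.sqrt |B.a x|)) := by
      unfold β
      rw [ContinuousLinearMap.add_apply, ContinuousLinearMap.smul_apply,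
        ContinuousLinearMap.smul_apply, B.cm_Np x hx, B.cp_Np x hx]
      simp
    rw [e]
    positivity

end Block

end Pool.Agent.helper25.B2
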