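import Pool.Agent.helper71.B2.FIc
import Pool.Agent.helper71.B2.BF
import Pool.Agent.helper49.B2.T6d

/-! # B2, module b2:FI3: the final form near a point where `c` is exactly double -/

set_option autoImplicit false

namespace Pool.Agent.helper68.B2

open scoped ContDiff Topology Matrix
open Matrix Set
open Pool.Agent.helper25.B2 (Block)

variable {S : Geo}

/-- exchange of the null directions -/
theorem FI3_swap {B : Block E4} {z n e : E4 → V3} (h : BlockOf S B z n e) :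
    BlockOf S B.swap n z e where
  cone := h.cone
  homz := h.homn
  homn := h.homz
  home := h.home
  smz := h.smn
  smn := h.smz
  sme := h.sme
  frame := by
    intro x hx
    have hf := h.frame x hx
    have hG := S.symm x (T6d_ne h hx)
    exact ⟨hf.nn, hf.zz, by rw [bil_symm hG]; exact hf.zn, hf.ee, hf.ne, hf.ze⟩
  Np := h.Nm
  Nm := h.Np
  Ne := h.Ne
  cp := h.cm
  cm := h.cp
  ce := h.ce
  Lz := h.Ln
  Ln := h.Lz
  Le := h.Le
  u := h.v
  v := h.u
  k := h.k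
  h := by
    intro x hx
    have h1 := h.h x hx
    change B.h x = ((S.Lam x).trace - S.g x (S.Lam x *ᵥ e x) (e x)) / 2
      - B.k x ^ 2 * (B.l x - B.s x) / ((B.l x - B.s x) ^ 2 - B.b x * B.a x)
    rw [mul_comm (B.b x) (B.a x)]
    exact h1
  homs := by
    intro x hx t ht
    obtain ⟨h1, h2, h3, h4⟩ := h.homs x hx t ht
    exact ⟨h1, h2, h4, h3⟩

/-- the algebra behind the form at a double root -/
theorem FI3_alg {a b l s κ α R G w Q M ρ : ℝ} (hκ : κ * κ = 1) (ha : a ≠ 0) (hα : α ^ 2 = |a|)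
    (hα0 : α ≠ 0) (hR : R ^ 2 = (l - s) ^ 2 - a * b) (hR0 : R ≠ 0) (hG : G ^ 2 = κ * (l - s) + R)
    (hG0 : G ≠ 0) (hw : w ^ 2 = 2) (hw0 : w ≠ 0) (hQ : Q = κ * a / (α * (w * R * G)))
    (hM : M = G / (w * R * α)) (hρ : ρ ^ 2 = a * b) :
    2 * Q * M = κ * (a / |a|) / R ^ 2 ∧
    (s + ρ - l) * (a * M ^ 2 + b * Q ^ 2 + 2 * ρ * (Q * M)) = -(κ * (a / |a|)) := by
  have hab : |a| ≠ 0 := abs_ne_zero.2 ha
  have hQM : Q * M = κ * a / (2 * R ^ 2 * |a|) := by
    rw [hQ, hM, ← hα, ← hw]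
    field_simp
  have hM2 : M ^ 2 = (κ * (l - s) + R) / (2 * R ^ 2 * |a|) := by
    rw [hM, ← hα, ← hw, ← hG]
    field_simp
  have hQ2 : b * Q ^ 2 = a * (κ * (l - s) - R) / (2 * R ^ 2 * |a|) := by
    have h1 : b * Q ^ 2 = (κ * κ) * (a * (a * b)) / (2 * R ^ 2 * |a| * G ^ 2) := by
      rw [hQ, ← hα, ← hw]
      field_simp
    rw [h1, hκ, one_mul]
    have h2 : a * b = (κ * (l - s) - R) * G ^ 2 := by
      rw [hG]
      linear_combination hR - (l - s) ^ 2 * hκ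
    rw [h2]
    field_simp
  constructor
  · rw [mul_assoc, hQM]
    field_simp
  · have h3 : a * M ^ 2 + b * Q ^ 2 + 2 * ρ * (Q * M) =
        a * (κ * (l - s) + κ * ρ) / (R ^ 2 * |a|) := by
      rw [hM2, hQ2, hQM]
      field_simp
      ring
    rw [h3]
    have h4 : (s + ρ - l) * (a * (κ * (l - s) + κ * ρ)) = -(κ * a * R ^ 2) := by
      rw [hR]
      linear_combination (κ * a) * hρ
    rw [← mul_div_assoc, h4]
    field_simp

/-- the coefficients of the form -/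
noncomputable def FI3_Q (B : Block E4) (κ : ℝ) (x : E4) : ℝ :=
  κ * B.a x / (Real.sqrt |B.a x| * (Real.sqrt 2 * Real.sqrt ((B.l x - B.s x) ^ 2 - B.a x * B.b x) *
      Real.sqrt (κ * (B.l x - B.s x) + Real.sqrt ((B.l x - B.s x) ^ 2 - B.a x * B.b x))))

noncomputable def FI3_M (B : Block E4) (κ : ℝ) (x : E4) : ℝ :=
  Real.sqrt (κ * (B.l x - B.s x) + Real.sqrt ((B.l x - B.s x) ^ 2 - B.a x * B.b x)) /
      (Real.sqrt 2 * Real.sqrt ((B.l x - B.s x) ^ 2 - B.a x * B.b x) * Real.sqrt |B.a x|)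

theorem FI3_QM {B : Block E4} {κ : ℝ} {x : E4} (hx : x ∈ B.W) (hκ : κ = 1 ∨ κ = -1)
    (ha : B.a x ≠ 0) (hl : 0 < κ * (B.l x - B.s x)) {ρ : ℝ} (hρ : ρ ^ 2 = B.a x * B.b x) :
    2 * FI3_Q B κ x * FI3_M B κ x =
      κ * (B.a x / |B.a x|) / ((B.l x - B.s x) ^ 2 - B.a x * B.b x) ∧
    (B.s x + ρ - B.l x) * (B.a x * FI3_M B κ x ^ 2 + B.b x * FI3_Q B κ x ^ 2
      + 2 * ρ * (FI3_Q B κ x * FI3_M B κ x)) = -(κ * (B.a x / |B.a x|)) := by
  have hP := B.P_pos x hx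
  have hR := Real.sq_sqrt hP.le
  have hR0 := Real.sqrt_pos.2 hP
  have hκκ : κ * κ = 1 := by rcases hκ with h | h <;> rw [h] <;> norm_num
  have hG1 : 0 < κ * (B.l x - B.s x) + Real.sqrt ((B.l x - B.s x) ^ 2 - B.a x * B.b x) := by
    linarith
  have h := FI3_alg (a := B.a x) (b := B.b x) (l := B.l x) (s := B.s x) (κ := κ)
    (α := Real.sqrt |B.a x|) (R := Real.sqrt ((B.l x - B.s x) ^ 2 - B.a x * B.b x))
    (G := Real.sqrt (κ * (B.l x - B.s x) + Real.sqrt ((B.l x - B.s x) ^ 2 - B.a x * B.b x)))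
    (w := Real.sqrt 2) (Q := FI3_Q B κ x) (M := FI3_M B κ x) (ρ := ρ) hκκ ha
    (Real.sq_sqrt (abs_nonneg _)) (Real.sqrt_pos.2 (abs_pos.2 ha)).ne' hR hR0.ne'
    (Real.sq_sqrt hG1.le) (Real.sqrt_pos.2 hG1).ne' (Real.sq_sqrt (by norm_num))
    (Real.sqrt_pos.2 (by norm_num)).ne' rfl rfl hρ
  rw [hR] at h
  exact h

/-- the vector field of the form -/
noncomputable def FI3_A (B : Block E4) (z n : E4 → V3) (κ : ℝ) (x : E4) : V3 :=
  FI3_Q B κ x • z x + FI3_M B κ x • n x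

theorem FI3_smooth {B : Block E4} {z n e : E4 → V3} (h : BlockOf S B z n e) {κ : ℝ} {x : E4}
    (hx : x ∈ B.W) (ha : B.a x ≠ 0) (hl : 0 < κ * (B.l x - B.s x)) :
    ContDiffAt ℝ ∞ (FI3_A B z n κ) x := by
  have hP := B.P_pos x hx
  have hR0 := Real.sqrt_pos.2 hP
  have hG1 : 0 < κ * (B.l x - B.s x) + Real.sqrt ((B.l x - B.s x) ^ 2 - B.a x * B.b x) := by
    linarith
  have hWn : B.W ∈ 𝓝 x := B.isOpen_W.mem_nhds hx
  have sa : ContDiffAt ℝ ∞ B.a x := B.smooth_a x hx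
  have sb : ContDiffAt ℝ ∞ B.b x := B.smooth_b x hx
  have ss : ContDiffAt ℝ ∞ B.s x := B.smooth_s x hx
  have sl : ContDiffAt ℝ ∞ B.l x := B.smooth_l x hx
  have s1 : ContDiffAt ℝ ∞ (fun y => Real.sqrt |B.a y|) x :=
    ContDiffAt.sqrt ((contDiffAt_abs ha).comp x sa) (abs_pos.2 ha).ne'
  have s2 : ContDiffAt ℝ ∞ (fun y => Real.sqrt ((B.l y - B.s y) ^ 2 - B.a y * B.b y)) x :=
    ContDiffAt.sqrt (((sl.sub ss).pow 2).sub (sa.mul sb)) hP.ne'
  have s3 : ContDiffAt ℝ ∞ (fun y => Real.sqrt (κ * (B.l y - B.s y) +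
      Real.sqrt ((B.l y - B.s y) ^ 2 - B.a y * B.b y))) x :=
    ContDiffAt.sqrt ((contDiffAt_const.mul (sl.sub ss)).add s2) hG1.ne'
  have n1 : Real.sqrt |B.a x| ≠ 0 := (Real.sqrt_pos.2 (abs_pos.2 ha)).ne'
  have n2 : Real.sqrt 2 ≠ 0 := (Real.sqrt_pos.2 (by norm_num)).ne'
  have n3 := (Real.sqrt_pos.2 hG1).ne'
  have sQ : ContDiffAt ℝ ∞ (FI3_Q B κ) x :=
    (contDiffAt_const.mul sa).div (s1.mul ((contDiffAt_const.mul s2).mul s3))
      (mul_ne_zero n1 (mul_ne_zero (mul_ne_zero n2 hR0.ne') n3))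
  have sM : ContDiffAt ℝ ∞ (FI3_M B κ) x :=
    s3.div ((contDiffAt_const.mul s2).mul s1) (mul_ne_zero (mul_ne_zero n2 hR0.ne') n1)
  exact (sQ.smul (h.smz.contDiffAt hWn)).add (sM.smul (h.smn.contDiffAt hWn))

theorem FI3_closed {B : Block E4} {z n e : E4 → V3} (h : BlockOf S B z n e) {κ : ℝ} {x : E4}
    (hκ : κ = 1 ∨ κ = -1) (hx : x ∈ B.W) (ha : B.a x ≠ 0) (hl : 0 < κ * (B.l x - B.s x)) :
    ClosedF (fun u => S.G u *ᵥ FI3_A B z n κ u) x := by
  have hx0 := T6d_ne h hx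
  have hWn : B.W ∈ 𝓝 x := B.isOpen_W.mem_nhds hx
  have hG : ContDiffAt ℝ ∞ S.G x := S.smG.contDiffAt hx0
  have hA := FI3_smooth h hx ha hl
  have hform : ∀ u ∈ B.W, form (fun u => S.G u *ᵥ FI3_A B z n κ u) u =
      FI3_Q B κ u • B.cm u + FI3_M B κ u • B.cp u := by
    intro u hu
    ext w
    rw [T6d_form S (T6d_ne h hu) (FI3_A B z n κ) w]
    rw [_root_.add_apply, _root_.smul_apply,
      _root_.smul_apply, h.cm u hu w, h.cp u hu w]
    unfold FI3_A Geo.g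
    rw [LA1_add_left, LA1_smul_left, LA1_smul_left]
    rfl
  refine FIc_closed_of_symm hx0 ((contDiffAt_mulVec hG hA).differentiableAt (by simp)) ?_
  intro w w'
  rcases hκ with rfl | rfl
  · have hl' : B.s x < B.l x := by linarith
    have hβ : (form fun u => S.G u *ᵥ FI3_A B z n 1 u) =ᶠ[𝓝 x] B.β := by
      filter_upwards [hWn] with u hu
      rw [hform u hu]
      unfold FI3_Q FI3_M Block.β
      rw [one_mul, one_mul]
    rw [hβ.fderiv_eq]
    exact (Block.block_F B hx ha hl').2.1 w w'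
  · have hl' : B.neg.s x < B.neg.l x := by
      change -B.s x < -B.l x
      linarith
    have ha' : B.neg.a x ≠ 0 := neg_ne_zero.2 ha
    have hβ : (form fun u => S.G u *ᵥ FI3_A B z n (-1) u) =ᶠ[𝓝 x] B.neg.β := by
      filter_upwards [hWn] with u hu
      rw [hform u hu]
      unfold FI3_Q FI3_M Block.β
      have e1 : B.neg.a u = -1 * B.a u := by change -B.a u = _; ring
      have e2 : |B.neg.a u| = |B.a u| := by change |-B.a u| = _; rw [abs_neg]
      have e3 : (B.neg.l u - B.neg.s u) ^ 2 - B.neg.a u * B.neg.b u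
          = (B.l u - B.s u) ^ 2 - B.a u * B.b u := by
        change (-B.l u - -B.s u) ^ 2 - (-B.a u) * (-B.b u) = _
        ring
      have e4 : B.neg.l u - B.neg.s u = -1 * (B.l u - B.s u) := by
        change -B.l u - -B.s u = _
        ring
      rw [e3, e2, e4, e1]
      rfl
    rw [hβ.fderiv_eq]
    exact (Block.block_F B.neg hx ha' hl').2.1 w w'

/-! ### pointwise facts -/

theorem FI3_quad (v p q : V3) : v ⬝ᵥ (vecMulVec p q *ᵥ v) = (v ⬝ᵥ p) * (q ⬝ᵥ v) := by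
  rw [GA_vecMulVec_mulVec, dotProduct_smul, smul_eq_mul, mul_comm]

theorem FI3_pt {B : Block E4} {z n e : E4 → V3} (h : BlockOf S B z n e) {κ : ℝ} {x : E4}
    (hκ : κ = 1 ∨ κ = -1) (hx : x ∈ B.W) (ha : B.a x ≠ 0) (hl : 0 < κ * (B.l x - B.s x))
    {ρ : ℝ} (hρ : ρ ^ 2 = B.a x * B.b x) {σ : ℝ} (hσ : σ = 1 ∨ σ = -1) {w : V3}
    (hw : S.Ku (B.s x + ρ) x = σ • vecMulVec w w) :
    σ = -(κ * (B.a x / |B.a x|)) ∧ S.g x (FI3_A B z n κ x) w ^ 2 = 1 := by
  have hx0 := T6d_ne h hx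
  have hG := S.symm x hx0
  have hf := h.frame x hx
  set A := FI3_A B z n κ x with hA
  set v := S.G x *ᵥ A with hv
  have e1 : v ⬝ᵥ z x = FI3_M B κ x := by
    rw [dotProduct_comm]
    change bil (S.G x) (z x) A = _
    rw [hA]
    unfold FI3_A
    rw [LA1_add_right, LA1_smul_right, LA1_smul_right, hf.zz, hf.zn]
    ring
  have e2 : v ⬝ᵥ n x = FI3_Q B κ x := by
    rw [dotProduct_comm]
    change bil (S.G x) (n x) A = _
    rw [hA]
    unfold FI3_A
    rw [LA1_add_right, LA1_smul_right, LA1_smul_right, hf.nn, bil_symm hG (n x) (z x), hf.zn]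
    ring
  have e3 : v ⬝ᵥ w = S.g x A w := by
    rw [dotProduct_comm, S.g_symm hx0]
    rfl
  have h1 := congrArg (fun M : M3 => v ⬝ᵥ (M *ᵥ v)) (block_adj S h hx hρ)
  rw [hw] at h1
  simp only [Matrix.smul_mulVec, Matrix.add_mulVec, dotProduct_smul, dotProduct_add, FI3_quad,
    smul_eq_mul] at h1
  rw [dotProduct_comm w v, dotProduct_comm (z x) v, dotProduct_comm (n x) v, e1, e2, e3] at h1
  have h2 := (FI3_QM hx hκ ha hl hρ).2
  have h3 : σ * S.g x A w ^ 2 = -(κ * (B.a x / |B.a x|)) := by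
    rw [← h2]
    linear_combination h1
  have h4 : κ * (B.a x / |B.a x|) = 1 ∨ κ * (B.a x / |B.a x|) = -1 := by
    rcases lt_or_gt_of_ne ha with h5 | h5
    · rw [abs_of_neg h5, div_neg, div_self ha]
      rcases hκ with h6 | h6 <;> rw [h6] <;> norm_num
    · rw [abs_of_pos h5, div_self ha]
      rcases hκ with h6 | h6 <;> rw [h6] <;> norm_num
  have h7 : 0 ≤ S.g x A w ^ 2 := sq_nonneg _
  rcases h4 with h4 | h4 <;> rcases hσ with h5 | h5 <;> rw [h4, h5] at h3 <;>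
    rw [h4, h5]
  · exfalso; linarith
  · exact ⟨rfl, by linarith⟩
  · exact ⟨by norm_num, by linarith⟩
  · exfalso; linarith

/-- vectors of the block -/
theorem FI3_decomp {G : M3} (hG : Gᵀ = G) {z n e : V3} (hf : NFrame G z n e) {A Z T : V3}
    (hA : bil G A e = 0) (hZ : bil G Z e = 0) (hT : bil G T e = 0) (hZT : bil G Z T = 0)
    (hZZ : bil G Z Z ≠ 0) (hTT : bil G T T ≠ 0) (h1 : bil G A Z = 1) (h2 : bil G A T = 1) :
    A = (bil G Z Z)⁻¹ • Z + (bil G T T)⁻¹ • T := by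
  have hnz : bil G n z = 1 := by rw [bil_symm hG]; exact hf.zn
  have key : ∀ V : V3, bil G V e = 0 → ∃ p q : ℝ, V = p • z + q • n := by
    intro V hV
    refine ⟨bil G V n, bil G V z, ?_⟩
    have h3 := hf.expand hG V
    rw [hV, zero_smul, add_zero] at h3
    exact h3
  have hform : ∀ p q p' q' : ℝ, bil G (p • z + q • n) (p' • z + q' • n) = p * q' + q * p' := by
    intro p q p' q'
    simp only [LA1_add_left, LA1_add_right, LA1_smul_left, LA1_smul_right, hf.zz, hf.nn, hf.zn, hnz]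
    ring
  obtain ⟨z1, z2, rfl⟩ := key Z hZ
  obtain ⟨t1, t2, rfl⟩ := key T hT
  rw [hform] at hZT hZZ hTT
  obtain ⟨V, hV⟩ : ∃ V, V = A - ((bil G (z1 • z + z2 • n) (z1 • z + z2 • n))⁻¹ • (z1 • z + z2 • n) +
    (bil G (t1 • z + t2 • n) (t1 • z + t2 • n))⁻¹ • (t1 • z + t2 • n)) := ⟨_, rfl⟩
  have hVe : bil G V e = 0 := by
    rw [hV, LA1_sub_left, hA, LA1_add_left, LA1_smul_left, LA1_smul_left, hZ, hT]
    ring
  have hVZ : bil G V (z1 • z + z2 • n) = 0 := by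
    rw [hV, LA1_sub_left, h1, LA1_add_left, LA1_smul_left, LA1_smul_left,
      bil_symm hG (t1 • z + t2 • n) (z1 • z + z2 • n), hform, hform, hform, hZT,
      inv_mul_cancel₀ hZZ]
    ring
  have hVT : bil G V (t1 • z + t2 • n) = 0 := by
    rw [hV, LA1_sub_left, h2, LA1_add_left, LA1_smul_left, LA1_smul_left, hform, hform, hform, hZT,
      inv_mul_cancel₀ hTT]
    ring
  obtain ⟨p, q, hpq⟩ := key V hVe
  rw [hpq, hform] at hVZ hVT
  have hz1 : z1 ≠ 0 := by rintro rfl; apply hZZ; ring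
  have hz2 : z2 ≠ 0 := by rintro rfl; apply hZZ; ring
  have ht1 : t1 ≠ 0 := by rintro rfl; apply hTT; ring
  have ht2 : t2 ≠ 0 := by rintro rfl; apply hTT; ring
  have hp : p = 0 := by
    have h3 : p * (2 * (z2 * t1)) = 0 := by
      linear_combination t1 * hVZ - z1 * hVT + p * hZT
    rcases mul_eq_zero.1 h3 with h4 | h4
    · exact h4
    · exact absurd h4 (mul_ne_zero two_ne_zero (mul_ne_zero hz2 ht1))
  have hq : q = 0 := by
    rw [hp] at hVZ
    have h3 : q * z1 = 0 := by linarith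
    rcases mul_eq_zero.1 h3 with h4 | h4
    · exact h4
    · exact absurd h4 hz1
  have h5 : V = 0 := by rw [hpq, hp, hq, zero_smul, zero_smul, add_zero]
  rw [hV] at h5
  exact sub_eq_zero.1 h5

theorem FI3_A_e {B : Block E4} {z n e : E4 → V3} (h : BlockOf S B z n e) (κ : ℝ) {x : E4}
    (hx : x ∈ B.W) : bil (S.G x) (FI3_A B z n κ x) (e x) = 0 := by
  have hf := h.frame x hx
  unfold FI3_A
  rw [LA1_add_left, LA1_smul_left, LA1_smul_left, hf.ze, hf.ne]
  ring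

theorem FI3_A_A {B : Block E4} {z n e : E4 → V3} (h : BlockOf S B z n e) (κ : ℝ) {x : E4}
    (hx : x ∈ B.W) : S.g x (FI3_A B z n κ x) (FI3_A B z n κ x) = 2 * FI3_Q B κ x * FI3_M B κ x := by
  have hf := h.frame x hx
  have hG := S.symm x (T6d_ne h hx)
  have hnz : bil (S.G x) (n x) (z x) = 1 := by rw [bil_symm hG]; exact hf.zn
  unfold FI3_A Geo.g
  simp only [LA1_add_left, LA1_add_right, LA1_smul_left, LA1_smul_right, hf.zz, hf.nn, hf.zn, hnz]
  ring

namespace FinData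
variable (D : FinData S)

theorem FI3_Tc {x : E4} (hx : x ≠ 0) : D.T x (D.c x) = D.Z x := by
  have hss : D.s * D.s = 1 := by rcases D.hs with h | h <;> rw [h] <;> norm_num
  obtain ⟨p, hp⟩ : ∃ p, p = D.Z x ⬝ᵥ D.Z x := ⟨_, rfl⟩
  have hp0 : 0 < p := hp ▸ W2_pos (D.root x hx).1
  have h1 : S.Ku (D.c x) x *ᵥ D.Z x = (D.s * p) • D.Z x := by
    rw [(D.root x hx).2, Matrix.smul_mulVec, GA_vecMulVec_mulVec, smul_smul, hp]
  unfold FinData.T
  rw [h1, dotProduct_smul, smul_eq_mul, ← hp, smul_smul]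
  have e1 : D.s * (D.s * p * p) = p ^ 2 := by
    calc D.s * (D.s * p * p) = (D.s * D.s) * p ^ 2 := by ring
      _ = p ^ 2 := by rw [hss, one_mul]
  rw [e1, Real.sqrt_sq hp0.le]
  have e2 : D.s / p * (D.s * p) = 1 := by
    calc D.s / p * (D.s * p) = (D.s * D.s) * (p / p) := by ring
      _ = 1 := by rw [hss, div_self hp0.ne', one_mul]
  rw [e2, one_smul]

theorem FI3_unit {η g : ℝ} (hη : η = 1 ∨ η = -1) (hg : g ^ 2 = 1) (hp : 0 < η * g) : η * g = 1 := by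
  have h1 : (g - 1) * (g + 1) = 0 := by linear_combination hg
  rcases hη with h | h <;> rw [h] at hp ⊢ <;> rcases mul_eq_zero.1 h1 with h2 | h2
  · linarith
  · exfalso; linarith
  · exfalso; linarith
  · linarith

/-- the pointwise statement -/
theorem FI3_isTh {B : Block E4} {z n e : E4 → V3} (h : BlockOf S B z n e) {κ : ℝ} {y : E4}
    (hκ : κ = 1 ∨ κ = -1) (hy : y ∈ B.W) (ha : B.a y ≠ 0) (hl : 0 < κ * (B.l y - B.s y))
    (hlc : B.l y ≠ D.c y) (hε : |2 * B.s y - 2 * D.c y| ≤ D.ε / 4) {η : ℝ} (hη : η = 1 ∨ η = -1)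
    (h1 : 0 < η * S.g y (FI3_A B z n κ y) (D.Z y))
    (h2 : 0 < η * S.g y (FI3_A B z n κ y) (D.T y (2 * B.s y - D.c y))) :
    RR3 (S.L y) (D.c y) (2 * B.s y - D.c y) (B.l y) ∧
    D.IsTh y (η • FI3_A B z n κ y + D.w y (B.l y)) := by
  have hy0 := T6d_ne h hy
  have hG := S.symm y hy0
  have hf := h.frame y hy
  have hηη : η * η = 1 := by rcases hη with h | h <;> rw [h] <;> norm_num
  have hb := block_roots S h hy
  obtain ⟨r₁, r₂, hr⟩ := D.real y hy0
  -- `c` is one of the block eigenvalues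
  obtain ⟨ρ, hρ⟩ : ∃ ρ, ρ = D.c y - B.s y := ⟨_, rfl⟩
  have hsq := Real.sq_sqrt (B.ab_nonneg y hy)
  have hρ2 : ρ ^ 2 = B.a y * B.b y := by
    have e1 : (D.c y • (1 : M3) - S.L y).det = 0 := by rw [hr]; ring
    rw [hb] at e1
    rcases mul_eq_zero.1 e1 with e2 | e2
    · rw [hρ, ← hsq]
      linear_combination e2
    · exact absurd (sub_eq_zero.1 e2).symm hlc
  have hρ2' : (-ρ) ^ 2 = B.a y * B.b y := by rw [neg_sq]; exact hρ2
  have hRR : RR3 (S.L y) (D.c y) (2 * B.s y - D.c y) (B.l y) := by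
    intro t
    rw [hb t]
    have e1 : (t - (B.s y - Real.sqrt (B.a y * B.b y))) * (t - (B.s y + Real.sqrt (B.a y * B.b y))) =
        (t - D.c y) * (t - (2 * B.s y - D.c y)) := by
      rw [hρ] at hρ2
      linear_combination hρ2 - hsq
    rw [e1]
  refine ⟨hRR, ?_⟩
  have hc1 : B.s y + ρ = D.c y := by rw [hρ]; ring
  have hc2 : B.s y + -ρ = 2 * B.s y - D.c y := by rw [hρ]; ring
  -- the pairing with `Z`
  have hpZ := FI3_pt h hκ hy ha hl hρ2 D.hs (by rw [hc1]; exact (D.root y hy0).2)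
  have gZ := FI3_unit hη hpZ.2 h1
  -- the other root
  have hde : (S.L y - (2 * B.s y - D.c y) • (1 : M3)).det = 0 := FI1_det (FI1_perm' hRR)
  have hεe : |2 * B.s y - D.c y - D.c y| < D.ε := by
    have e1 : 2 * B.s y - D.c y - D.c y = 2 * B.s y - 2 * D.c y := by ring
    rw [e1]
    linarith [D.hε]
  obtain ⟨hKT, hT0, -⟩ := D.FIc_adjT hy0 hde hεe
  have hpT := FI3_pt h hκ hy ha hl hρ2' D.hs (by rw [hc2]; exact hKT)
  have gT := FI3_unit hη hpT.2 h2
  have hdl : (S.L y - B.l y • (1 : M3)).det = 0 := FI1_det (FI1_perm' (FI1_perm hRR))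
  by_cases hρ0 : ρ = 0
  · -- `c` is double
    have hcs : 2 * B.s y - D.c y = D.c y := by rw [← hc2, ← hc1, hρ0]; ring
    rw [hcs] at hRR
    refine ⟨D.c y, B.l y, hRR, Or.inr (Or.inl ⟨rfl, hlc, η • FI3_A B z n κ y, rfl, ?_, ?_, ?_⟩)⟩
    · rw [FI1_adj hRR]
      have hab : B.a y * B.b y = 0 := by rw [← hρ2, hρ0]; ring
      have hs : D.c y = B.s y := by rw [← hc1, hρ0, add_zero]
      have e1 : (S.L y - D.c y • (1 : M3)) *ᵥ z y = B.b y • n y := by
        rw [Matrix.sub_mulVec, Matrix.smul_mulVec, Matrix.one_mulVec, h.Lz y hy, hs,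
          add_sub_cancel_left]
      have e2 : (S.L y - D.c y • (1 : M3)) *ᵥ n y = B.a y • z y := by
        rw [Matrix.sub_mulVec, Matrix.smul_mulVec, Matrix.one_mulVec, h.Ln y hy, hs,
          add_sub_cancel_left]
      unfold FI3_A
      rw [← Matrix.mulVec_mulVec]
      simp only [Matrix.mulVec_smul, Matrix.mulVec_add, e1, e2, smul_smul]
      have e3 : FI3_Q B κ y * B.b y * B.a y = 0 := by linear_combination (FI3_Q B κ y) * hab
      have e4 : FI3_M B κ y * B.a y * B.b y = 0 := by linear_combination (FI3_M B κ y) * hab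
      rw [e3, e4, zero_smul, zero_smul, add_zero, smul_zero]
    · unfold Geo.g at gZ ⊢
      rw [LA1_smul_left]
      exact gZ
    · have e1 : S.g y (η • FI3_A B z n κ y) (η • FI3_A B z n κ y) =
          S.g y (FI3_A B z n κ y) (FI3_A B z n κ y) := by
        unfold Geo.g
        rw [LA1_smul_left, LA1_smul_right, ← mul_assoc, hηη, one_mul]
      rw [e1, FI3_A_A h κ hy, (FI3_QM hy hκ ha hl hρ2).1, (LA2_trace (FI1_perm' (FI1_perm hRR))).2,
        hpZ.1, neg_neg]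
      congr 1
      have hab : B.a y * B.b y = 0 := by rw [← hρ2, hρ0]; ring
      have hs : D.c y = B.s y := by rw [← hc1, hρ0, add_zero]
      rw [hab, hs]; ring
  · -- `c` is simple
    have hne : 2 * B.s y - D.c y ≠ D.c y := by
      intro e1
      apply hρ0
      rw [← hc2, ← hc1] at e1
      linarith
    have hle : B.l y ≠ 2 * B.s y - D.c y := by
      intro e1
      have hP := B.P_pos y hy
      rw [← hρ2, e1, ← hc2] at hP
      apply absurd hP
      ring_nf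
      exact lt_irrefl _
    have hZZ : S.g y (D.Z y) (D.Z y) ≠ 0 := by
      intro e1
      have e2 := D.FI1_ZZ hy0 hRR
      rw [e1, mul_zero] at e2
      rcases mul_eq_zero.1 e2.symm with e3 | e3
      · exact hne (sub_eq_zero.1 e3).symm
      · exact hlc (sub_eq_zero.1 e3).symm
    have hTT : S.g y (D.T y (2 * B.s y - D.c y)) (D.T y (2 * B.s y - D.c y)) ≠ 0 := by
      intro e1
      have e2 := (LA2_trace (FI1_perm' hRR)).2
      have e3 : (S.L y - (2 * B.s y - D.c y) • (1 : M3)).adjugate = D.s • vecMulVec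
          (D.T y (2 * B.s y - D.c y)) (S.G y *ᵥ D.T y (2 * B.s y - D.c y)) :=
        LA2_adj (FI1_Lor S hy0) hKT
      rw [e3, Matrix.trace_smul, Matrix.trace_vecMulVec, smul_eq_mul] at e2
      have e4 : D.T y (2 * B.s y - D.c y) ⬝ᵥ S.G y *ᵥ D.T y (2 * B.s y - D.c y) = 0 := e1
      rw [e4, mul_zero] at e2
      rcases mul_eq_zero.1 e2.symm with e5 | e5
      · exact hne (sub_eq_zero.1 e5)
      · exact hle (sub_eq_zero.1 e5).symm
    have hZT : S.g y (D.Z y) (D.T y (2 * B.s y - D.c y)) = 0 :=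
      LA_orth hG (S.selfadj y hy0) (Ne.symm hne) (D.FI1_LZ hy0) (D.FI1_LT hde)
    have hZe : S.g y (D.Z y) (e y) = 0 :=
      LA_orth hG (S.selfadj y hy0) (Ne.symm hlc) (D.FI1_LZ hy0) (h.Le y hy)
    have hTe : S.g y (D.T y (2 * B.s y - D.c y)) (e y) = 0 :=
      LA_orth hG (S.selfadj y hy0) (Ne.symm hle) (D.FI1_LT hde) (h.Le y hy)
    have hAe : S.g y (η • FI3_A B z n κ y) (e y) = 0 := by
      unfold Geo.g
      rw [LA1_smul_left, FI3_A_e h κ hy, mul_zero]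
    have hAZ : S.g y (η • FI3_A B z n κ y) (D.Z y) = 1 := by
      unfold Geo.g at gZ ⊢
      rw [LA1_smul_left]; exact gZ
    have hAT : S.g y (η • FI3_A B z n κ y) (D.T y (2 * B.s y - D.c y)) = 1 := by
      unfold Geo.g at gT ⊢
      rw [LA1_smul_left]; exact gT
    refine ⟨_, _, hRR, Or.inl ⟨hne, hlc, ?_⟩⟩
    have hw : D.w y (2 * B.s y - D.c y) =
        (S.g y (D.T y (2 * B.s y - D.c y)) (D.T y (2 * B.s y - D.c y)))⁻¹ •
          D.T y (2 * B.s y - D.c y) := by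
      unfold FinData.w
      have e1 : D.a (2 * B.s y - D.c y - D.c y) = 1 := by
        apply D.a_one
        have e2 : 2 * B.s y - D.c y - D.c y = 2 * B.s y - 2 * D.c y := by ring
        rw [e2]; exact hε
      rw [e1, one_div]
    rw [hw]
    congr 1
    exact FI3_decomp hG hf hAe hZe hTe hZT hZZ hTT hAZ hAT

/-- the local statement in a block -/
theorem FI3_main {B : Block E4} {z n e : E4 → V3} (h : BlockOf S B z n e) {x : E4} (hx : x ∈ B.W)
    (h3 : (S.L x - D.c x • (1 : M3)) ^ 3 ≠ 0) (hs : B.s x = D.c x) (hlc : B.l x ≠ D.c x)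
    (hab : B.a x * B.b x = 0) (ha : B.a x ≠ 0) :
    ∃ (W : Set E4) (A : E4 → V3), IsOpen W ∧ x ∈ W ∧ ContDiffOn ℝ ∞ A W ∧
      ∀ y ∈ W, D.IsTh y (A y) ∧ ClosedF (fun u => S.G u *ᵥ A u) y := by
  have hx0 := T6d_ne h hx
  obtain ⟨κ, hκ, hl⟩ : ∃ κ : ℝ, (κ = 1 ∨ κ = -1) ∧ 0 < κ * (B.l x - B.s x) := by
    rcases lt_or_gt_of_ne (show B.l x ≠ B.s x by rw [hs]; exact hlc) with h1 | h1
    · exact ⟨-1, Or.inr rfl, by linarith⟩
    · exact ⟨1, Or.inl rfl, by linarith⟩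
  have hb := block_roots S h hx
  rw [hab, Real.sqrt_zero, sub_zero, add_zero, hs] at hb
  have hb' : RR3 (S.L x) (B.l x) (D.c x) (D.c x) := FI1_perm' (FI1_perm hb)
  have hdl : (S.L x - B.l x • (1 : M3)).det = 0 := FI1_det hb'
  have hsl : (S.L x - B.l x • (1 : M3)).adjugate.trace ≠ 0 := by
    rw [(LA2_trace hb').2]
    exact mul_ne_zero (sub_ne_zero.2 hlc) (sub_ne_zero.2 hlc)
  obtain ⟨W₁, μ, hW₁, hxW₁, hμ, hμx, hμs, hroot, hws, hwc⟩ := D.FIc_branch hx0 h3 hdl hsl hlc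
  have hc : ∀ y ∈ W₁, D.c y = D.c x := fun y hy => (hroot y hy).2.2.2
  -- the sign
  have hpt := FI3_pt h hκ hx ha hl (ρ := 0) (by rw [hab]; ring) D.hs
    (w := D.Z x) (by rw [hs, add_zero]; exact (D.root x hx0).2)
  obtain ⟨η, hη⟩ : ∃ η, η = S.g x (FI3_A B z n κ x) (D.Z x) := ⟨_, rfl⟩
  have hη2 : η ^ 2 = 1 := by rw [hη]; exact hpt.2
  have hη1 : η = 1 ∨ η = -1 := by
    have h1 : (η - 1) * (η + 1) = 0 := by linear_combination hη2
    rcases mul_eq_zero.1 h1 with h2 | h2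
    · left; linarith
    · right; linarith
  have hWn : B.W ∈ 𝓝 x := B.isOpen_W.mem_nhds hx
  have hW₁n : W₁ ∈ 𝓝 x := hW₁.isOpen.mem_nhds hxW₁
  have ca : ContDiffAt ℝ ∞ B.a x := B.smooth_a x hx
  have cs : ContDiffAt ℝ ∞ B.s x := B.smooth_s x hx
  have cl : ContDiffAt ℝ ∞ B.l x := B.smooth_l x hx
  have cZ : ContDiffAt ℝ ∞ D.Z x := (D.FIc_Z_smooth hW₁ hc).contDiffAt hW₁n
  have cA := FI3_smooth h hx ha hl
  have cG : ContDiffAt ℝ ∞ S.G x := S.smG.contDiffAt hx0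
  have cμ2 : ContDiffAt ℝ ∞ (fun y => 2 * B.s y - D.c x) x :=
    (contDiffAt_const.mul cs).sub contDiffAt_const
  have hμ2x : 2 * B.s x - D.c x = D.c x := by rw [hs]; ring
  have cT : ContDiffAt ℝ ∞ (fun y => D.T y (2 * B.s y - D.c x)) x :=
    D.FIc_T_smooth hW₁.zero hxW₁ cμ2 cZ (by rw [hμ2x, sub_self, abs_zero]; exact D.hε)
  have cgZ : ContDiffAt ℝ ∞ (fun y => η * S.g y (FI3_A B z n κ y) (D.Z y)) x :=
    contDiffAt_const.mul (contDiffAt_bil cG cA cZ)
  have cgT : ContDiffAt ℝ ∞ (fun y => η * S.g y (FI3_A B z n κ y) (D.T y (2 * B.s y - D.c x))) x :=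
    contDiffAt_const.mul (contDiffAt_bil cG cA cT)
  have e1 : ∀ᶠ y in 𝓝 x, B.a y ≠ 0 := ca.continuousAt.eventually_ne ha
  have e2 : ∀ᶠ y in 𝓝 x, 0 < κ * (B.l y - B.s y) :=
    (contDiffAt_const.mul (cl.sub cs)).continuousAt.eventually (lt_mem_nhds hl)
  have e3 : ∀ᶠ y in 𝓝 x, B.l y ≠ D.c x := cl.continuousAt.eventually_ne hlc
  have e4 : ∀ᶠ y in 𝓝 x, |2 * B.s y - 2 * D.c x| < D.ε / 4 := by
    have h1 : ContinuousAt (fun y => |2 * B.s y - 2 * D.c x|) x :=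
      (((contDiffAt_const.mul cs).sub contDiffAt_const).continuousAt).abs
    have h2 : |2 * B.s x - 2 * D.c x| < D.ε / 4 := by
      rw [hs, sub_self, abs_zero]
      linarith [D.hε]
    exact h1.eventually (gt_mem_nhds h2)
  have e5 : ∀ᶠ y in 𝓝 x, 0 < η * S.g y (FI3_A B z n κ y) (D.Z y) := by
    refine cgZ.continuousAt.eventually (lt_mem_nhds ?_)
    change 0 < η * S.g x (FI3_A B z n κ x) (D.Z x)
    rw [← hη, ← sq, hη2]
    norm_num
  have e6 : ∀ᶠ y in 𝓝 x, 0 < η * S.g y (FI3_A B z n κ y) (D.T y (2 * B.s y - D.c x)) := by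
    refine cgT.continuousAt.eventually (lt_mem_nhds ?_)
    change 0 < η * S.g x (FI3_A B z n κ x) (D.T x (2 * B.s x - D.c x))
    rw [hμ2x, D.FI3_Tc hx0, ← hη, ← sq, hη2]
    norm_num
  have e7 : ∀ᶠ y in 𝓝 x, μ y - (2 * B.s y - D.c x) ≠ 0 := by
    refine ((hμs.contDiffAt hW₁n).sub cμ2).continuousAt.eventually_ne ?_
    rw [hμ2x, hμx]
    exact sub_ne_zero.2 hlc
  have hall := (((((((Filter.eventually_of_mem hWn (fun y hy => hy)).and
    (Filter.eventually_of_mem hW₁n (fun y hy => hy))).and e1).and e2).and e3).and e4).and e5).and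
      (e6.and e7)
  obtain ⟨V, hV, hVo, hxV⟩ := mem_nhds_iff.1 hall
  refine ⟨V, fun y => η • FI3_A B z n κ y + D.w y (μ y), hVo, hxV, ?_, ?_⟩
  · intro y hy
    obtain ⟨⟨⟨⟨⟨⟨⟨h1, h2⟩, h4⟩, h5⟩, h6⟩, h7⟩, h8⟩, h9, h10⟩ := hV hy
    have k1 : ContDiffAt ℝ ∞ (fun u => η • FI3_A B z n κ u) y :=
      (contDiffAt_const (c := η)).smul (FI3_smooth h h1 h4 h5)
    exact (k1.add (hws.contDiffAt (hW₁.isOpen.mem_nhds h2))).contDiffWithinAt
  · intro y hy
    obtain ⟨⟨⟨⟨⟨⟨⟨h1, h2⟩, h4⟩, h5⟩, h6⟩, h7⟩, h8⟩, h9, h10⟩ := hV hy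
    have hcy := hc y h2
    have hy0 : y ≠ 0 := T6d_ne h h1
    obtain ⟨hR, hTh⟩ := D.FI3_isTh h hκ h1 h4 h5 (by rw [hcy]; exact h6) (by rw [hcy]; exact h7.le)
      hη1 h8 (by rw [hcy]; exact h9)
    have hμl : μ y = B.l y := by
      have hd := (hroot y h2).1
      have hd' : (μ y • (1 : M3) - S.L y).det = 0 := by
        have h11 : μ y • (1 : M3) - S.L y = -(S.L y - μ y • (1 : M3)) := by abel
        rw [h11, Matrix.det_neg, hd, mul_zero]
      rw [hR] at hd'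
      rcases mul_eq_zero.1 hd' with h11 | h11
      · rcases mul_eq_zero.1 h11 with h12 | h12
        · exact absurd (sub_eq_zero.1 h12) (hroot y h2).2.2.1
        · rw [hcy] at h12
          exact absurd h12 h10
      · exact sub_eq_zero.1 h11
    refine ⟨by
      change D.IsTh y (η • FI3_A B z n κ y + D.w y (μ y))
      rw [hμl]; exact hTh, ?_⟩
    have cG' : ContDiffAt ℝ ∞ S.G y := S.smG.contDiffAt hy0
    have c1 : ContDiffAt ℝ ∞ (fun u => S.G u *ᵥ FI3_A B z n κ u) y :=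
      contDiffAt_mulVec cG' (FI3_smooth h h1 h4 h5)
    have c2 : ContDiffAt ℝ ∞ (fun u => S.G u *ᵥ D.w u (μ u)) y :=
      contDiffAt_mulVec cG' (hws.contDiffAt (hW₁.isOpen.mem_nhds h2))
    have k1 : ClosedF (fun u => η • (S.G u *ᵥ FI3_A B z n κ u)) y := by
      refine FIc_closed_smul (f := fun _ => η) (κ := 0) (differentiableAt_const _)
        (c1.differentiableAt (by simp)) (FI3_closed h hκ h1 h4 h5) ?_
      intro i
      simp [Dv]
    have c3 : ContDiffAt ℝ ∞ (fun u => η • (S.G u *ᵥ FI3_A B z n κ u)) y :=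
      (contDiffAt_const (c := η)).smul c1
    have k2 := FIc_closed_add (c3.differentiableAt (by simp))
      (c2.differentiableAt (by simp)) k1 (hwc y h2)
    refine FIc_closed_congr k2 (Filter.Eventually.of_forall fun u => ?_)
    simp only [Matrix.mulVec_add, Matrix.mulVec_smul]

/-- the final form near a point where `c` is exactly double -/
theorem fin_double {x : E4} (hx : x ≠ 0) (h : (S.L x - D.c x • (1 : M3)).adjugate.trace = 0)
    (h3 : (S.L x - D.c x • (1 : M3)) ^ 3 ≠ 0) :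
    ∃ (W : Set E4) (A : E4 → V3), IsOpen W ∧ x ∈ W ∧ ContDiffOn ℝ ∞ A W ∧
      ∀ y ∈ W, D.IsTh y (A y) ∧ ClosedF (fun u => S.G u *ᵥ A u) y := by
  obtain ⟨r, hr⟩ : ∃ r, RR3 (S.L x) (D.c x) (D.c x) r := by
    obtain ⟨r₁, r₂, hr⟩ := D.real x hx
    rw [(LA2_trace hr).2] at h
    rcases mul_eq_zero.1 h with h1 | h1
    · rw [← sub_eq_zero.1 h1] at hr
      exact ⟨r₂, hr⟩
    · rw [← sub_eq_zero.1 h1] at hr
      exact ⟨r₁, FI1_perm hr⟩
  have hne : r ≠ D.c x := by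
    intro h1
    apply h3
    rw [h1] at hr
    rw [pow_succ', pow_two, ← FI1_adj hr, Matrix.mul_adjugate, FI1_det hr, zero_smul]
  have hzz : S.g x (D.Z x) (D.Z x) = 0 := by
    have h4 := D.FI1_ZZ hx hr
    rw [sub_self, zero_mul] at h4
    rcases mul_eq_zero.1 h4 with h5 | h5
    · rcases D.hs with h6 | h6 <;> rw [h6] at h5 <;> norm_num at h5
    · exact h5
  obtain ⟨z₀, n₀, e₀, C, hf, hLz, hLn, hLe⟩ := LA_double (FI1_Lor S hx) (S.selfadj x hx) hr hne
    (D.root x hx).1 (D.FI1_LZ hx) (le_of_eq hzz)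
  have hr' : RR3 (S.L x) r (D.c x) (D.c x) := FI1_perm' (FI1_perm hr)
  have hpos : 0 < (S.L x - r • (1 : M3)).adjugate.trace := by
    rw [(LA2_trace hr').2]
    exact mul_self_pos.2 (sub_ne_zero.2 hne)
  have hRR : ∀ y, y ≠ 0 → ∃ r₁ r₂ r₃ : ℝ, RR3 (S.L y) r₁ r₂ r₃ := by
    intro y hy
    obtain ⟨r₁, r₂, h1⟩ := D.real y hy
    exact ⟨_, _, _, h1⟩
  obtain ⟨B, z, n, e, hxB, hlx, hB⟩ := exists_block S hRR hx hLe hf.ee hpos
  have hb := FI1_perm' (FI1_perm (block_roots S hB hxB))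
  rw [hlx] at hb
  have hsc : B.s x - Real.sqrt (B.a x * B.b x) = D.c x ∧ B.s x + Real.sqrt (B.a x * B.b x) = D.c x := by
    rcases FI1_roots hr' hb with h1 | h1 <;> exact h1
  have hs : B.s x = D.c x := by linarith [hsc.1, hsc.2]
  have hab : B.a x * B.b x = 0 := by
    have h1 : Real.sqrt (B.a x * B.b x) = 0 := by linarith [hsc.1, hsc.2]
    have h2 := Real.sq_sqrt (B.ab_nonneg x hxB)
    rw [h1] at h2
    linarith
  have hlc : B.l x ≠ D.c x := by rw [hlx]; exact hne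
  by_cases ha : B.a x = 0
  · have hb0 : B.b x ≠ 0 := by
      intro hb0
      have h1 := block_adj S hB hxB (ρ := 0) (by rw [hab]; ring)
      rw [ha, hb0, zero_smul, zero_smul, zero_smul, add_zero, add_zero, add_zero, smul_zero, hs,
        (D.root x hx).2] at h1
      have h2 := congrArg (fun M : M3 => D.Z x ⬝ᵥ (M *ᵥ D.Z x)) h1
      have h4 := W2_pos (D.root x hx).1
      rw [Matrix.zero_mulVec, dotProduct_zero, Matrix.smul_mulVec, dotProduct_smul, FI3_quad,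
        smul_eq_mul] at h2
      rcases mul_eq_zero.1 h2 with h5 | h5
      · rcases D.hs with h6 | h6 <;> rw [h6] at h5 <;> norm_num at h5
      · exact (mul_pos h4 h4).ne' h5
    exact D.FI3_main (FI3_swap hB) hxB h3 hs hlc (by
      change B.b x * B.a x = 0
      rw [mul_comm]; exact hab) hb0
  · exact D.FI3_main hB hxB h3 hs hlc hab ha

end FinData

end Pool.Agent.helper68.B2
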