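import Pool.Agent.helper71.B2.BF

/-! # MP_b2b189_gt (S13780): module BG (`β` is the sum of the two coframe forms) -/

set_option autoImplicit false

namespace Pool.Agent.helper25.B2

open Set Filter Topology Asymptotics

namespace Block

variable {E : Type*} [NormedAddCommGroup E] [NormedSpace ℝ E]

/-- BF2: `β = θ₁ + θ₂` where `a b > 0`; here `σ` is the sign of `a`,
`T₁ = √(l-λ₁) (√|a| Np - σ √|b| Nm)`, `T₂ = √(l-λ₂) (√|a| Np + σ √|b| Nm)`, `θ_i = T_i^♭ / g(T_i,T_i)`. -/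
theorem block_F_eq (B : Block E) {x : E} (hx : x ∈ B.W) (hab : 0 < B.a x * B.b x) (hl : B.s x < B.l x)
    {σ : ℝ} (hσ : σ = SignType.sign (B.a x)) :
    B.β x =
      (-(σ / (2 * Real.sqrt (B.l x - B.s x + Real.sqrt (B.a x * B.b x)) * Real.sqrt (B.a x * B.b x)))) •
        (Real.sqrt |B.a x| • B.cm x - (σ * Real.sqrt |B.b x|) • B.cp x) +
      (σ / (2 * Real.sqrt (B.l x - B.s x - Real.sqrt (B.a x * B.b x)) * Real.sqrt (B.a x * B.b x))) •
        (Real.sqrt |B.a x| • B.cm x + (σ * Real.sqrt |B.b x|) • B.cp x) := by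
  obtain ⟨h1, h2, h3⟩ := BF_pos B hx hl
  have ha : B.a x ≠ 0 := left_ne_zero_of_mul hab.ne'
  have hb : B.b x ≠ 0 := right_ne_zero_of_mul hab.ne'
  have h4 : 0 < Real.sqrt (B.l x - B.s x + Real.sqrt ((B.l x - B.s x) ^ 2 - B.a x * B.b x)) :=
    Real.sqrt_pos.2 h3
  have h5 : 0 < Real.sqrt |B.a x| := Real.sqrt_pos.2 (abs_pos.2 ha)
  have h6 : 0 < Real.sqrt |B.b x| := Real.sqrt_pos.2 (abs_pos.2 hb)
  have h7 : 0 < Real.sqrt (B.a x * B.b x) := Real.sqrt_pos.2 hab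
  have h20 : 0 < Real.sqrt 2 := Real.sqrt_pos.2 (by norm_num)
  have hr0 : 0 < B.l x - B.s x := by linarith
  have hd2 : Real.sqrt (B.a x * B.b x) ^ 2 = B.a x * B.b x := Real.sq_sqrt hab.le
  have hdr : Real.sqrt (B.a x * B.b x) < B.l x - B.s x := by
    refine lt_of_pow_lt_pow_left₀ 2 hr0.le ?_
    rw [hd2]; linarith
  have h8 : 0 < Real.sqrt (B.l x - B.s x + Real.sqrt (B.a x * B.b x)) :=
    Real.sqrt_pos.2 (by linarith)
  have h9 : 0 < Real.sqrt (B.l x - B.s x - Real.sqrt (B.a x * B.b x)) :=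
    Real.sqrt_pos.2 (by linarith)
  have hαγ : Real.sqrt (B.a x * B.b x) = Real.sqrt |B.a x| * Real.sqrt |B.b x| := by
    rw [← Real.sqrt_mul (abs_nonneg _), ← abs_mul, abs_of_pos hab]
  have hs2 : Real.sqrt |B.a x| ^ 2 = |B.a x| := Real.sq_sqrt (abs_nonneg _)
  have hσa : σ ^ 2 = 1 ∧ B.a x = σ * Real.sqrt |B.a x| ^ 2 := by
    rcases lt_or_gt_of_ne ha with h | h
    · rw [hσ, sign_neg h, hs2, abs_of_neg h]; simp
    · rw [hσ, sign_pos h, hs2, abs_of_pos h]; simp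
  have hx1 : Real.sqrt (B.l x - B.s x + Real.sqrt (B.a x * B.b x)) ^ 2 =
      B.l x - B.s x + Real.sqrt (B.a x * B.b x) := Real.sq_sqrt (by linarith)
  have hx2 : Real.sqrt (B.l x - B.s x - Real.sqrt (B.a x * B.b x)) ^ 2 =
      B.l x - B.s x - Real.sqrt (B.a x * B.b x) := Real.sq_sqrt (by linarith)
  have hR : Real.sqrt ((B.l x - B.s x) ^ 2 - B.a x * B.b x) =
      Real.sqrt (B.l x - B.s x + Real.sqrt (B.a x * B.b x)) *
      Real.sqrt (B.l x - B.s x - Real.sqrt (B.a x * B.b x)) := by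
    rw [← Real.sqrt_mul (by linarith)]
    congr 1
    linear_combination hd2
  have hG : Real.sqrt 2 * Real.sqrt (B.l x - B.s x +
      Real.sqrt ((B.l x - B.s x) ^ 2 - B.a x * B.b x)) =
      Real.sqrt (B.l x - B.s x + Real.sqrt (B.a x * B.b x)) +
      Real.sqrt (B.l x - B.s x - Real.sqrt (B.a x * B.b x)) := by
    rw [← Real.sqrt_mul (by norm_num)]
    rw [Real.sqrt_eq_iff_mul_self_eq (by positivity) (by positivity)]
    rw [hR]
    linear_combination -hx1 - hx2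
  have h22 : Real.sqrt 2 * Real.sqrt 2 = 2 := Real.mul_self_sqrt (by norm_num)
  obtain ⟨hσ2, hσa⟩ := hσa
  have hC1 : B.a x / (Real.sqrt |B.a x| * (Real.sqrt 2 *
      Real.sqrt ((B.l x - B.s x) ^ 2 - B.a x * B.b x) *
      Real.sqrt (B.l x - B.s x + Real.sqrt ((B.l x - B.s x) ^ 2 - B.a x * B.b x)))) =
      -(σ / (2 * Real.sqrt (B.l x - B.s x + Real.sqrt (B.a x * B.b x)) *
        Real.sqrt (B.a x * B.b x))) * Real.sqrt |B.a x| +
      (σ / (2 * Real.sqrt (B.l x - B.s x - Real.sqrt (B.a x * B.b x)) *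
        Real.sqrt (B.a x * B.b x))) * Real.sqrt |B.a x| := by
    have e : Real.sqrt |B.a x| * (Real.sqrt 2 *
      Real.sqrt ((B.l x - B.s x) ^ 2 - B.a x * B.b x) *
      Real.sqrt (B.l x - B.s x + Real.sqrt ((B.l x - B.s x) ^ 2 - B.a x * B.b x))) =
      Real.sqrt |B.a x| * (Real.sqrt ((B.l x - B.s x) ^ 2 - B.a x * B.b x) * (Real.sqrt 2 *
      Real.sqrt (B.l x - B.s x + Real.sqrt ((B.l x - B.s x) ^ 2 - B.a x * B.b x)))) := by ring
    have e2 : B.a x / (Real.sqrt |B.a x| * (Real.sqrt 2 *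
      Real.sqrt ((B.l x - B.s x) ^ 2 - B.a x * B.b x) *
      Real.sqrt (B.l x - B.s x + Real.sqrt ((B.l x - B.s x) ^ 2 - B.a x * B.b x)))) =
      σ * Real.sqrt |B.a x| ^ 2 / (Real.sqrt |B.a x| * (Real.sqrt 2 *
      Real.sqrt ((B.l x - B.s x) ^ 2 - B.a x * B.b x) *
      Real.sqrt (B.l x - B.s x + Real.sqrt ((B.l x - B.s x) ^ 2 - B.a x * B.b x)))) := by
      rw [← hσa]
    rw [e2, e, hG, hR]
    generalize Real.sqrt (B.l x - B.s x + Real.sqrt (B.a x * B.b x)) = x1 at *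
    generalize Real.sqrt (B.l x - B.s x - Real.sqrt (B.a x * B.b x)) = x2 at *
    generalize Real.sqrt (B.a x * B.b x) = d at *
    generalize Real.sqrt |B.a x| = α at *
    have h10 : x1 + x2 ≠ 0 := by positivity
    have h11 : x1 ^ 2 - x2 ^ 2 = 2 * d := by rw [hx1, hx2]; ring
    have h12 : d ≠ 0 := h7.ne'
    have h13 : d = (x1 ^ 2 - x2 ^ 2) / 2 := by linarith
    field_simp
    linear_combination (-σ) * h11
  have hC2 : Real.sqrt (B.l x - B.s x + Real.sqrt ((B.l x - B.s x) ^ 2 - B.a x * B.b x)) /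
      (Real.sqrt 2 * Real.sqrt ((B.l x - B.s x) ^ 2 - B.a x * B.b x) * Real.sqrt |B.a x|) =
      (σ / (2 * Real.sqrt (B.l x - B.s x + Real.sqrt (B.a x * B.b x)) *
        Real.sqrt (B.a x * B.b x))) * (σ * Real.sqrt |B.b x|) +
      (σ / (2 * Real.sqrt (B.l x - B.s x - Real.sqrt (B.a x * B.b x)) *
        Real.sqrt (B.a x * B.b x))) * (σ * Real.sqrt |B.b x|) := by
    have e : Real.sqrt (B.l x - B.s x + Real.sqrt ((B.l x - B.s x) ^ 2 - B.a x * B.b x)) /
      (Real.sqrt 2 * Real.sqrt ((B.l x - B.s x) ^ 2 - B.a x * B.b x) * Real.sqrt |B.a x|) =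
      (Real.sqrt 2 * Real.sqrt (B.l x - B.s x + Real.sqrt ((B.l x - B.s x) ^ 2 - B.a x * B.b x))) /
      ((Real.sqrt 2 * Real.sqrt 2) * Real.sqrt ((B.l x - B.s x) ^ 2 - B.a x * B.b x) *
        Real.sqrt |B.a x|) := by
      field_simp
    rw [e, hG, hR, h22]
    generalize Real.sqrt (B.l x - B.s x + Real.sqrt (B.a x * B.b x)) = x1 at *
    generalize Real.sqrt (B.l x - B.s x - Real.sqrt (B.a x * B.b x)) = x2 at *
    rw [hαγ]
    generalize Real.sqrt |B.a x| = α at *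
    generalize Real.sqrt |B.b x| = γ at *
    field_simp
    linear_combination (-(x1 + x2)) * hσ2
  unfold β
  rw [hC1, hC2]
  ext w
  simp only [ContinuousLinearMap.add_apply, ContinuousLinearMap.smul_apply,
    ContinuousLinearMap.sub_apply, smul_eq_mul]
  ring

end Block

end Pool.Agent.helper25.B2
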