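import Pool.Agent.helper71.B2.FI1
import Pool.Agent.helper80.B2.W1
import Pool.Agent.helper58.B2.W2
import Pool.Agent.helper98.B2.GA
import Pool.Agent.helper97.B2.T3b
import Pool.Agent.helper15.B2.T3c

/-! # B2, common lemmas for the modules FI2, FI3, FI4 -/

set_option autoImplicit false

namespace Pool.Agent.helper68.B2

open scoped ContDiff Topology Matrix
open Matrix Set

/-! ### closed forms -/

theorem FIc_form_val {α : E4 → V3} {x : E4} (hx : x ≠ 0) (hα : DifferentiableAt ℝ α x)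
    (a b : Fin 3) :
    fderiv ℝ (form α) x (J a x) (J b x) - fderiv ℝ (form α) x (J b x) (J a x) =
      Dv (fun y => α y b) (ee a) x - Dv (fun y => α y a) (ee b) x - 2 * ∑ k, eps a b k * α x k := by
  have hN : ‖x‖ ^ 2 ≠ 0 := pow_ne_zero 2 (norm_ne_zero_iff.2 hx)
  have hαi : ∀ i, HasFDerivAt (fun y => α y i) ((ContinuousLinearMap.proj i).comp (fderiv ℝ α x)) x := by
    intro i
    exact (hasFDerivAt_pi'.1 hα.hasFDerivAt) i
  have hn : HasFDerivAt (fun y : E4 => ‖y‖ ^ 2) (2 • (W1_I x)) x :=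
    (hasStrictFDerivAt_norm_sq x).hasFDerivAt
  have hni : HasFDerivAt (fun y : E4 => (‖y‖ ^ 2)⁻¹)
      ((-((‖x‖ ^ 2) ^ 2)⁻¹) • (2 • (W1_I x))) x :=
    (hasDerivAt_inv hN).comp_hasFDerivAt x hn
  have hJ : ∀ i, HasFDerivAt (fun y : E4 => W1_I (J i y)) (W1_I.comp (J i)) x := by
    intro i
    exact (W1_I.comp (J i)).hasFDerivAt
  have hterm : ∀ i, HasFDerivAt (fun y : E4 => (α y i * (‖y‖ ^ 2)⁻¹) • (W1_I (J i y)))
      ((α x i * (‖x‖ ^ 2)⁻¹) • (W1_I.comp (J i)) +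
        (α x i • ((-((‖x‖ ^ 2) ^ 2)⁻¹) • (2 • (W1_I x))) +
          (‖x‖ ^ 2)⁻¹ • ((ContinuousLinearMap.proj i).comp (fderiv ℝ α x))).smulRight
            (W1_I (J i x))) x := by
    intro i
    exact ((hαi i).mul hni).smul (hJ i)
  have hform : HasFDerivAt (form α) (∑ i, ((α x i * (‖x‖ ^ 2)⁻¹) • (W1_I.comp (J i)) +
        (α x i • ((-((‖x‖ ^ 2) ^ 2)⁻¹) • (2 • (W1_I x))) +
          (‖x‖ ^ 2)⁻¹ • ((ContinuousLinearMap.proj i).comp (fderiv ℝ α x))).smulRight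
            (W1_I (J i x)))) x := by
    have h1 := HasFDerivAt.fun_sum (u := Finset.univ) (fun i _ => hterm i)
    have h2 : (form α) = fun y => ∑ i, (α y i * (‖y‖ ^ 2)⁻¹) • (W1_I (J i y)) := by
      funext y
      simp only [form, div_eq_mul_inv]
      rfl
    rw [h2]
    exact h1
  rw [hform.fderiv]
  have hDv : ∀ i j, Dv (fun y => α y i) (ee j) x = fderiv ℝ α x (J j x) i := by
    intro i j
    rw [Dv, W1_fld_ee, (hαi i).fderiv]
    rfl
  rw [hDv, hDv]
  simp only [_root_.sum_apply, _root_.add_apply,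
    _root_.smul_apply, ContinuousLinearMap.comp_apply, W1_I_apply,
    ContinuousLinearMap.smulRight_apply, smul_eq_mul, ContinuousLinearMap.proj_apply,
    nsmul_eq_mul, Nat.cast_ofNat, W1_JJ]
  have hx0 : ∀ i, inner ℝ x (J i x) = (0 : ℝ) := by
    intro i
    rw [real_inner_comm]
    exact W1_Jx i x
  rw [hx0, hx0]
  have hc1 : ∀ i a b : Fin 3, inner ℝ (J i (J a x)) (J b x) - inner ℝ (J i (J b x)) (J a x)
      = -(2 * eps a b i * ‖x‖ ^ 2) := by
    obtain ⟨a0, a1, a2, a3⟩ := W1_J0 x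
    obtain ⟨b0, b1, b2, b3⟩ := W1_J1 x
    obtain ⟨c0, c1, c2, c3⟩ := W1_J2 x
    intro i a b
    rw [W1_norm]
    fin_cases i <;> fin_cases a <;> fin_cases b <;>
      simp [W1_in0, W1_in1, W1_in2, a0, a1, a2, a3, b0, b1, b2, b3, c0, c1, c2, c3, eps] <;> ring
  have h0 := hc1 0 a b
  have h1 := hc1 1 a b
  have h2 := hc1 2 a b
  have e1 : ∀ i, α x i * (‖x‖ ^ 2)⁻¹ * inner ℝ (J i (J a x)) (J b x)
      - α x i * (‖x‖ ^ 2)⁻¹ * inner ℝ (J i (J b x)) (J a x) = -(2 * eps a b i * α x i) := by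
    intro i
    rw [← mul_sub, hc1]
    field_simp
  have e1' := e1 0
  have e2' := e1 1
  have e3' := e1 2
  have hs : ∀ (a b : Fin 3), ∑ i, (α x i * (-((‖x‖ ^ 2) ^ 2)⁻¹ * (2 * 0)) +
      (‖x‖ ^ 2)⁻¹ * fderiv ℝ α x (J a x) i) * (if i = b then ‖x‖ ^ 2 else 0) =
      fderiv ℝ α x (J a x) b := by
    intro a b
    rw [Finset.sum_eq_single b]
    · rw [if_pos rfl]
      field_simp
      ring
    · intro i _ hi
      rw [if_neg hi, mul_zero]
    · intro h
      exact absurd (Finset.mem_univ b) h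
  rw [Finset.sum_add_distrib, Finset.sum_add_distrib, hs, hs]
  simp only [Fin.sum_univ_three]
  linarith

theorem FIc_closed_of_symm {α : E4 → V3} {x : E4} (hx : x ≠ 0) (hα : DifferentiableAt ℝ α x)
    (h : ∀ w w', fderiv ℝ (form α) x w w' = fderiv ℝ (form α) x w' w) : ClosedF α x := by
  intro i j
  have h1 := FIc_form_val hx hα i j
  rw [h (J i x) (J j x), sub_self] at h1
  linarith

theorem FIc_closed_congr {α β : E4 → V3} {x : E4} (h : ClosedF α x) (he : α =ᶠ[𝓝 x] β) :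
    ClosedF β x := by
  intro i j
  have h1 := h i j
  have e1 : ∀ i, (fun y => α y i) =ᶠ[𝓝 x] (fun y => β y i) := by
    intro i
    filter_upwards [he] with y hy
    rw [hy]
  have e2 : ∀ i j, Dv (fun y => α y i) (ee j) x = Dv (fun y => β y i) (ee j) x := by
    intro i j
    unfold Dv
    rw [(e1 i).fderiv_eq]
  rw [e2, e2, he.eq_of_nhds] at h1
  exact h1

theorem FIc_closed_add {α β : E4 → V3} {x : E4} (hα : DifferentiableAt ℝ α x)
    (hβ : DifferentiableAt ℝ β x) (h1 : ClosedF α x) (h2 : ClosedF β x) :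
    ClosedF (fun y => α y + β y) x := by
  intro i j
  have hαi : ∀ i, DifferentiableAt ℝ (fun y => α y i) x := fun i => differentiableAt_pi.1 hα i
  have hβi : ∀ i, DifferentiableAt ℝ (fun y => β y i) x := fun i => differentiableAt_pi.1 hβ i
  have e : ∀ i j, Dv (fun y => (α y + β y) i) (ee j) x =
      Dv (fun y => α y i) (ee j) x + Dv (fun y => β y i) (ee j) x := by
    intro i j
    exact Dv_add (hαi i) (hβi i)
  rw [e, e]
  have g1 := h1 i j
  have g2 := h2 i j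
  simp only [Pi.add_apply, mul_add, Finset.sum_add_distrib]
  linarith

theorem FIc_closed_zero (x : E4) : ClosedF (fun _ => 0) x := by
  intro i j
  simp [Dv]

/-- multiplication with a function whose differential is a multiple of the form -/
theorem FIc_closed_smul {f : E4 → ℝ} {α : E4 → V3} {x : E4} (hf : DifferentiableAt ℝ f x)
    (hα : DifferentiableAt ℝ α x) (h1 : ClosedF α x) {κ : ℝ}
    (hd : ∀ i, Dv f (ee i) x = κ * α x i) : ClosedF (fun y => f y • α y) x := by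
  intro i j
  have hαi : ∀ i, DifferentiableAt ℝ (fun y => α y i) x := fun i => differentiableAt_pi.1 hα i
  have e : ∀ i j, Dv (fun y => (f y • α y) i) (ee j) x =
      Dv f (ee j) x * α x i + f x * Dv (fun y => α y i) (ee j) x := by
    intro i j
    exact Dv_smul hf (hαi i)
  rw [e, e, hd, hd]
  have g1 := h1 i j
  have e2 : ∑ k, eps i j k * (f x • α x) k = f x * ∑ k, eps i j k * α x k := by
    rw [Finset.mul_sum]
    refine Finset.sum_congr rfl fun k _ => ?_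
    simp only [Pi.smul_apply, smul_eq_mul]
    ring
  rw [e2]
  linear_combination (f x) * g1

/-! ### cones -/

/-- the open cone generated by an open set -/
theorem FIc_cone {U : Set E4} (hU : IsOpen U) (h0 : (0 : E4) ∉ U) :
    OCone {y : E4 | ∃ t : ℝ, 0 < t ∧ t • y ∈ U} := by
  refine ⟨?_, ?_, ?_⟩
  · have h1 : {y : E4 | ∃ t : ℝ, 0 < t ∧ t • y ∈ U} =
        ⋃ t ∈ Ioi (0 : ℝ), (fun y : E4 => t • y) ⁻¹' U := by
      ext y
      simp
    rw [h1]
    exact isOpen_biUnion fun t _ => hU.preimage (continuous_const_smul t)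
  · rintro ⟨t, _, h⟩
    rw [smul_zero] at h
    exact h0 h
  · rintro y ⟨t, ht, hy⟩ r hr
    refine ⟨t * r⁻¹, mul_pos ht (inv_pos.2 hr), ?_⟩
    rw [smul_smul, mul_assoc, inv_mul_cancel₀ hr.ne', mul_one]
    exact hy

theorem FIc_cone_inter {U V : Set E4} (hU : OCone U) (hV : OCone V) : OCone (U ∩ V) :=
  ⟨hU.isOpen.inter hV.isOpen, fun h => hU.zero h.1, fun y hy t ht => ⟨hU.smul y hy.1 t ht,
    hV.smul y hy.2 t ht⟩⟩

theorem FIc_ne {W : Set E4} (hW : OCone W) {y : E4} (hy : y ∈ W) : y ≠ 0 := by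
  rintro rfl
  exact hW.zero hy

/-- preimage of an open set under a homogeneous function -/
theorem FIc_cone_pre {W : Set E4} (hW : OCone W) {f : E4 → ℝ} (hf : Hom f) (hc : ContinuousOn f W)
    {I : Set ℝ} (hI : IsOpen I) : OCone (W ∩ f ⁻¹' I) := by
  refine ⟨hc.isOpen_inter_preimage hW.isOpen hI, fun h => hW.zero h.1, fun y hy t ht =>
    ⟨hW.smul y hy.1 t ht, ?_⟩⟩
  have h1 : f (t • y) = f y := hf t ht y
  change f (t • y) ∈ I
  rw [h1]
  exact hy.2

/-! ### roots near a point -/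

variable {S : Geo}

theorem FIc_nil {A : M3} {c r₁ r₂ : ℝ} (hr : RR3 A c r₁ r₂) (h3 : (A - c • (1 : M3)) ^ 3 = 0) :
    r₁ = c ∧ r₂ = c := by
  have key : ∀ r : ℝ, (r • (1 : M3) - A).det = 0 → r = c := by
    intro r hd
    obtain ⟨v, hv, hAv⟩ := LA1_eigen hd
    have h1 : (A - c • (1 : M3)) *ᵥ v = (r - c) • v := by
      rw [Matrix.sub_mulVec, Matrix.smul_mulVec, Matrix.one_mulVec, hAv, sub_smul]
    have h2 : ((A - c • (1 : M3)) ^ 3) *ᵥ v = (r - c) ^ 3 • v := by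
      rw [pow_succ, pow_two, ← Matrix.mulVec_mulVec, ← Matrix.mulVec_mulVec, h1, Matrix.mulVec_smul,
        Matrix.mulVec_smul, h1, Matrix.mulVec_smul, h1, smul_smul, smul_smul]
      congr 1
      ring
    rw [h3, Matrix.zero_mulVec] at h2
    rcases smul_eq_zero.1 h2.symm with h4 | h4
    · have := pow_eq_zero_iff (n := 3) (by norm_num) |>.1 h4
      linarith
    · exact absurd h4 hv
  exact ⟨key r₁ (by rw [hr]; ring), key r₂ (by rw [hr]; ring)⟩

namespace FinData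
variable (D : FinData S)

/-- an open cone around `x` on which `c` is constant -/
theorem FIc_const {x : E4} (hx : x ≠ 0) (h3 : (S.L x - D.c x • (1 : M3)) ^ 3 ≠ 0) :
    ∃ W : Set E4, OCone W ∧ x ∈ W ∧ ∀ y ∈ W, D.c y = D.c x := by
  have h1 := D.loc x hx h3
  have h2 : ∀ᶠ y in 𝓝 x, y ∈ ({0}ᶜ : Set E4) := isOpen_compl_singleton.mem_nhds hx
  obtain ⟨U, hU1, hU2, hU3⟩ := mem_nhds_iff.1 (h1.and h2)
  refine ⟨_, FIc_cone hU2 (fun h => (hU1 h).2 rfl), ⟨1, one_pos, by rwa [one_smul]⟩, ?_⟩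
  rintro y ⟨t, ht, hy⟩
  rw [← D.hc t ht y]
  exact (hU1 hy).1

theorem FIc_Ku_smooth {U : Set E4} (h0 : (0 : E4) ∉ U) {μ : E4 → ℝ} {y : E4} (hy : y ∈ U)
    (hμ : ContDiffAt ℝ ∞ μ y) : ContDiffAt ℝ ∞ (fun x => S.Ku (μ x) x) y := by
  have hy0 : y ≠ 0 := by rintro rfl; exact h0 hy
  have hL : ContDiffAt ℝ ∞ S.L y := S.smL.contDiffAt hy0
  have hG : ContDiffAt ℝ ∞ S.G y := S.smG.contDiffAt hy0
  have h1 : ContDiffAt ℝ ∞ (fun x => S.L x - μ x • (1 : M3)) y := hL.sub (hμ.smul contDiffAt_const)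
  have h2 := contDiffAt_adjugate h1
  have h3 := contDiffAt_inv hG (S.det_neg y hy0).ne
  exact h2.mul h3

theorem FIc_Z_smooth {W : Set E4} (hW : OCone W) {c₀ : ℝ} (hc : ∀ y ∈ W, D.c y = c₀) :
    ContDiffOn ℝ ∞ D.Z W := by
  refine W2_smooth (fun y => S.Ku c₀ y) D.Z D.s D.hs W hW.isOpen ?_ ?_ ?_
  · intro i j y hy
    exact (contDiffAt_entries.1 (FIc_Ku_smooth hW.zero hy contDiffAt_const) i j).contDiffWithinAt
  · exact D.cZ.mono fun y hy => FIc_ne hW hy
  · intro y hy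
    have h1 := D.root y (FIc_ne hW hy)
    rw [hc y hy] at h1
    exact h1

/-- the aligned root vector -/
theorem FIc_adjT {y : E4} (hy : y ≠ 0) {t : ℝ} (ht : (S.L y - t • (1 : M3)).det = 0)
    (hc : |t - D.c y| < D.ε) :
    S.Ku t y = D.s • vecMulVec (D.T y t) (D.T y t) ∧ D.T y t ≠ 0 ∧ 0 < D.T y t ⬝ᵥ D.Z y := by
  obtain ⟨s', w, hs', hK, -, -, -⟩ := LA_adj_root (FI1_Lor S hy) (LA2_sa (S.symm y hy) (S.selfadj y hy) t) ht
  have hK' : S.Ku t y = s' • vecMulVec w w := hK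
  have hal := D.align y hy t hc
  have hvv : ∀ v : V3, vecMulVec w w *ᵥ v = (w ⬝ᵥ v) • w := fun v => GA_vecMulVec_mulVec w w v
  rw [hK', Matrix.smul_mulVec, hvv, dotProduct_smul, dotProduct_smul, smul_eq_mul, smul_eq_mul,
    dotProduct_comm (D.Z y) w] at hal
  obtain ⟨p, hp⟩ : ∃ p, p = w ⬝ᵥ D.Z y := ⟨_, rfl⟩
  rw [← hp] at hal
  have hp0 : p ≠ 0 := by
    intro h0
    rw [h0] at hal
    simp at hal
  have hss : s' = D.s := by
    rcases hs' with h | h <;> rcases D.hs with h' | h' <;> rw [h, h'] at hal ⊢ <;> nlinarith [mul_self_pos.2 hp0]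
  have hss1 : D.s * D.s = 1 := by rcases D.hs with h | h <;> rw [h] <;> norm_num
  have hT : D.T y t = (p / |p|) • w := by
    unfold FinData.T
    rw [hK', Matrix.smul_mulVec, hvv, ← hp, hss, dotProduct_smul, dotProduct_smul, smul_eq_mul,
      smul_eq_mul, dotProduct_comm (D.Z y) w, ← hp]
    have e1 : D.s * (D.s * (p * p)) = p ^ 2 := by
      rw [← mul_assoc, hss1]; ring
    rw [e1, Real.sqrt_sq_eq_abs, smul_smul, smul_smul]
    congr 1
    calc D.s / |p| * D.s * p = (D.s * D.s) * (p / |p|) := by ring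
      _ = p / |p| := by rw [hss1, one_mul]
  have hpa : (p / |p|) * (p / |p|) = 1 := by
    have h1 : |p| ≠ 0 := abs_ne_zero.2 hp0
    have h2 : |p| * |p| = p * p := abs_mul_abs_self p
    field_simp
    rw [sq, sq, h2]
  have hw0 : w ≠ 0 := by
    rintro rfl
    rw [zero_dotProduct] at hp
    exact hp0 hp
  refine ⟨?_, ?_, ?_⟩
  · rw [hK', hT, hss, Matrix.smul_vecMulVec, Matrix.vecMulVec_smul, smul_smul, smul_smul, mul_assoc,
      hpa, mul_one]
  · rw [hT]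
    apply smul_ne_zero _ hw0
    intro h0
    rw [h0] at hpa
    norm_num at hpa
  · rw [hT, smul_dotProduct, ← hp, smul_eq_mul]
    have h2 : |p| * |p| = p * p := abs_mul_abs_self p
    have h3 : 0 < |p| := abs_pos.2 hp0
    have h4 : p / |p| * p = |p| := by
      field_simp
      rw [sq, sq, h2]
    rw [h4]
    exact h3

theorem FIc_T_smooth {U : Set E4} (h0 : (0 : E4) ∉ U) {μ : E4 → ℝ} {y : E4} (hy : y ∈ U)
    (hμ : ContDiffAt ℝ ∞ μ y) (hZ : ContDiffAt ℝ ∞ D.Z y) (hc : |μ y - D.c y| < D.ε) :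
    ContDiffAt ℝ ∞ (fun x => D.T x (μ x)) y := by
  have hy0 : y ≠ 0 := by rintro rfl; exact h0 hy
  have hK := FIc_Ku_smooth (S := S) h0 hy hμ
  have hKZ : ContDiffAt ℝ ∞ (fun x => S.Ku (μ x) x *ᵥ D.Z x) y := contDiffAt_mulVec hK hZ
  have hd : ContDiffAt ℝ ∞ (fun x => D.s * (D.Z x ⬝ᵥ (S.Ku (μ x) x *ᵥ D.Z x))) y :=
    contDiffAt_const.mul (contDiffAt_dotProduct hZ hKZ)
  have hpos := D.align y hy0 (μ y) hc
  have hsq := hd.sqrt hpos.ne'
  have hq : ContDiffAt ℝ ∞ (fun x => D.s / Real.sqrt (D.s * (D.Z x ⬝ᵥ (S.Ku (μ x) x *ᵥ D.Z x)))) y :=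
    contDiffAt_const.div hsq (Real.sqrt_pos.2 hpos).ne'
  exact hq.smul hKZ

/-- the root `c` where it is simple -/
theorem FIc_root_Z {x : E4} (hx : x ≠ 0) (h : (S.L x - D.c x • (1 : M3)).adjugate.trace ≠ 0)
    (h3 : (S.L x - D.c x • (1 : M3)) ^ 3 ≠ 0) :
    ∃ W : Set E4, OCone W ∧ x ∈ W ∧ (∀ y ∈ W, D.c y = D.c x) ∧ IsRoot S W D.c D.s D.Z := by
  obtain ⟨W₀, hW₀, hxW₀, hc⟩ := D.FIc_const hx h3
  have hf : Hom (fun y => (S.L y - D.c x • (1 : M3)).adjugate.trace) := by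
    intro t ht y
    simp only
    rw [S.homL t ht y]
  have hfc : ContinuousOn (fun y => (S.L y - D.c x • (1 : M3)).adjugate.trace) W₀ := by
    intro y hy
    have h1 : ContDiffAt ℝ ∞ S.L y := S.smL.contDiffAt (FIc_ne hW₀ hy)
    exact (contDiffAt_trace (contDiffAt_adjugate (h1.sub contDiffAt_const))).continuousAt.continuousWithinAt
  have hW := FIc_cone_pre hW₀ hf hfc (isOpen_compl_singleton (x := (0 : ℝ)))
  refine ⟨_, hW, ⟨hxW₀, h⟩, fun y hy => hc y hy.1, hW, D.hc, D.hZ, ?_, ?_, D.hs, ?_, ?_, ?_⟩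
  · exact contDiffOn_const.congr fun y hy => hc y hy.1
  · exact (D.FIc_Z_smooth hW₀ hc).mono inter_subset_left
  · intro y hy
    obtain ⟨r₁, r₂, hr⟩ := D.real y (FIc_ne hW hy)
    exact FI1_det hr
  · intro y hy
    rw [hc y hy.1]
    exact hy.2
  · intro y hy
    exact D.FI1_K (FIc_ne hW hy)

/-- the form of a root field is closed -/
theorem FIc_closed_root {W : Set E4} {μ : E4 → ℝ} {σ : ℝ} {T : E4 → V3} (h : IsRoot S W μ σ T)
    {y : E4} (hy : y ∈ W) :
    ContDiffAt ℝ ∞ (fun u => (S.g u (T u) (T u))⁻¹ • (S.G u *ᵥ T u)) y ∧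
    ClosedF (fun u => (S.g u (T u) (T u))⁻¹ • (S.G u *ᵥ T u)) y := by
  have hy0 := FIc_ne h.cone hy
  have hG : ContDiffAt ℝ ∞ S.G y := S.smG.contDiffAt hy0
  have hT : ContDiffAt ℝ ∞ T y := h.smT.contDiffAt (h.cone.isOpen.mem_nhds hy)
  have hgT : ContDiffAt ℝ ∞ (fun u => S.g u (T u) (T u)) y := contDiffAt_bil hG hT hT
  have hne := (T3_eig S h hy 0).2.2.1
  have h1 : ContDiffAt ℝ ∞ (fun u => (S.g u (T u) (T u))⁻¹ • (S.G u *ᵥ T u)) y :=
    (hgT.inv hne).smul (contDiffAt_mulVec hG hT)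
  refine ⟨h1, FIc_closed_of_symm hy0 (h1.differentiableAt (by simp)) ?_⟩
  intro w w'
  exact T3_closed S h hy w w'

/-- the aligned root field of another simple root, near the value `c` -/
theorem FIc_isRoot {W : Set E4} (hW : OCone W) {μ : E4 → ℝ} (hμ : Hom μ) (hμs : ContDiffOn ℝ ∞ μ W)
    {c₀ : ℝ} (hc : ∀ y ∈ W, D.c y = c₀)
    (hroot : ∀ y ∈ W, (S.L y - μ y • (1 : M3)).det = 0 ∧ (S.L y - μ y • (1 : M3)).adjugate.trace ≠ 0)
    (hε : ∀ y ∈ W, |μ y - c₀| < D.ε) : IsRoot S W μ D.s (fun y => D.T y (μ y)) := by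
  have hε' : ∀ y ∈ W, |μ y - D.c y| < D.ε := by
    intro y hy
    rw [hc y hy]
    exact hε y hy
  refine ⟨hW, hμ, ?_, hμs, ?_, D.hs, fun y hy => (hroot y hy).1, fun y hy => (hroot y hy).2, ?_⟩
  · intro t ht y
    simp only
    rw [D.FI1_T_hom y _ ht, hμ t ht y]
  · intro y hy
    have h1 : ContDiffAt ℝ ∞ D.Z y :=
      (D.FIc_Z_smooth hW hc).contDiffAt (hW.isOpen.mem_nhds hy)
    exact (D.FIc_T_smooth hW.zero hy (hμs.contDiffAt (hW.isOpen.mem_nhds hy)) h1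
      (hε' y hy)).contDiffWithinAt
  · intro y hy
    exact LA2_adj (FI1_Lor S (FIc_ne hW hy)) (D.FIc_adjT (FIc_ne hW hy) (hroot y hy).1 (hε' y hy)).1

/-- the contribution of a simple root different from `c` -/
theorem FIc_branch {x : E4} (hx : x ≠ 0) (h3 : (S.L x - D.c x • (1 : M3)) ^ 3 ≠ 0) {r : ℝ}
    (hr : (S.L x - r • (1 : M3)).det = 0) (hs : (S.L x - r • (1 : M3)).adjugate.trace ≠ 0)
    (hrc : r ≠ D.c x) :
    ∃ (W : Set E4) (μ : E4 → ℝ), OCone W ∧ x ∈ W ∧ Hom μ ∧ μ x = r ∧ ContDiffOn ℝ ∞ μ W ∧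
      (∀ y ∈ W, (S.L y - μ y • (1 : M3)).det = 0 ∧ (S.L y - μ y • (1 : M3)).adjugate.trace ≠ 0 ∧
        μ y ≠ D.c y ∧ D.c y = D.c x) ∧
      ContDiffOn ℝ ∞ (fun y => D.w y (μ y)) W ∧
      ∀ y ∈ W, ClosedF (fun u => S.G u *ᵥ D.w u (μ u)) y := by
  obtain ⟨W₁, μ, hW₁, hxW₁, hμ, hμx, hμs, hroot⟩ := T3_exists S hx hr hs
  obtain ⟨W₂, hW₂, hxW₂, hc⟩ := D.FIc_const hx h3
  have hW₃ := FIc_cone_inter hW₁ hW₂
  have hf : Hom (fun y => μ y - D.c x) := by
    intro t ht y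
    simp only
    rw [hμ t ht y]
  have hfc : ContinuousOn (fun y => μ y - D.c x) (W₁ ∩ W₂) :=
    (hμs.continuousOn.mono inter_subset_left).sub continuousOn_const
  by_cases hcase : |r - D.c x| < D.ε
  · -- the root is near `c`
    have hI : IsOpen (Ioo (-D.ε) D.ε ∩ ({0}ᶜ : Set ℝ)) := isOpen_Ioo.inter isOpen_compl_singleton
    have hW := FIc_cone_pre hW₃ hf hfc hI
    set W := (W₁ ∩ W₂) ∩ (fun y => μ y - D.c x) ⁻¹' (Ioo (-D.ε) D.ε ∩ ({0}ᶜ : Set ℝ)) with hWdef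
    have hWn : ∀ y ∈ W, W ∈ 𝓝 y := fun y hy => hW.isOpen.mem_nhds hy
    have hcW : ∀ y ∈ W, D.c y = D.c x := fun y hy => hc y hy.1.2
    have hsW : ContDiffOn ℝ ∞ μ W := hμs.mono fun y hy => hy.1.1
    have hrW : ∀ y ∈ W, (S.L y - μ y • (1 : M3)).det = 0 ∧
        (S.L y - μ y • (1 : M3)).adjugate.trace ≠ 0 := fun y hy => hroot y hy.1.1
    have hεW : ∀ y ∈ W, |μ y - D.c x| < D.ε := fun y hy => abs_lt.2 hy.2.1
    have hR := D.FIc_isRoot hW hμ hsW hcW hrW hεW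
    refine ⟨W, μ, hW, ⟨⟨hxW₁, hxW₂⟩, ?_, ?_⟩, hμ, hμx, hsW, ?_, ?_, ?_⟩
    · change μ x - D.c x ∈ Ioo (-D.ε) D.ε
      rw [hμx]; exact abs_lt.1 hcase
    · change μ x - D.c x ≠ 0
      rw [hμx]; exact sub_ne_zero.2 hrc
    · intro y hy
      refine ⟨(hrW y hy).1, (hrW y hy).2, ?_, hcW y hy⟩
      rw [hcW y hy]
      intro h0
      exact hy.2.2 (sub_eq_zero.2 h0)
    · intro y hy
      refine ContDiffAt.contDiffWithinAt ?_
      have hT : ContDiffAt ℝ ∞ (fun u => D.T u (μ u)) y := hR.smT.contDiffAt (hWn y hy)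
      have hG : ContDiffAt ℝ ∞ S.G y := S.smG.contDiffAt (FIc_ne hW hy)
      have hgT : ContDiffAt ℝ ∞ (fun u => S.g u (D.T u (μ u)) (D.T u (μ u))) y := contDiffAt_bil hG hT hT
      have hne := (T3_eig S hR hy 0).2.2.1
      have ha : ContDiffAt ℝ ∞ (fun u => D.a (μ u - D.c x)) y :=
        D.smooth_a.contDiffAt.comp y ((hsW.contDiffAt (hWn y hy)).sub contDiffAt_const)
      have h1 : ContDiffAt ℝ ∞ (fun u => (D.a (μ u - D.c x) /
          S.g u (D.T u (μ u)) (D.T u (μ u))) • D.T u (μ u)) y := (ha.div hgT hne).smul hT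
      refine h1.congr_of_eventuallyEq ?_
      filter_upwards [hWn y hy] with u hu
      unfold FinData.w
      rw [hcW u hu]
    · intro y hy
      obtain ⟨hα, hcl⟩ := FIc_closed_root hR hy
      have ha : ContDiffAt ℝ ∞ (fun u => D.a (μ u - D.c x)) y :=
        D.smooth_a.contDiffAt.comp y ((hsW.contDiffAt (hWn y hy)).sub contDiffAt_const)
      have had : DifferentiableAt ℝ (fun u => D.a (μ u - D.c x)) y := ha.differentiableAt (by simp)
      have hμd : DifferentiableAt ℝ (fun u => μ u - D.c x) y :=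
        ((hsW.contDiffAt (hWn y hy)).differentiableAt (by simp)).sub_const _
      set N := S.g y (D.T y (μ y)) (D.T y (μ y)) with hN
      have hne : N ≠ 0 := (T3_eig S hR hy 0).2.2.1
      have hda : ∀ i, Dv (fun u => D.a (μ u - D.c x)) (ee i) y =
          (deriv D.a (μ y - D.c x) * (2 * S.g y (S.lam y) (D.T y (μ y)))) *
            ((S.g y (D.T y (μ y)) (D.T y (μ y)))⁻¹ • (S.G y *ᵥ D.T y (μ y))) i := by
        intro i
        have e1 : Dv (fun u => D.a (μ u - D.c x)) (ee i) y =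
            deriv D.a (μ y - D.c x) * Dv μ (ee i) y := by
          unfold Dv
          have h1 : HasFDerivAt (fun u => D.a (μ u - D.c x))
              (deriv D.a (μ y - D.c x) • fderiv ℝ (fun u => μ u - D.c x) y) y := by
            have h2 : HasDerivAt D.a (deriv D.a (μ y - D.c x)) (μ y - D.c x) :=
              ((D.smooth_a.contDiffAt).differentiableAt (by simp)).hasDerivAt
            exact h2.comp_hasFDerivAt y hμd.hasFDerivAt
          rw [h1.fderiv, fderiv_sub_const]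
          rfl
        have e2 := (T3_eig S hR hy (ee i)).2.2.2
        have e3 : S.g y (D.T y (μ y)) (ee i) = (S.G y *ᵥ D.T y (μ y)) i := by
          rw [S.g_symm (FIc_ne hW hy)]
          unfold Geo.g bil ee
          rw [single_one_dotProduct]
        rw [e1, e2, e3, Pi.smul_apply, smul_eq_mul]
        rw [← hN]
        field_simp
      have hcl2 := FIc_closed_smul had (hα.differentiableAt (by simp)) hcl hda
      refine FIc_closed_congr hcl2 ?_
      filter_upwards [hWn y hy] with u hu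
      unfold FinData.w
      rw [hcW u hu, Matrix.mulVec_smul, smul_smul]
      rfl
  · -- the root is far from `c`
    push Not at hcase
    have hI : IsOpen {t : ℝ | D.ε / 2 < |t|} := isOpen_lt continuous_const continuous_abs
    have hW := FIc_cone_pre hW₃ hf hfc hI
    set W := (W₁ ∩ W₂) ∩ (fun y => μ y - D.c x) ⁻¹' {t : ℝ | D.ε / 2 < |t|} with hWdef
    have hcW : ∀ y ∈ W, D.c y = D.c x := fun y hy => hc y hy.1.2
    have hw0 : ∀ y ∈ W, D.w y (μ y) = 0 := by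
      intro y hy
      have h1 : D.ε / 2 < |μ y - D.c x| := hy.2
      unfold FinData.w
      rw [hcW y hy, D.a_zero _ h1.le, zero_div, zero_smul]
    refine ⟨W, μ, hW, ⟨⟨hxW₁, hxW₂⟩, ?_⟩, hμ, hμx, hμs.mono fun y hy => hy.1.1, ?_, ?_, ?_⟩
    · change D.ε / 2 < |μ x - D.c x|
      rw [hμx]
      linarith [D.hε]
    · intro y hy
      refine ⟨(hroot y hy.1.1).1, (hroot y hy.1.1).2, ?_, hcW y hy⟩
      rw [hcW y hy]
      intro h0
      have h1 : D.ε / 2 < |μ y - D.c x| := hy.2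
      rw [h0, sub_self, abs_zero] at h1
      linarith [D.hε]
    · exact contDiffOn_const.congr hw0
    · intro y hy
      refine FIc_closed_congr (FIc_closed_zero y) ?_
      filter_upwards [hW.isOpen.mem_nhds hy] with u hu
      rw [hw0 u hu, Matrix.mulVec_zero]

end FinData

/-- two other roots -/
theorem FIc_two {A : M3} {c r₁ r₂ m₁ m₂ : ℝ} (hr : RR3 A c r₁ r₂)
    (h1 : (A - m₁ • (1 : M3)).det = 0) (h2 : (A - m₂ • (1 : M3)).det = 0) (hm₁ : m₁ ≠ c)
    (hm₂ : m₂ ≠ c) (hm : m₁ ≠ m₂) : RR3 A c m₁ m₂ := by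
  have key : ∀ m : ℝ, (A - m • (1 : M3)).det = 0 → m ≠ c → m = r₁ ∨ m = r₂ := by
    intro m hd hmc
    have e1 : (m • (1 : M3) - A).det = 0 := by
      have e2 : m • (1 : M3) - A = -(A - m • (1 : M3)) := by abel
      rw [e2, Matrix.det_neg, hd, mul_zero]
    rw [hr] at e1
    rcases mul_eq_zero.1 e1 with h | h
    · rcases mul_eq_zero.1 h with h' | h'
      · exact absurd (sub_eq_zero.1 h') hmc
      · left; exact sub_eq_zero.1 h'
    · right; exact sub_eq_zero.1 h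
  rcases key m₁ h1 hm₁ with e1 | e1 <;> rcases key m₂ h2 hm₂ with e2 | e2
  · exact absurd (e1.trans e2.symm) hm
  · rw [e1, e2]; exact hr
  · rw [e1, e2]; exact FI1_perm hr
  · exact absurd (e1.trans e2.symm) hm

end Pool.Agent.helper68.B2
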