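import Pool.Agent.helper71.B2.A3

/-! # B2, module b2:NS: no scalar points -/

set_option autoImplicit false

namespace Pool.Agent.helper68.B2

open scoped ContDiff Topology Matrix
open Matrix Set

theorem NS_unit {G : M3} (h : Lor G) : ∃ e : V3, bil G e e = 1 := by
  obtain ⟨v, hv⟩ := h.pos
  refine ⟨(Real.sqrt (bil G v v))⁻¹ • v, ?_⟩
  rw [GA_bil_smul_left, GA_bil_smul_right]
  have h1 : Real.sqrt (bil G v v) ≠ 0 := (Real.sqrt_pos.2 hv).ne'
  have h2 : Real.sqrt (bil G v v) * Real.sqrt (bil G v v) = bil G v v := Real.mul_self_sqrt hv.le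
  field_simp
  rw [sq, h2]

namespace Geo
variable (S : Geo)

theorem no_scalar (hNC : S.NC) (R : Roots S) {x : E4} (hx : x ≠ 0) (c : ℝ) :
    S.L x ≠ c • (1 : M3) := by
  intro hL
  obtain ⟨e, he⟩ := NS_unit (A3_Lor S hx)
  obtain ⟨z, n, hf⟩ := LA_frame_e (A3_Lor S hx) he
  have hG := S.symm x hx
  have hLv : ∀ v : V3, S.L x *ᵥ v = c • v := by
    intro v
    rw [hL, Matrix.smul_mulVec, Matrix.one_mulVec]
  have hnz : bil (S.G x) n z = 1 := by rw [bil_symm hG]; exact hf.zn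
  have hen : bil (S.G x) e n = 0 := by rw [bil_symm hG]; exact hf.ne
  have hez : bil (S.G x) e z = 0 := by rw [bil_symm hG]; exact hf.ze
  have hz : z ≠ 0 := A3_frame_ne hf
  have hn : n ≠ 0 := by
    intro h0
    rw [h0] at hnz
    simp [bil] at hnz
  have h1 : bil (S.G x) (S.lam x) z = 0 := S.lemma_A hNC R hx hz hf.zz (hLv z)
  have h2 : bil (S.G x) (S.lam x) n = 0 := S.lemma_A hNC R hx hn hf.nn (hLv n)
  set v : V3 := z + (-(1 / 2 : ℝ)) • n + e with hv
  have hvn : bil (S.G x) v n = 1 := by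
    rw [hv, GA_bil_add_left, GA_bil_add_left, GA_bil_smul_left, hf.zn, hf.nn, hen]; ring
  have hv0 : v ≠ 0 := by
    intro h0
    rw [h0] at hvn
    simp [bil] at hvn
  have hvv : S.g x v v = 0 := by
    unfold Geo.g
    rw [hv]
    simp only [GA_bil_add_left, GA_bil_add_right, GA_bil_smul_left, GA_bil_smul_right, hf.zz, hf.nn,
      hf.zn, hf.ee, hf.ze, hf.ne, hnz, hen, hez]
    ring
  have h3 : bil (S.G x) (S.lam x) v = 0 := S.lemma_A hNC R hx hv0 hvv (hLv v)
  have h4 : bil (S.G x) (S.lam x) e = 0 := by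
    rw [hv, GA_bil_add_right, GA_bil_add_right, GA_bil_smul_right, h1, h2] at h3
    linarith
  have hlam : S.lam x = 0 := by
    rw [hf.expand hG (S.lam x), h1, h2, h4]
    simp
  exact S.NZ_0 hNC hx hL hlam

end Geo

end Pool.Agent.helper68.B2
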